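import Pool.Agent.N806.HG.Stm
import Pool.Agent.H382R2.GaussMV
import Pool.Agent.H382R2.MainNeg

/-!
Project HG: explicit average of the main integral, continuity in the centre (helper152).
-/

set_option autoImplicit false

open Complex Filter Topology Set MeasureTheory

namespace Pool.Agent.N806.HG

open SG SG.MVaux SG.MNaux

/-- explicit formula for the Gaussian integral -/
theorem gen_formula (N : ℕ) (D t0 a b : ℝ) (hD : 0 < D) :
    (∫ t : ℝ, (Real.exp (-(t - t0) ^ 2 / (2 * D ^ 2)) : ℂ) *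
        AA N (1 / 2 + I * (t + a)) * AA N (1 / 2 - I * (t + b))) =
      ∑ m ∈ Finset.Icc 1 N, ∑ n ∈ Finset.Icc 1 N,
        KK a b m n * (((D * Real.sqrt (2 * Real.pi) : ℝ) : ℂ) *
          (cexp (I * ((Real.log n - Real.log m : ℝ) : ℂ) * t0) *
            ((Real.exp (-(D ^ 2 * (Real.log n - Real.log m) ^ 2 / 2)) : ℝ) : ℂ))) := by
  simp_rw [expand']
  rw [integral_finsetSum _ fun m _ => integrable_finsetSum _ fun n _ =>
    (ek_int D t0 _ hD).const_mul _]
  refine Finset.sum_congr rfl fun m _ => ?_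
  rw [integral_finsetSum _ fun n _ => (ek_int D t0 _ hD).const_mul _]
  refine Finset.sum_congr rfl fun n _ => ?_
  rw [integral_const_mul, ek_val D t0 _ hD]

theorem gen_continuous (N : ℕ) (D a b : ℝ) (hD : 0 < D) :
    Continuous fun t0 : ℝ => ∫ t : ℝ, (Real.exp (-(t - t0) ^ 2 / (2 * D ^ 2)) : ℂ) *
        AA N (1 / 2 + I * (t + a)) * AA N (1 / 2 - I * (t + b)) := by
  simp_rw [gen_formula N D _ a b hD]
  fun_prop

theorem JJ_formula (N : ℕ) (D δ t0 : ℝ) (hD : 0 < D) : JJ t0 D δ N =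
      ∑ m ∈ Finset.Icc 1 N, ∑ n ∈ Finset.Icc 1 N,
        KK (δ / 2) (-(δ / 2)) m n * (((D * Real.sqrt (2 * Real.pi) : ℝ) : ℂ) *
          (cexp (I * ((Real.log n - Real.log m : ℝ) : ℂ) * t0) *
            ((Real.exp (-(D ^ 2 * (Real.log n - Real.log m) ^ 2 / 2)) : ℝ) : ℂ))) :=
  gen_formula N D t0 (δ / 2) (-(δ / 2)) hD

/-- the mean square as a complex integral -/
theorem MS_eq (N : ℕ) (D a t0 : ℝ) : ((MS t0 D a N : ℝ) : ℂ) =
    ∫ t : ℝ, (Real.exp (-(t - t0) ^ 2 / (2 * D ^ 2)) : ℂ) *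
        AA N (1 / 2 + I * (t + a)) * AA N (1 / 2 - I * (t + a)) := by
  unfold MS
  rw [← integral_complex_ofReal]
  congr 1
  funext t
  have h1 := AA_conj N (t + a)
  push_cast at h1
  rw [h1, mul_assoc, Complex.mul_conj']
  push_cast
  ring

theorem MS_eq_re (N : ℕ) (D a t0 : ℝ) : MS t0 D a N =
    (∫ t : ℝ, (Real.exp (-(t - t0) ^ 2 / (2 * D ^ 2)) : ℂ) *
        AA N (1 / 2 + I * (t + a)) * AA N (1 / 2 - I * (t + a))).re := by
  rw [← MS_eq, Complex.ofReal_re]

/-- (CONT) -/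
theorem p_CONT : S_CONT := by
  intro D δ a N hD
  refine ⟨gen_continuous N D (δ / 2) (-(δ / 2)) hD, ?_⟩
  simp_rw [MS_eq_re]
  exact Complex.continuous_re.comp (gen_continuous N D a a hD)

theorem exp_half_log {m n : ℕ} (hm : 1 ≤ m) (hn : 1 ≤ n) :
    Real.exp (-(Real.log m + Real.log n) / 2) = 1 / Real.sqrt (m * n) := by
  have hm0 : (0 : ℝ) < m := by exact_mod_cast hm
  have hn0 : (0 : ℝ) < n := by exact_mod_cast hn
  have h : Real.sqrt (m * n) = Real.exp ((Real.log m + Real.log n) / 2) := by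
    rw [Real.sqrt_eq_iff_mul_self_eq (by positivity) (by positivity), ← Real.exp_add,
      show (Real.log m + Real.log n) / 2 + (Real.log m + Real.log n) / 2 =
        Real.log m + Real.log n by ring, Real.exp_add, Real.exp_log hm0, Real.exp_log hn0]
  rw [h, one_div, ← Real.exp_neg]
  congr 1
  ring

/-- the phase -/
noncomputable def psi (T δ : ℝ) (m n : ℕ) : ℝ :=
  δ * Real.log T / 2 + δ * (Real.log m + Real.log n) / 2

/-- one term -/
theorem term_eq (T D δ t0 : ℝ) {m n : ℕ} (hm : 1 ≤ m) (hn : 1 ≤ n) :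
    cexp (-((δ * Real.log T / 2 : ℝ) : ℂ) * I) * (KK (δ / 2) (-(δ / 2)) m n *
      (((D * Real.sqrt (2 * Real.pi) : ℝ) : ℂ) *
        (cexp (I * ((Real.log n - Real.log m : ℝ) : ℂ) * t0) *
          ((Real.exp (-(D ^ 2 * (Real.log n - Real.log m) ^ 2 / 2)) : ℝ) : ℂ)))) =
    ((mu m * mu n / Real.sqrt (m * n) * (D * Real.sqrt (2 * Real.pi)) *
      Real.exp (-(D ^ 2 * (Real.log n - Real.log m) ^ 2 / 2)) : ℝ) : ℂ) *
      cexp ((((Real.log n - Real.log m) * t0 - psi T δ m n : ℝ) : ℂ) * I) := by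
  have h1 : cexp (-((Real.log m + Real.log n : ℝ) : ℂ) / 2 +
      I * ((-(δ / 2) * Real.log n - δ / 2 * Real.log m : ℝ) : ℂ)) =
      ((1 / Real.sqrt (m * n) : ℝ) : ℂ) *
        cexp (I * ((-(δ / 2) * Real.log n - δ / 2 * Real.log m : ℝ) : ℂ)) := by
    rw [Complex.exp_add, ← exp_half_log hm hn, Complex.ofReal_exp]
    congr 2
    push_cast
    ring
  have h2 : cexp ((((Real.log n - Real.log m) * t0 - psi T δ m n : ℝ) : ℂ) * I) =
      cexp (-((δ * Real.log T / 2 : ℝ) : ℂ) * I) *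
        cexp (I * ((-(δ / 2) * Real.log n - δ / 2 * Real.log m : ℝ) : ℂ)) *
          cexp (I * ((Real.log n - Real.log m : ℝ) : ℂ) * t0) := by
    rw [← Complex.exp_add, ← Complex.exp_add]
    congr 1
    unfold psi
    push_cast
    ring
  rw [h2]
  unfold KK mu
  rw [h1]
  push_cast
  ring

/-- the coefficients of the sum -/
noncomputable def cc (D : ℝ) (m n : ℕ) : ℝ :=
  mu m * mu n / Real.sqrt (m * n) * (D * Real.sqrt (2 * Real.pi)) *
      Real.exp (-(D ^ 2 * (Real.log n - Real.log m) ^ 2 / 2))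

theorem cc_symm (D : ℝ) (m n : ℕ) : cc D m n = cc D n m := by
  unfold cc
  rw [mul_comm (mu m), mul_comm (m : ℝ),
    show (Real.log n - Real.log m) ^ 2 = (Real.log m - Real.log n) ^ 2 by ring]

theorem psi_symm (T δ : ℝ) (m n : ℕ) : psi T δ m n = psi T δ n m := by
  unfold psi
  ring

theorem im_formula (T D δ t0 : ℝ) (N : ℕ) (hD : 0 < D) :
    (cexp (-((δ * Real.log T / 2 : ℝ) : ℂ) * I) * JJ t0 D δ N).im =
      ∑ m ∈ Finset.Icc 1 N, ∑ n ∈ Finset.Icc 1 N,
        -(cc D m n * Real.sin (psi T δ m n)) * Real.cos ((Real.log n - Real.log m) * t0) := by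
  have h1 : (cexp (-((δ * Real.log T / 2 : ℝ) : ℂ) * I) * JJ t0 D δ N).im =
      ∑ m ∈ Finset.Icc 1 N, ∑ n ∈ Finset.Icc 1 N,
        cc D m n * Real.sin ((Real.log n - Real.log m) * t0 - psi T δ m n) := by
    rw [JJ_formula N D δ t0 hD, Finset.mul_sum, Complex.im_sum]
    refine Finset.sum_congr rfl fun m hm => ?_
    rw [Finset.mul_sum, Complex.im_sum]
    refine Finset.sum_congr rfl fun n hn => ?_
    rw [term_eq T D δ t0 (Finset.mem_Icc.1 hm).1 (Finset.mem_Icc.1 hn).1, Complex.im_ofReal_mul,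
      Complex.exp_ofReal_mul_I_im]
    rfl
  set S : ℝ := ∑ m ∈ Finset.Icc 1 N, ∑ n ∈ Finset.Icc 1 N,
        cc D m n * (Real.sin ((Real.log n - Real.log m) * t0) * Real.cos (psi T δ m n)) with hS
  have h2 : S = -S := by
    conv_lhs => rw [hS, Finset.sum_comm]
    rw [hS, ← Finset.sum_neg_distrib]
    refine Finset.sum_congr rfl fun m _ => ?_
    rw [← Finset.sum_neg_distrib]
    refine Finset.sum_congr rfl fun n _ => ?_
    rw [cc_symm D n m, psi_symm T δ n m,
      show (Real.log m - Real.log n) * t0 = -((Real.log n - Real.log m) * t0) by ring, Real.sin_neg]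
    ring
  have h3 : S = 0 := by linarith
  rw [h1, ← sub_zero (∑ m ∈ Finset.Icc 1 N, ∑ n ∈ Finset.Icc 1 N,
        cc D m n * Real.sin ((Real.log n - Real.log m) * t0 - psi T δ m n)), ← h3, hS,
    ← Finset.sum_sub_distrib]
  refine Finset.sum_congr rfl fun m _ => ?_
  rw [← Finset.sum_sub_distrib]
  refine Finset.sum_congr rfl fun n _ => ?_
  rw [Real.sin_sub]
  ring

theorem AV_cos_sum (T : ℝ) (s : Finset ℕ) (k ξ : ℕ → ℕ → ℝ) :
    AV T (fun t0 => ∑ m ∈ s, ∑ n ∈ s, k m n * Real.cos (ξ m n * t0)) =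
      ∑ m ∈ s, ∑ n ∈ s, k m n *
        ∫ x in (0 : ℝ)..T / 4, ∫ y in (0 : ℝ)..T / 4, Real.cos (ξ m n * (5 / 4 * T + x + y)) := by
  unfold AV
  have h1 : ∀ x : ℝ, ∫ y in (0 : ℝ)..T / 4,
      ∑ m ∈ s, ∑ n ∈ s, k m n * Real.cos (ξ m n * (5 / 4 * T + x + y)) =
      ∑ m ∈ s, ∑ n ∈ s, k m n *
        ∫ y in (0 : ℝ)..T / 4, Real.cos (ξ m n * (5 / 4 * T + x + y)) := by
    intro x
    rw [intervalIntegral.integral_finsetSum fun m _ => Continuous.intervalIntegrable (by fun_prop) _ _]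
    refine Finset.sum_congr rfl fun m _ => ?_
    rw [intervalIntegral.integral_finsetSum fun n _ => Continuous.intervalIntegrable (by fun_prop) _ _]
    refine Finset.sum_congr rfl fun n _ => ?_
    rw [intervalIntegral.integral_const_mul]
  have hc : ∀ m n, Continuous fun x : ℝ =>
      ∫ y in (0 : ℝ)..T / 4, Real.cos (ξ m n * (5 / 4 * T + x + y)) := by
    intro m n
    exact intervalIntegral.continuous_parametric_intervalIntegral_of_continuous'
      (f := fun x y => Real.cos (ξ m n * (5 / 4 * T + x + y)))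
      (by unfold Function.uncurry; fun_prop) _ _
  have hk : ∀ m n, Continuous fun x : ℝ => k m n *
      ∫ y in (0 : ℝ)..T / 4, Real.cos (ξ m n * (5 / 4 * T + x + y)) := fun m n =>
    continuous_const.mul (hc m n)
  simp_rw [h1]
  rw [intervalIntegral.integral_finsetSum fun m _ => Continuous.intervalIntegrable
    (continuous_finsetSum _ fun n _ => hk m n) _ _]
  refine Finset.sum_congr rfl fun m _ => ?_
  rw [intervalIntegral.integral_finsetSum fun n _ => Continuous.intervalIntegrable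
    (hk m n) _ _]
  refine Finset.sum_congr rfl fun n _ => ?_
  rw [intervalIntegral.integral_const_mul]

/-- (AVJ) -/
theorem p_AVJ : S_AVJ := by
  intro T D δ N _ hD
  simp_rw [im_formula T D δ _ N hD]
  rw [AV_cos_sum T (Finset.Icc 1 N) (fun m n => -(cc D m n * Real.sin (psi T δ m n)))
    (fun m n => Real.log n - Real.log m), Finset.mul_sum]
  refine Finset.sum_congr rfl fun m _ => ?_
  rw [Finset.mul_sum]
  refine Finset.sum_congr rfl fun n _ => ?_
  unfold TT WW cc psi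
  ring

end Pool.Agent.N806.HG
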