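import Pool.Agent.N806.HG.Stm
import Pool.Agent.H382R2.MainNeg

/-!
Project HG (helper806): the average of the mean square (helper441).
-/

set_option autoImplicit false
set_option linter.unusedVariables false

open Complex Filter Topology Set MeasureTheory

namespace Pool.Agent.N806.HG

namespace AVaux

open SG SG.MVaux SG.MNaux

/-- the coefficient of the cosine in the mean square -/
noncomputable def cf (D : ℝ) (m n : ℕ) : ℝ :=
  D * Real.sqrt (2 * Real.pi) * (mu m * mu n * Real.exp (-(Real.log m + Real.log n) / 2)) *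
    Real.exp (-(D ^ 2 * (Real.log n - Real.log m) ^ 2 / 2))

theorem term_eq (D a t0 : ℝ) (m n : ℕ) :
    KK a a m n * (((D * Real.sqrt (2 * Real.pi) : ℝ) : ℂ) *
        (cexp (I * ((Real.log n - Real.log m : ℝ) : ℂ) * t0) *
          ((Real.exp (-(D ^ 2 * (Real.log n - Real.log m) ^ 2 / 2)) : ℝ) : ℂ))) =
      ((cf D m n : ℝ) : ℂ) * cexp ((((Real.log n - Real.log m) * (t0 + a) : ℝ) : ℂ) * I) := by
  unfold KK cf mu
  have e : cexp (-((Real.log m + Real.log n : ℝ) : ℂ) / 2 +
      I * ((a * Real.log n - a * Real.log m : ℝ) : ℂ)) *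
      cexp (I * ((Real.log n - Real.log m : ℝ) : ℂ) * t0) =
      ((Real.exp (-(Real.log m + Real.log n) / 2) : ℝ) : ℂ) *
        cexp ((((Real.log n - Real.log m) * (t0 + a) : ℝ) : ℂ) * I) := by
    rw [Complex.ofReal_exp, ← Complex.exp_add, ← Complex.exp_add]
    congr 1
    push_cast
    ring
  have e2 : ∀ A B C E F G : ℂ, A * B * C * (E * (F * G)) = (C * F) * (A * B * E * G) := by
    intros; ring
  rw [e2, e]
  push_cast
  ring

theorem MS_eq (t0 D a : ℝ) (N : ℕ) (hD : 0 < D) :
    MS t0 D a N = ∑ m ∈ Finset.Icc 1 N, ∑ n ∈ Finset.Icc 1 N,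
      cf D m n * Real.cos ((Real.log n - Real.log m) * (t0 + a)) := by
  have hkey : ∀ t : ℝ, ((Real.exp (-(t - t0) ^ 2 / (2 * D ^ 2)) *
        ‖AA N (1 / 2 + I * (t + a))‖ ^ 2 : ℝ) : ℂ) =
      (Real.exp (-(t - t0) ^ 2 / (2 * D ^ 2)) : ℂ) *
        AA N (1 / 2 + I * (t + a)) * AA N (1 / 2 - I * (t + a)) := by
    intro t
    have h1 := AA_conj N (t + a)
    push_cast at h1
    rw [h1, mul_assoc, Complex.mul_conj']
    push_cast
    ring
  have e1 : ((MS t0 D a N : ℝ) : ℂ) = ∫ t : ℝ, (Real.exp (-(t - t0) ^ 2 / (2 * D ^ 2)) : ℂ) *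
        AA N (1 / 2 + I * (t + a)) * AA N (1 / 2 - I * (t + a)) := by
    unfold MS
    rw [← integral_complex_ofReal]
    congr 1
    funext t
    exact hkey t
  have e2 : (∫ t : ℝ, (Real.exp (-(t - t0) ^ 2 / (2 * D ^ 2)) : ℂ) *
        AA N (1 / 2 + I * (t + a)) * AA N (1 / 2 - I * (t + a))) =
      ∑ m ∈ Finset.Icc 1 N, ∑ n ∈ Finset.Icc 1 N, ((cf D m n : ℝ) : ℂ) *
        cexp ((((Real.log n - Real.log m) * (t0 + a) : ℝ) : ℂ) * I) := by
    simp_rw [expand']
    rw [integral_finsetSum _ fun m _ => integrable_finsetSum _ fun n _ =>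
      (ek_int D t0 _ hD).const_mul _]
    refine Finset.sum_congr rfl fun m _ => ?_
    rw [integral_finsetSum _ fun n _ => (ek_int D t0 _ hD).const_mul _]
    refine Finset.sum_congr rfl fun n _ => ?_
    rw [integral_const_mul, ek_val D t0 _ hD, term_eq]
  have e3 := congrArg Complex.re (e1.trans e2)
  rw [Complex.ofReal_re, Complex.re_sum] at e3
  rw [e3]
  refine Finset.sum_congr rfl fun m _ => ?_
  rw [Complex.re_sum]
  refine Finset.sum_congr rfl fun n _ => ?_
  rw [Complex.re_ofReal_mul, Complex.exp_ofReal_mul_I_re]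

/-- the double average of a cosine -/
noncomputable def W (L ξ b : ℝ) : ℝ :=
  ∫ x in (0 : ℝ)..L, ∫ y in (0 : ℝ)..L, Real.cos (ξ * (b + x + y))

theorem W_le (L ξ b : ℝ) (hL : 0 ≤ L) : |W L ξ b| ≤ L ^ 2 := by
  unfold W
  rw [← Real.norm_eq_abs]
  have h1 : ∀ x ∈ Set.uIoc (0 : ℝ) L, ‖∫ y in (0 : ℝ)..L, Real.cos (ξ * (b + x + y))‖ ≤ L := by
    intro x _
    have := intervalIntegral.norm_integral_le_of_norm_le_const
      (f := fun y => Real.cos (ξ * (b + x + y))) (a := 0) (b := L) (C := 1)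
      (fun y _ => Real.abs_cos_le_one _)
    rwa [sub_zero, abs_of_nonneg hL, one_mul] at this
  have := intervalIntegral.norm_integral_le_of_norm_le_const h1
  rw [sub_zero, abs_of_nonneg hL] at this
  rw [sq]
  exact this

theorem W_le' (L ξ b : ℝ) (hξ : ξ ≠ 0) : |W L ξ b| ≤ 4 / ξ ^ 2 := by
  have h1 : ∀ x : ℝ, ∫ y in (0 : ℝ)..L, Real.cos (ξ * (b + x + y)) =
      (Real.sin (ξ * (b + x + L)) - Real.sin (ξ * (b + x))) / ξ := by
    intro x
    have hd : ∀ y ∈ Set.uIcc (0 : ℝ) L, HasDerivAt (fun y => Real.sin (ξ * (b + x + y)) / ξ)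
        (Real.cos (ξ * (b + x + y))) y := by
      intro y _
      have h := (((hasDerivAt_id y).const_add (b + x)).const_mul ξ).sin.div_const ξ
      simp only [id, mul_one] at h
      rwa [mul_div_assoc, div_self hξ, mul_one] at h
    rw [intervalIntegral.integral_eq_sub_of_hasDerivAt hd
      ((by fun_prop : Continuous fun y => Real.cos (ξ * (b + x + y))).intervalIntegrable _ _)]
    simp only [add_zero]
    ring
  have h2 : W L ξ b = (-Real.cos (ξ * (b + L + L)) + Real.cos (ξ * (b + L))) / ξ ^ 2 -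
      (-Real.cos (ξ * (b + 0 + L)) + Real.cos (ξ * (b + 0))) / ξ ^ 2 := by
    unfold W
    simp_rw [h1]
    have hd : ∀ x ∈ Set.uIcc (0 : ℝ) L, HasDerivAt
        (fun x => (-Real.cos (ξ * (b + x + L)) + Real.cos (ξ * (b + x))) / ξ ^ 2)
        ((Real.sin (ξ * (b + x + L)) - Real.sin (ξ * (b + x))) / ξ) x := by
      intro x _
      have g1 := ((((hasDerivAt_id x).const_add b).add_const L).const_mul ξ).cos.neg
      have g2 := (((hasDerivAt_id x).const_add b).const_mul ξ).cos
      have h := (g1.add g2).div_const (ξ ^ 2)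
      simp only [id, mul_one] at h
      refine h.congr_deriv ?_
      rw [sq]
      field_simp
      ring
    rw [intervalIntegral.integral_eq_sub_of_hasDerivAt hd
      ((by fun_prop : Continuous fun x =>
        (Real.sin (ξ * (b + x + L)) - Real.sin (ξ * (b + x))) / ξ).intervalIntegrable _ _)]
  have hξ2 : 0 < ξ ^ 2 := by positivity
  rw [h2, ← sub_div, abs_div, abs_of_pos hξ2]
  apply div_le_div_of_nonneg_right _ hξ2.le
  have c1 := abs_le.mp (Real.abs_cos_le_one (ξ * (b + L + L)))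
  have c2 := abs_le.mp (Real.abs_cos_le_one (ξ * (b + L)))
  have c3 := abs_le.mp (Real.abs_cos_le_one (ξ * (b + 0 + L)))
  have c4 := abs_le.mp (Real.abs_cos_le_one (ξ * (b + 0)))
  rw [abs_le]
  constructor <;> linarith [c1.1, c1.2, c2.1, c2.2, c3.1, c3.2, c4.1, c4.2]

theorem AV_MS (T D a : ℝ) (N : ℕ) (hD : 0 < D) :
    AV T (fun t0 => MS t0 D a N) = ∑ m ∈ Finset.Icc 1 N, ∑ n ∈ Finset.Icc 1 N,
      cf D m n * W (T / 4) (Real.log n - Real.log m) (5 / 4 * T + a) := by
  unfold AV
  simp only [MS_eq _ D a N hD]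
  have hc : ∀ (m n : ℕ) (x y : ℝ), cf D m n * Real.cos ((Real.log n - Real.log m) *
      (5 / 4 * T + x + y + a)) = cf D m n * Real.cos ((Real.log n - Real.log m) *
      (5 / 4 * T + a + x + y)) := by
    intro m n x y
    congr 2
    ring
  simp only [hc]
  have hin : ∀ x : ℝ, (∫ y in (0 : ℝ)..T / 4, ∑ m ∈ Finset.Icc 1 N, ∑ n ∈ Finset.Icc 1 N,
      cf D m n * Real.cos ((Real.log n - Real.log m) * (5 / 4 * T + a + x + y))) =
      ∑ m ∈ Finset.Icc 1 N, ∑ n ∈ Finset.Icc 1 N, cf D m n *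
        ∫ y in (0 : ℝ)..T / 4, Real.cos ((Real.log n - Real.log m) * (5 / 4 * T + a + x + y)) := by
    intro x
    rw [intervalIntegral.integral_finsetSum (fun m _ =>
      (by fun_prop : Continuous fun y => ∑ n ∈ Finset.Icc 1 N, cf D m n *
        Real.cos ((Real.log n - Real.log m) * (5 / 4 * T + a + x + y))).intervalIntegrable _ _)]
    refine Finset.sum_congr rfl fun m _ => ?_
    rw [intervalIntegral.integral_finsetSum (fun n _ =>
      (by fun_prop : Continuous fun y => cf D m n *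
        Real.cos ((Real.log n - Real.log m) * (5 / 4 * T + a + x + y))).intervalIntegrable _ _)]
    refine Finset.sum_congr rfl fun n _ => ?_
    rw [intervalIntegral.integral_const_mul]
  simp only [hin]
  have hcont : ∀ m n : ℕ, Continuous fun x : ℝ => ∫ y in (0 : ℝ)..T / 4,
      Real.cos ((Real.log n - Real.log m) * (5 / 4 * T + a + x + y)) := by
    intro m n
    apply intervalIntegral.continuous_parametric_intervalIntegral_of_continuous'
    fun_prop
  rw [intervalIntegral.integral_finsetSum (fun m _ =>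
    (continuous_finsetSum _ fun n _ => (hcont m n).const_mul _).intervalIntegrable _ _)]
  refine Finset.sum_congr rfl fun m _ => ?_
  rw [intervalIntegral.integral_finsetSum (fun n _ =>
    ((hcont m n).const_mul _).intervalIntegrable _ _)]
  refine Finset.sum_congr rfl fun n _ => ?_
  rw [intervalIntegral.integral_const_mul]
  rfl

theorem mu_abs (n : ℕ) : |mu n| ≤ 1 := abs_moebius_real_le n

theorem exp_sqrt (m n : ℕ) (hm : 1 ≤ m) (hn : 1 ≤ n) :
    Real.exp (-(Real.log m + Real.log n) / 2) = 1 / Real.sqrt (m * n) := by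
  have hm0 : (0 : ℝ) < m := by exact_mod_cast hm
  have hn0 : (0 : ℝ) < n := by exact_mod_cast hn
  rw [Real.sqrt_eq_rpow, Real.rpow_def_of_pos (by positivity), Real.log_mul hm0.ne' hn0.ne',
    one_div, ← Real.exp_neg]
  congr 1
  ring

theorem cf_abs (D : ℝ) (hD : 0 < D) (m n : ℕ) (hm : 1 ≤ m) (hn : 1 ≤ n) :
    |cf D m n| ≤ D * Real.sqrt (2 * Real.pi) * (1 / Real.sqrt (m * n)) := by
  unfold cf
  rw [exp_sqrt m n hm hn, abs_mul, abs_mul, abs_of_pos (Real.exp_pos _),
    abs_of_nonneg (by positivity : 0 ≤ D * Real.sqrt (2 * Real.pi)), abs_mul _ (1 / _),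
    abs_of_nonneg (by positivity : 0 ≤ 1 / Real.sqrt (m * n : ℝ))]
  have h1 : |mu m| * |mu n| ≤ 1 := mul_le_one₀ (mu_abs m) (abs_nonneg _) (mu_abs n)
  have h2 : Real.exp (-(D ^ 2 * (Real.log n - Real.log m) ^ 2 / 2)) ≤ 1 := by
    rw [Real.exp_le_one_iff]
    have : 0 ≤ D ^ 2 * (Real.log n - Real.log m) ^ 2 / 2 := by positivity
    linarith
  have h3 : 0 ≤ 1 / Real.sqrt (m * n : ℝ) := by positivity
  have h0 : 0 ≤ D * Real.sqrt (2 * Real.pi) := by positivity
  have h4 : |mu m * mu n| * (1 / Real.sqrt (m * n : ℝ)) ≤ 1 / Real.sqrt (m * n : ℝ) := by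
    rw [abs_mul]
    nlinarith
  calc D * Real.sqrt (2 * Real.pi) * (|mu m * mu n| * (1 / Real.sqrt (m * n : ℝ))) *
        Real.exp (-(D ^ 2 * (Real.log n - Real.log m) ^ 2 / 2))
      ≤ D * Real.sqrt (2 * Real.pi) * (1 / Real.sqrt (m * n : ℝ)) * 1 := by
        apply mul_le_mul _ h2 (Real.exp_pos _).le (by positivity)
        exact mul_le_mul_of_nonneg_left h4 h0
    _ = _ := by ring

end AVaux

open AVaux SG in
/-- (AVMS) the average of the mean square -/
theorem p_AVMS (hp : S_PAIR) : S_AVMS := by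
  obtain ⟨B, hB, hP, -⟩ := hp
  refine ⟨3 * (1 + 4 * B), by positivity, fun T D a N hT hD hN => ?_⟩
  rw [AV_MS T D a N hD]
  set S := D * Real.sqrt (2 * Real.pi) with hS
  have hS0 : 0 ≤ S := by positivity
  have hterm : ∀ m ∈ Finset.Icc 1 N, ∀ n ∈ Finset.Icc 1 N,
      cf D m n * W (T / 4) (Real.log n - Real.log m) (5 / 4 * T + a) ≤
      S * ((if m = n then T ^ 2 / 16 * (1 / (m : ℝ)) else 0) +
        4 * (if m = n then 0 else
          1 / (Real.sqrt (m * n) * (Real.log n - Real.log m) ^ 2))) := by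
    intro m hm n hn
    have hm1 := (Finset.mem_Icc.mp hm).1
    have hn1 := (Finset.mem_Icc.mp hn).1
    have hm0 : (0 : ℝ) < m := by exact_mod_cast hm1
    have hn0 : (0 : ℝ) < n := by exact_mod_cast hn1
    have h1 := cf_abs D hD m n hm1 hn1
    have h2 : cf D m n * W (T / 4) (Real.log n - Real.log m) (5 / 4 * T + a) ≤
        |cf D m n| * |W (T / 4) (Real.log n - Real.log m) (5 / 4 * T + a)| := by
      rw [← abs_mul]
      exact le_abs_self _
    refine h2.trans ?_
    have hq : 0 ≤ 1 / Real.sqrt (m * n : ℝ) := by positivity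
    by_cases hmn : m = n
    · subst hmn
      rw [if_pos rfl, if_pos rfl, mul_zero, add_zero]
      have h3 := W_le (T / 4) (Real.log m - Real.log m) (5 / 4 * T + a) (by linarith)
      have e : Real.sqrt (m * m : ℝ) = m := Real.sqrt_mul_self hm0.le
      rw [e] at h1
      calc _ ≤ S * (1 / (m : ℝ)) * (T / 4) ^ 2 :=
            mul_le_mul h1 h3 (abs_nonneg _) (by positivity)
        _ = _ := by ring
    · rw [if_neg hmn, if_neg hmn, zero_add]
      have hξ : Real.log n - Real.log m ≠ 0 := by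
        intro h0
        have : Real.log (n : ℝ) = Real.log m := by linarith
        have := Real.log_injOn_pos hn0 hm0 this
        exact hmn (by exact_mod_cast this.symm)
      have h3 := W_le' (T / 4) _ (5 / 4 * T + a) hξ
      calc _ ≤ S * (1 / Real.sqrt (m * n : ℝ)) * (4 / (Real.log n - Real.log m) ^ 2) :=
            mul_le_mul h1 h3 (abs_nonneg _) (by positivity)
        _ = _ := by
            field_simp
  have hsum : ∑ m ∈ Finset.Icc 1 N, ∑ n ∈ Finset.Icc 1 N,
      cf D m n * W (T / 4) (Real.log n - Real.log m) (5 / 4 * T + a) ≤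
      S * (T ^ 2 / 16 * (1 + Real.log N) + 4 * (B * (N : ℝ) ^ 2)) := by
    calc _ ≤ ∑ m ∈ Finset.Icc 1 N, ∑ n ∈ Finset.Icc 1 N,
          S * ((if m = n then T ^ 2 / 16 * (1 / (m : ℝ)) else 0) +
        4 * (if m = n then 0 else
          1 / (Real.sqrt (m * n) * (Real.log n - Real.log m) ^ 2))) :=
          Finset.sum_le_sum fun m hm => Finset.sum_le_sum fun n hn => hterm m hm n hn
      _ = S * (T ^ 2 / 16 * (∑ m ∈ Finset.Icc 1 N, 1 / (m : ℝ)) +
          4 * ∑ m ∈ Finset.Icc 1 N, ∑ n ∈ Finset.Icc 1 N, (if m = n then 0 else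
          1 / (Real.sqrt (m * n) * (Real.log n - Real.log m) ^ 2))) := by
          rw [mul_add, Finset.mul_sum, Finset.mul_sum, Finset.mul_sum, Finset.mul_sum,
            ← Finset.sum_add_distrib]
          refine Finset.sum_congr rfl fun m hm => ?_
          rw [Finset.mul_sum, Finset.mul_sum]
          have : S * (T ^ 2 / 16 * (1 / (m : ℝ))) = ∑ n ∈ Finset.Icc 1 N,
              (if m = n then S * (T ^ 2 / 16 * (1 / (m : ℝ))) else 0) := by
            rw [Finset.sum_ite_eq, if_pos hm]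
          rw [this, ← Finset.sum_add_distrib]
          refine Finset.sum_congr rfl fun n _ => ?_
          split_ifs <;> ring
      _ ≤ _ := by
          have h5 : ∑ m ∈ Finset.Icc 1 N, 1 / (m : ℝ) ≤ 1 + Real.log N := by
            have h := harmonic_le_one_add_log N
            rw [harmonic_eq_sum_Icc] at h
            push_cast at h
            simpa only [one_div] using h
          apply mul_le_mul_of_nonneg_left _ hS0
          have h6 := mul_le_mul_of_nonneg_left h5 (by positivity : 0 ≤ T ^ 2 / 16)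
          have h7 := hP N
          linarith
  refine hsum.trans ?_
  have hs : Real.sqrt (2 * Real.pi) ≤ 3 := by
    rw [Real.sqrt_le_left (by norm_num)]
    have := Real.pi_lt_d2
    norm_num at this ⊢
    linarith
  have hlog : 0 ≤ Real.log (N : ℝ) := Real.log_natCast_nonneg N
  have hx : 0 ≤ T ^ 2 * (1 + Real.log N) := by positivity
  have hy : 0 ≤ (N : ℝ) ^ 2 := by positivity
  have h8 : S ≤ D * 3 := mul_le_mul_of_nonneg_left hs hD.le
  have h9 : 0 ≤ T ^ 2 / 16 * (1 + Real.log N) + 4 * (B * (N : ℝ) ^ 2) := by positivity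
  calc S * (T ^ 2 / 16 * (1 + Real.log N) + 4 * (B * (N : ℝ) ^ 2))
      ≤ D * 3 * (T ^ 2 / 16 * (1 + Real.log N) + 4 * (B * (N : ℝ) ^ 2)) :=
        mul_le_mul_of_nonneg_right h8 h9
    _ ≤ D * 3 * ((1 + 4 * B) * (T ^ 2 * (1 + Real.log N) + (N : ℝ) ^ 2)) := by
        apply mul_le_mul_of_nonneg_left _ (by positivity)
        nlinarith [mul_nonneg hB.le hx, mul_nonneg hB.le hy]
    _ = _ := by ring

end Pool.Agent.N806.HG
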