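import Pool.Agent.N806.HG.Main
import Pool.Agent.H382R2.SqFree

/-!
Project HG (helper806): all scales, `π / log T (1 + C / log T)`.
-/

set_option autoImplicit false

open Filter Topology Set

namespace Pool.Agent.N806.HG

open SG

/-- the diagonal for distances a little above half the mean spacing -/
theorem diag2 : ∃ c B : ℝ, 0 < c ∧ 0 < B ∧ ∀ C : ℝ, 0 ≤ C → ∃ T0 : ℝ, 100 ≤ T0 ∧
    ∀ T : ℝ, T0 ≤ T →
    ∑ n ∈ Finset.Icc 1 (NK 0 T), mu n ^ 2 / n *
      Real.sin (dc (-C) T * Real.log T / 2 + dc (-C) T * Real.log n) ≤ -(c * C) + B := by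
  obtain ⟨Cs, C1, hCs, hC1, hC⟩ := sqfree_sum
  have hpi := Real.pi_gt_three
  have hpi0 := Real.pi_pos
  refine ⟨Cs / (2 * Real.pi), Cs + C1 * (1 + 2 * Real.pi), by positivity, by positivity, ?_⟩
  intro C hC0
  refine ⟨Real.exp (2 * C + 10) + 100, by linarith [Real.exp_pos (2 * C + 10)], fun T hT => ?_⟩
  have hT100 : 100 ≤ T := by linarith [Real.exp_pos (2 * C + 10)]
  have hT0 : 0 < T := by linarith
  obtain ⟨L, hL⟩ : ∃ L : ℝ, L = Real.log T := ⟨_, rfl⟩
  have hL1 : 2 * C + 10 ≤ L := by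
    rw [hL, Real.le_log_iff_exp_le hT0]
    linarith
  have hL0 : 0 < L := by linarith
  obtain ⟨δ, hδ⟩ : ∃ δ : ℝ, δ = dc (-C) T := ⟨_, rfl⟩
  obtain ⟨v, hv⟩ : ∃ v : ℝ, v = Real.pi * C / L := ⟨_, rfl⟩
  have hδL : δ * L = Real.pi + v := by
    rw [hδ, dc, ← hL, hv]
    field_simp
    ring
  have hv1 : v ≤ Real.pi / 2 := by
    rw [hv, div_le_iff₀ hL0]
    nlinarith
  have hv0 : 0 ≤ v := by rw [hv]; positivity
  have hδ0 : 0 < δ := by
    by_contra h
    push Not at h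
    nlinarith
  -- the length
  obtain ⟨N, hN⟩ : ∃ N : ℕ, N = NK 0 T := ⟨_, rfl⟩
  have hN1 : T / 2 ≤ N := by
    have h1 := Nat.lt_floor_add_one (Real.exp 0 * T)
    rw [hN, NK]
    rw [Real.exp_zero, one_mul] at h1 ⊢
    linarith
  have hN2 : (N : ℝ) ≤ T := by
    rw [hN, NK, Real.exp_zero, one_mul]
    exact Nat.floor_le (by linarith)
  have hN0 : (1 : ℝ) ≤ N := by linarith
  have hN1' : 1 ≤ N := by exact_mod_cast hN0
  obtain ⟨η, hη⟩ : ∃ η : ℝ, η = L - Real.log N := ⟨_, rfl⟩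
  have hη0 : 0 ≤ η := by
    have h1 : Real.log N ≤ Real.log T := Real.log_le_log (by linarith) hN2
    linarith
  have hη1 : η ≤ 1 := by
    have h1 : Real.log (T / 2) ≤ Real.log N := Real.log_le_log (by positivity) hN1
    rw [Real.log_div (by positivity) (by norm_num)] at h1
    have h2 := Real.log_two_lt_d9
    linarith
  have hlogN : Real.log N = L - η := by linarith
  have hosc := (abs_le.1 (osc_abel Cs C1 hC (δ * L / 2) δ hδ0 N hN1')).2
  have hcos1 : Real.cos (δ * L / 2) ≤ -(v / Real.pi) := by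
    have e1 : δ * L / 2 = v / 2 + Real.pi / 2 := by linarith
    rw [e1, Real.cos_add_pi_div_two]
    have h1 := Real.mul_le_sin (show 0 ≤ v / 2 by linarith) (by linarith)
    have e2 : 2 / Real.pi * (v / 2) = v / Real.pi := by ring
    rw [e2] at h1
    linarith
  obtain ⟨y, hy⟩ : ∃ y : ℝ, y = 3 / 2 * v - δ * η := ⟨_, rfl⟩
  have hcos2 : Real.cos (δ * L / 2 + δ * Real.log N) = Real.sin y := by
    have e1 : δ * L / 2 + δ * Real.log N = y + Real.pi / 2 + Real.pi := by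
      rw [hlogN, hy]
      linear_combination (3 / 2 : ℝ) * hδL
    rw [e1, Real.cos_add_pi, Real.cos_add_pi_div_two]
    ring
  have hδη : δ * η ≤ δ := by nlinarith
  have hδη0 : 0 ≤ δ * η := by positivity
  have hsin : -(Real.sin y) ≤ δ := by
    rcases le_or_gt 0 y with h0 | h0
    · have h1 : 0 ≤ Real.sin y := Real.sin_nonneg_of_nonneg_of_le_pi h0 (by
        rw [hy]; linarith)
      linarith
    · have h1 : Real.sin (-y) ≤ -y := Real.sin_le (by linarith)
      rw [Real.sin_neg] at h1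
      rw [hy] at h1 ⊢
      linarith
  have hδC : δ * C / (2 * Real.pi) ≤ v / Real.pi := by
    -- δ ≤ 2π/L
    have h1 : δ * L ≤ 2 * Real.pi := by linarith
    have h2 : δ * C / (2 * Real.pi) = (δ * L) * C / (2 * Real.pi * L) := by field_simp
    have h3 : v / Real.pi = (2 * Real.pi) * C / (2 * Real.pi * L) := by rw [hv]; field_simp
    rw [h2, h3]
    apply div_le_div_of_nonneg_right _ (by positivity)
    exact mul_le_mul_of_nonneg_right h1 hC0
  have hmain : Cs * (Real.cos (δ * L / 2) - Real.cos (δ * L / 2 + δ * Real.log N)) / δ ≤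
      Cs * (-(C / (2 * Real.pi)) + 1) := by
    rw [div_le_iff₀ hδ0, hcos2, mul_assoc]
    refine mul_le_mul_of_nonneg_left ?_ hCs.le
    have e : (-(C / (2 * Real.pi)) + 1) * δ = -(δ * C / (2 * Real.pi)) + δ := by ring
    rw [e]
    linarith
  have herr : C1 * (1 + δ * Real.log N) ≤ C1 * (1 + 2 * Real.pi) := by
    refine mul_le_mul_of_nonneg_left ?_ hC1.le
    have h1 : δ * Real.log N ≤ δ * L := by
      refine mul_le_mul_of_nonneg_left ?_ hδ0.le
      rw [hlogN]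
      linarith
    linarith
  have hfin : ∑ n ∈ Finset.Icc 1 (NK 0 T), mu n ^ 2 / n *
      Real.sin (dc (-C) T * Real.log T / 2 + dc (-C) T * Real.log n) ≤
      Cs * (-(C / (2 * Real.pi)) + 1) + C1 * (1 + 2 * Real.pi) := by
    rw [← hN, ← hδ, ← hL]
    unfold mu
    linarith
  refine hfin.trans (le_of_eq ?_)
  ring

/-- no separation by `(π / log T)(1 + C / log T)` at any large scale -/
theorem no_sep_all (hID : S_ID) (hNEAR : S_NEAR) (hLINE : S_LINE) (hAVJ : S_AVJ) (hCONT : S_CONT)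
    (hAVMS : S_AVMS) (hWWB : S_WWB) (hPAIR : S_PAIR) :
    ∃ C T0 : ℝ, 0 < C ∧ ∀ T : ℝ, T0 ≤ T → ¬ Sep (dc (-C) T) T := by
  obtain ⟨B, hB, hA⟩ := averaged hID hNEAR hLINE hAVJ hCONT hAVMS
  obtain ⟨B3, hB3, -, hP⟩ := hPAIR
  obtain ⟨c, B4, hc, hB4, hDi⟩ := diag2
  set C : ℝ := (16 * (B + 8 * B3 + 1) + B4) / c with hC
  have hC0 : 0 < C := by positivity
  have hcC : c * C = 16 * (B + 8 * B3 + 1) + B4 := by
    rw [hC]; field_simp
  obtain ⟨T1, hT1, h1⟩ := hA 0 le_rfl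
  obtain ⟨T2, hT2, h2⟩ := hP 0 le_rfl 1 le_rfl
  obtain ⟨T3, hT3, h3⟩ := hDi C hC0.le
  have ev : ∀ᶠ T : ℝ in atTop, 4 * C + 4 ≤ Real.log T :=
    Real.tendsto_log_atTop.eventually_ge_atTop _
  obtain ⟨T6, hT6⟩ := eventually_atTop.mp ev
  refine ⟨C, max (max T1 T2) (max T3 T6), hC0, ?_⟩
  intro T hT hS
  have g1 : T1 ≤ T := ((le_max_left _ _).trans (le_max_left _ _)).trans hT
  have g2 : T2 ≤ T := ((le_max_right _ _).trans (le_max_left _ _)).trans hT
  have g3 : T3 ≤ T := ((le_max_left _ _).trans (le_max_right _ _)).trans hT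
  have g6 : T6 ≤ T := ((le_max_right _ _).trans (le_max_right _ _)).trans hT
  have hT100 : 100 ≤ T := hT1.trans g1
  have hlogC := hT6 T g6
  have hlog : 0 < Real.log T := by linarith
  have hpi := Real.pi_gt_three
  have hpi4 := Real.pi_lt_d2
  have hδL : dc (-C) T * Real.log T = Real.pi * (1 + C / Real.log T) := by
    unfold dc
    field_simp
    ring
  have hCL : C / Real.log T ≤ 1 / 4 := by
    rw [div_le_iff₀ hlog]
    linarith
  have hCL0 : 0 ≤ C / Real.log T := by positivity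
  have hδ2 : 2 ≤ dc (-C) T * Real.log T := by
    rw [hδL]; nlinarith
  have hδ4 : dc (-C) T * Real.log T ≤ 4 := by
    rw [hδL]
    norm_num at hpi4
    nlinarith
  have hδ0 : 0 < dc (-C) T := by
    by_contra h
    push Not at h
    nlinarith
  set N := NK 0 T with hN
  have hNle : (N : ℝ) ≤ Real.exp 0 * T := Nat.floor_le (by positivity)
  have hN1 : 1 ≤ N := by
    apply Nat.le_floor
    rw [Nat.cast_one, Real.exp_zero, one_mul]
    linarith
  have hNT : (N : ℝ) ≤ T := by rwa [Real.exp_zero, one_mul] at hNle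
  have k1 := h1 T g1 (dc (-C) T) hδ2 hδ4 hS N hN1 hNle
  have k2 := h2 T g2 N hNle
  have k3 := h3 T g3
  rw [← hN] at k3
  have hD0 := DD_pos (T := T) (by linarith)
  have k5 := decomp hWWB T (DD T) (dc (-C) T) (by linarith) hD0.le (DD_le (by linarith)) N 1
  have k6 : ∑ m ∈ Finset.Icc 1 N, ∑ n ∈ Finset.Icc 1 N,
        (if m ≠ n ∧ T < m ∧ T < n ∧ m ≤ n + 1 ∧ n ≤ m + 1 then
          TT T (DD T) (dc (-C) T) m n else 0) = 0 := by
    apply Finset.sum_eq_zero
    intro m hm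
    apply Finset.sum_eq_zero
    intro n hn
    rw [if_neg]
    rintro ⟨-, h, -⟩
    have : (m : ℝ) ≤ N := by exact_mod_cast (Finset.mem_Icc.mp hm).2
    linarith
  rw [k6, add_zero] at k5
  rw [mul_zero, Real.exp_zero, Nat.cast_one, div_one] at k2
  set S := ∑ m ∈ Finset.Icc 1 N, ∑ n ∈ Finset.Icc 1 N, TT T (DD T) (dc (-C) T) m n
  set S1 := ∑ n ∈ Finset.Icc 1 N, mu n ^ 2 / n *
        Real.sin (dc (-C) T * Real.log T / 2 + dc (-C) T * Real.log n)
  set S3 := ∑ m ∈ Finset.Icc 1 N, ∑ n ∈ Finset.Icc 1 N,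
        (if m = n ∨ (T < m ∧ T < n ∧ m ≤ n + 1 ∧ n ≤ m + 1) then 0 else
        1 / (Real.sqrt (m * n) * (Real.log n - Real.log m) ^ 2))
  have hT2 : 0 < T ^ 2 := by positivity
  have hS1 : T ^ 2 / 16 * S1 ≤ T ^ 2 / 16 * (-(c * C) + B4) :=
    mul_le_mul_of_nonneg_left k3 (by positivity)
  have hS1' : T ^ 2 / 16 * (-(c * C) + B4) = -(B + 8 * B3 + 1) * T ^ 2 := by
    rw [hcC]; ring
  nlinarith

end Pool.Agent.N806.HG
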