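import Pool.Agent.N806.HG.Stm
import Pool.Agent.H382R2.SqFree

/-!
Project HG (helper806): the diagonal sum.
-/

set_option autoImplicit false

namespace Pool.Agent.N806.HG

open SG

theorem p_DIAG : S_DIAG := by
  obtain ⟨Cs, C1, hCs, hC1, hC⟩ := sqfree_sum
  have hpi := Real.pi_gt_three
  have hpi0 := Real.pi_pos
  refine ⟨2 * Cs / Real.pi, 4 * Cs + C1 * (1 + 2 * Real.pi), by positivity, by positivity, ?_⟩
  intro C K hC0 hK0
  refine ⟨Real.exp (2 * C + 2 * K + 10) + 100, by linarith [Real.exp_pos (2 * C + 2 * K + 10)],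
    fun T hT => ?_⟩
  have hT100 : 100 ≤ T := by linarith [Real.exp_pos (2 * C + 2 * K + 10)]
  have hT0 : 0 < T := by linarith
  obtain ⟨L, hL⟩ : ∃ L : ℝ, L = Real.log T := ⟨_, rfl⟩
  have hL1 : 2 * C + 2 * K + 10 ≤ L := by
    rw [hL, Real.le_log_iff_exp_le hT0]
    linarith
  have hL0 : 0 < L := by linarith
  obtain ⟨δ, hδ⟩ : ∃ δ : ℝ, δ = dc C T := ⟨_, rfl⟩
  have hδL : δ * L = Real.pi - Real.pi * C / L := by
    rw [hδ, dc, ← hL]
    field_simp
  have hCL : Real.pi * C / L ≤ Real.pi / 2 := by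
    rw [div_le_iff₀ hL0]
    nlinarith
  have hCL0 : 0 ≤ Real.pi * C / L := by positivity
  have hδL1 : Real.pi / 2 ≤ δ * L := by linarith
  have hδL2 : δ * L ≤ Real.pi := by linarith
  have hδ0 : 0 < δ := by
    by_contra h
    push Not at h
    nlinarith
  -- the length
  obtain ⟨N, hN⟩ : ∃ N : ℕ, N = NK K T := ⟨_, rfl⟩
  have hexpK : 1 ≤ Real.exp K := Real.one_le_exp hK0
  have hET : 100 ≤ Real.exp K * T := by nlinarith
  have hN1 : Real.exp K * T / 2 ≤ N := by
    have h1 := Nat.lt_floor_add_one (Real.exp K * T)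
    rw [hN, NK]
    linarith
  have hN2 : (N : ℝ) ≤ Real.exp K * T := by
    rw [hN, NK]
    exact Nat.floor_le (by linarith)
  have hN0 : (1 : ℝ) ≤ N := by linarith
  have hN1' : 1 ≤ N := by exact_mod_cast hN0
  have hlET : Real.log (Real.exp K * T) = K + L := by
    rw [Real.log_mul (Real.exp_pos K).ne' hT0.ne', Real.log_exp, hL]
  obtain ⟨η, hη⟩ : ∃ η : ℝ, η = L + K - Real.log N := ⟨_, rfl⟩
  have hη0 : 0 ≤ η := by
    have h1 : Real.log N ≤ Real.log (Real.exp K * T) := Real.log_le_log (by linarith) hN2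
    rw [hlET] at h1
    linarith
  have hη1 : η ≤ 1 := by
    have h1 : Real.log (Real.exp K * T / 2) ≤ Real.log N :=
      Real.log_le_log (by positivity) hN1
    rw [Real.log_div (by positivity) (by norm_num), hlET] at h1
    have h2 := Real.log_two_lt_d9
    linarith
  have hlogN : Real.log N = L + K - η := by linarith
  have hosc := (abs_le.1 (osc_abel Cs C1 hC (δ * L / 2) δ hδ0 N hN1')).2
  -- the cosine at the beginning
  have hcos1 : Real.cos (δ * L / 2) ≤ δ * C := by
    have e1 : δ * L / 2 = Real.pi / 2 - Real.pi * C / L / 2 := by linarith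
    rw [e1, Real.cos_pi_div_two_sub]
    have h1 : Real.sin (Real.pi * C / L / 2) ≤ Real.pi * C / L / 2 := by
      exact Real.sin_le (by positivity)
    refine h1.trans ?_
    rw [div_div, div_le_iff₀ (by positivity)]
    nlinarith
  -- the cosine at the end
  obtain ⟨y, hy⟩ : ∃ y : ℝ, y = δ * (K - η) - 3 / 2 * (Real.pi * C / L) := ⟨_, rfl⟩
  have hcos2 : Real.cos (δ * L / 2 + δ * Real.log N) = Real.sin y := by
    have e1 : δ * L / 2 + δ * Real.log N = y + Real.pi / 2 + Real.pi := by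
      rw [hlogN, hy]
      linear_combination (3 / 2 : ℝ) * hδL
    rw [e1, Real.cos_add_pi, Real.cos_add_pi_div_two]
    ring
  have hyl : δ * (K - 1 - 3 * C) ≤ y := by
    rw [hy]
    have h1 : Real.pi * C / L ≤ 2 * (δ * C) := by
      rw [div_le_iff₀ hL0]
      nlinarith
    have h2 : δ * η ≤ δ * 1 := mul_le_mul_of_nonneg_left hη1 hδ0.le
    nlinarith
  have hyu : y ≤ Real.pi / 2 := by
    rw [hy]
    have h1 : δ * (K - η) ≤ δ * K := mul_le_mul_of_nonneg_left (by linarith) hδ0.le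
    have h2 : δ * K ≤ δ * (L / 2) := mul_le_mul_of_nonneg_left (by linarith) hδ0.le
    linarith
  have hsin : -(Real.sin y) ≤ δ * (-(2 / Real.pi * K) + (3 * C + 1)) := by
    have h2pi0 : 0 < 2 / Real.pi := by positivity
    have h2pi1 : 2 / Real.pi ≤ 1 := by
      rw [div_le_one hpi0]
      linarith
    rcases le_or_gt 0 y with h0 | h0
    · have h1 := Real.mul_le_sin h0 hyu
      have h2 : 2 / Real.pi * (δ * (K - 1 - 3 * C)) ≤ 2 / Real.pi * y :=
        mul_le_mul_of_nonneg_left hyl h2pi0.le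
      have h3 : 2 / Real.pi * (δ * (1 + 3 * C)) ≤ 1 * (δ * (1 + 3 * C)) :=
        mul_le_mul_of_nonneg_right h2pi1 (by positivity)
      nlinarith
    · have h1 : Real.sin (-y) ≤ -y := Real.sin_le (by linarith)
      rw [Real.sin_neg] at h1
      have h3 : 2 / Real.pi * (δ * K) ≤ 1 * (δ * K) :=
        mul_le_mul_of_nonneg_right h2pi1 (by positivity)
      nlinarith
  have hmain : Cs * (Real.cos (δ * L / 2) - Real.cos (δ * L / 2 + δ * Real.log N)) / δ ≤
      Cs * (C + (-(2 / Real.pi * K) + (3 * C + 1))) := by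
    rw [div_le_iff₀ hδ0, hcos2, mul_assoc]
    refine mul_le_mul_of_nonneg_left ?_ hCs.le
    nlinarith
  have herr : C1 * (1 + δ * Real.log N) ≤ C1 * (1 + 2 * Real.pi) := by
    refine mul_le_mul_of_nonneg_left ?_ hC1.le
    have h1 : δ * Real.log N ≤ δ * (2 * L) := by
      refine mul_le_mul_of_nonneg_left ?_ hδ0.le
      rw [hlogN]
      linarith
    nlinarith
  have hfin : ∑ n ∈ Finset.Icc 1 (NK K T), mu n ^ 2 / n *
      Real.sin (dc C T * Real.log T / 2 + dc C T * Real.log n) ≤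
      Cs * (C + (-(2 / Real.pi * K) + (3 * C + 1))) + C1 * (1 + 2 * Real.pi) := by
    rw [← hN, ← hδ, ← hL]
    unfold mu
    linarith
  refine hfin.trans ?_
  have h1 : 0 ≤ C1 * (1 + 2 * Real.pi) * C := by positivity
  have h2 : Cs * (C + (-(2 / Real.pi * K) + (3 * C + 1))) =
      -(2 * Cs / Real.pi * K) + Cs * (4 * C + 1) := by ring
  rw [h2]
  nlinarith

end Pool.Agent.N806.HG
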