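import Pool.Agent.N806.HG.Stm
import Pool.Agent.H382R2.Final0
import Pool.Agent.Y958.U.Diag

/-!
Project HG (helper806): from the failure of separation to consecutive ordinates.
-/

set_option autoImplicit false

open Filter Topology Set

namespace Pool.Agent.N806.HG

open SG (ord gap_of_not_sep ord_mono ord_tendsto Sep)
open Pool.Agent.Y958.U (LZ LZ_iff ls li ls_eq li_mem)

/-- small gaps at the scales outside the exceptional set -/
theorem gaps (E : Set ℕ)
    (hE : ∀ C : ℝ, 0 ≤ C → ∃ T0 : ℕ, ∀ T : ℕ, T0 ≤ T → T ∉ E → ¬ Sep (dc C T) T) (C : ℝ) :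
    ∃ T0 : ℕ, ∀ T : ℕ, T0 ≤ T → T ∉ E →
    ∃ n : ℕ, 1 ≤ n ∧ (T : ℝ) ≤ ord n ∧ ord n ≤ ord (n + 1) ∧ ord (n + 1) ≤ 2 * T ∧
      ord (n + 1) - ord n < Real.pi / Real.log T * (1 - C / Real.log T) := by
  set C' : ℝ := max C 0 + 1 with hC'
  have hC0 : 0 ≤ C' := by
    have := le_max_right C 0
    rw [hC']; linarith
  obtain ⟨T1, h1⟩ := hE C' hC0
  have ev : ∀ᶠ T : ℝ in atTop, C' + 1 ≤ Real.log T := Real.tendsto_log_atTop.eventually_ge_atTop _
  obtain ⟨T2, hT2⟩ := eventually_atTop.mp ev
  obtain ⟨T3, hT3⟩ := exists_nat_ge (max T2 3)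
  refine ⟨T1 + T3, fun T hT hTE => ?_⟩
  have hTr : (T3 : ℝ) ≤ T := by
    have : T3 ≤ T := by omega
    exact_mod_cast this
  have hT3' : (3 : ℝ) ≤ T := (le_max_right _ _).trans (hT3.trans hTr)
  have hlog := hT2 T ((le_max_left _ _).trans (hT3.trans hTr))
  have hlog0 : 0 < Real.log T := by linarith
  have hpi := Real.pi_pos
  have hδ : 0 ≤ dc C' T := by
    unfold dc
    have : C' / Real.log T ≤ 1 := by
      rw [div_le_one hlog0]; linarith
    have h2 : 0 ≤ 1 - C' / Real.log T := by linarith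
    positivity
  obtain ⟨n, hn, h4, h5, h6⟩ := gap_of_not_sep (by linarith) hδ (h1 T (by omega) hTE)
  refine ⟨n, hn, h4, ord_mono hn (by omega), h5, h6.trans_lt ?_⟩
  unfold dc
  apply mul_lt_mul_of_pos_left _ (by positivity)
  have : C / Real.log T < C' / Real.log T := by
    apply div_lt_div_of_pos_right _ hlog0
    have := le_max_left C 0
    rw [hC']; linarith
  linarith

/-- the complement of a set of logarithmic density zero is unbounded -/
lemma LZ_exists {E : Set ℕ} (hE : LZ E) (T0 : ℕ) : ∃ T : ℕ, T0 ≤ T ∧ T ∉ E := by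
  classical
  by_contra hcon
  push Not at hcon
  obtain ⟨X0, hX0⟩ := (LZ_iff E).mp hE (1 / 2) (by norm_num)
  have ev : ∀ᶠ X : ℕ in atTop, 2 * (2 + Real.log (T0 + 1)) ≤ Real.log X :=
    (Real.tendsto_log_atTop.comp tendsto_natCast_atTop_atTop).eventually_ge_atTop _
  obtain ⟨X1, hX1⟩ := eventually_atTop.mp ev
  set X := X0 + X1 + T0 + 1 with hX
  have a1 := hX0 X (by omega)
  have a2 := hX1 X (by omega)
  have hXT : T0 ≤ X := by omega
  have h1 : Real.log X ≤ (harmonic X : ℝ) := by
    have := Real.log_le_log (by exact_mod_cast (by omega : 0 < X)) (by linarith : (X : ℝ) ≤ (X : ℝ) + 1)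
    have h2 := log_add_one_le_harmonic X
    push_cast at h2
    linarith
  have h2 : (harmonic X : ℝ) ≤ ls E X + (1 + Real.log (T0 + 1)) := by
    have h3 : (harmonic X : ℝ) = ∑ n ∈ Finset.Icc 1 X, (1 : ℝ) / n := by
      rw [harmonic_eq_sum_Icc]
      push_cast
      apply Finset.sum_congr rfl
      intro n _
      rw [one_div]
    have h4 : ∑ n ∈ Finset.Icc 1 X, (1 : ℝ) / n ≤ ls E X + ∑ n ∈ Finset.Icc 1 T0, (1 : ℝ) / n := by
      have e1 : ∑ n ∈ Finset.Icc 1 T0, (1 : ℝ) / n = ∑ n ∈ Finset.Icc 1 X, if n ≤ T0 then (1 : ℝ) / n else 0 := by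
        rw [← Finset.sum_filter]
        apply Finset.sum_congr _ (fun _ _ => rfl)
        ext n
        simp only [Finset.mem_filter, Finset.mem_Icc]
        omega
      rw [e1, ls_eq, ← Finset.sum_add_distrib]
      apply Finset.sum_le_sum
      intro n hn
      by_cases hn0 : n ≤ T0
      · rw [if_pos hn0]
        have : 0 ≤ li E n := by
          unfold li
          split_ifs <;> positivity
        linarith
      · rw [if_neg hn0, li_mem (hcon n (by omega))]
        linarith
    have h5 : ∑ n ∈ Finset.Icc 1 T0, (1 : ℝ) / n ≤ 1 + Real.log (T0 + 1) := by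
      have h6 := harmonic_le_one_add_log T0
      rw [harmonic_eq_sum_Icc] at h6
      push_cast at h6
      have h7 : Real.log T0 ≤ Real.log (T0 + 1) := by
        rcases Nat.eq_zero_or_pos T0 with h | h
        · subst h; simp
        · exact Real.log_le_log (by exact_mod_cast h) (by linarith)
      have h8 : ∑ n ∈ Finset.Icc 1 T0, (1 : ℝ) / n = ∑ i ∈ Finset.Icc 1 T0, ((i : ℝ))⁻¹ :=
        Finset.sum_congr rfl fun n _ => one_div _
      rw [h8]
      linarith
    rw [h3]
    linarith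
  linarith

/-- infinitely many normalised gaps below `1/2 - C / log γ_n` -/
theorem freq {E : Set ℕ} (hLZ : LZ E)
    (hE : ∀ C : ℝ, 0 ≤ C → ∃ T0 : ℕ, ∀ T : ℕ, T0 ≤ T → T ∉ E → ¬ Sep (dc C T) T) (C : ℝ) :
    ∃ᶠ n : ℕ in atTop, (ord (n + 1) - ord n) * Real.log (ord n) / (2 * Real.pi) <
      1 / 2 - C / Real.log (ord n) := by
  rw [frequently_atTop]
  intro n0
  set C1 : ℝ := max C 0 with hC1
  have hC10 : 0 ≤ C1 := le_max_right _ _
  have hCC1 : C ≤ C1 := le_max_left _ _
  set C2 : ℝ := 2 * C1 + 1 with hC2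
  obtain ⟨T1, h1⟩ := gaps E hE C2
  obtain ⟨T2, hT2⟩ := exists_nat_ge (max (ord (max n0 1) + 1) (Real.exp (C2 + 1)))
  obtain ⟨T, hT, hTE⟩ := LZ_exists hLZ (T1 + T2)
  obtain ⟨n, hn, h3, h4, h5, h6⟩ := h1 T (by omega) hTE
  have hTr : (T2 : ℝ) ≤ T := by
    have : T2 ≤ T := by omega
    exact_mod_cast this
  have h7 : ord (max n0 1) + 1 ≤ T := (le_max_left _ _).trans (hT2.trans hTr)
  have h8 : Real.exp (C2 + 1) ≤ T := (le_max_right _ _).trans (hT2.trans hTr)
  have hTpos : (0 : ℝ) < T := (Real.exp_pos _).trans_le h8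
  have hlogT : C2 + 1 ≤ Real.log T := by rwa [Real.le_log_iff_exp_le hTpos]
  refine ⟨n, ?_, ?_⟩
  · by_contra hlt
    push Not at hlt
    have := ord_mono hn (by omega : n ≤ max n0 1)
    linarith
  · have hL : 0 < Real.log T := by linarith
    set L := Real.log T with hLdef
    have hpi := Real.pi_pos
    have hordpos : 0 < ord n := by linarith
    have hb : L ≤ Real.log (ord n) := Real.log_le_log hTpos h3
    have hb2 : Real.log (ord n) ≤ L + 1 := by
      have : ord n ≤ 2 * T := h4.trans h5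
      have h9 := Real.log_le_log hordpos this
      rw [Real.log_mul (by norm_num) hTpos.ne'] at h9
      have := Real.log_two_lt_d9
      linarith
    set M := Real.log (ord n) with hM
    have hMpos : 0 < M := by linarith
    have hCL : 0 ≤ 1 - C2 / L := by
      have : C2 / L ≤ 1 := by rw [div_le_one hL]; linarith
      linarith
    -- gap * M / (2π) < (1/2)(1 - C2/L)(L+1)/L
    have k1 : (ord (n + 1) - ord n) * M / (2 * Real.pi) <
        1 / 2 * (1 - C2 / L) * ((L + 1) / L) := by
      rw [div_lt_iff₀ (by positivity)]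
      calc (ord (n + 1) - ord n) * M < Real.pi / L * (1 - C2 / L) * M :=
            mul_lt_mul_of_pos_right h6 hMpos
        _ ≤ Real.pi / L * (1 - C2 / L) * (L + 1) := by
            apply mul_le_mul_of_nonneg_left hb2
            have : 0 ≤ Real.pi / L := by positivity
            exact mul_nonneg this hCL
        _ = 1 / 2 * (1 - C2 / L) * ((L + 1) / L) * (2 * Real.pi) := by ring
    have k2 : 1 / 2 * (1 - C2 / L) * ((L + 1) / L) ≤ 1 / 2 - C1 / L := by
      have e1 : (L + 1) / L = 1 + 1 / L := by field_simp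
      rw [e1]
      have hL1 : 0 < 1 / L := by positivity
      have e2 : C2 / L = C2 * (1 / L) := by ring
      have e3 : C1 / L = C1 * (1 / L) := by ring
      rw [e2, e3, hC2]
      set u := 1 / L
      nlinarith [mul_nonneg (by positivity : (0:ℝ) ≤ 2 * C1 + 1) (sq_nonneg u)]
    have k3 : C / M ≤ C1 / L := by
      calc C / M ≤ C1 / M := div_le_div_of_nonneg_right hCC1 hMpos.le
        _ ≤ C1 / L := div_le_div_of_nonneg_left hC10 hL hb
    linarith

end Pool.Agent.N806.HG
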