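import Pool.Agent.N806.HG.Stm
import Pool.Agent.H382R2.Hor

/-!
Project HG (helper806), part HOR: on a good horizontal segment everything is tiny
(adaptation of `H382R2/Hor.lean`).
-/

set_option autoImplicit false

open Complex Filter Topology Set MeasureTheory

namespace Pool.Agent.N806.HG

open SG SG.Hor

namespace HORM

/-- lower bound at one of the two points -/
lemma lower (δ C1 t1 : ℝ) (hC1 : 1 ≤ C1)
    (hz : ∀ t k : ℝ, t1 ≤ t → 0 < k → k ≤ 1 / 2 →
    (∀ s : ℂ, 0 < s.re → s.re < 1 → |s.im - t| ≤ 2 → riemannZeta s = 0 →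
      s.re = 1 / 2 ∧ deriv riemannZeta s ≠ 0 ∧ k ≤ |s.im - t|) →
    (∀ s s' : ℂ, 0 < s.re → s.re < 1 → |s.im - t| ≤ 2 → riemannZeta s = 0 →
      0 < s'.re → s'.re < 1 → |s'.im - t| ≤ 2 → riemannZeta s' = 0 → s ≠ s' →
      k ≤ |s.im - s'.im|) →
    ∀ σ : ℝ, 1 / 2 ≤ σ → σ ≤ 5 / 2 →
      Real.exp (-C1 * (Real.log t + 1 / k * Real.log (1 / k))) ≤ ‖riemannZeta (⟨σ, t⟩ : ℂ)‖)
    (T : ℝ) (hT : 100 ≤ T) (ht1 : t1 ≤ T) (hl2 : 2 ≤ δ * Real.log T) (hl4 : δ * Real.log T ≤ 4)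
    (hsep : Sep δ T) (t : ℝ) (h1 : T + 2 ≤ t) (h2 : t + 2 ≤ 2 * T)
    (h3 : ∀ s : ℂ, 0 < s.re → s.re < 1 → riemannZeta s = 0 → T ≤ s.im → s.im ≤ 2 * T →
      δ / 2 ≤ |s.im - t|) (σ : ℝ) (hσ : 1 / 2 ≤ σ) (hσ' : σ ≤ 5 / 2) :
    riemannZeta (⟨σ, t⟩ : ℂ) ≠ 0 ∧
    ‖(riemannZeta (⟨σ, t⟩ : ℂ))⁻¹‖ ≤ Real.exp (3 * C1 * Real.log T ^ 2) := by
  have hlog4 := four_le_log T hT
  have hlogpos : 0 < Real.log T := by linarith
  have hδ : 0 < δ := by
    by_contra h
    push Not at h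
    nlinarith
  have hk : δ / 2 ≤ 1 / 2 := by
    by_contra h
    push Not at h
    nlinarith
  have key := hz t (δ / 2) (by linarith) (by linarith) hk
    (by
      intro s k1 k2 k3 k4
      rw [abs_le] at k3
      have a1 : T ≤ s.im := by linarith
      have a2 : s.im ≤ 2 * T := by linarith
      exact ⟨hsep.line s k1 k2 a1 a2 k4, hsep.simple s k1 k2 a1 a2 k4, h3 s k1 k2 k4 a1 a2⟩)
    (by
      intro s s' k1 k2 k3 k4 l1 l2 l3 l4 hne
      rw [abs_le] at k3 l3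
      have := hsep.sep s s' k1 k2 (by linarith) (by linarith) k4 l1 l2 (by linarith) (by linarith)
        l4 hne
      linarith) σ hσ hσ'
  have hpos : 0 < ‖riemannZeta (⟨σ, t⟩ : ℂ)‖ := (Real.exp_pos _).trans_le key
  refine ⟨norm_pos_iff.mp hpos, ?_⟩
  rw [norm_inv, inv_le_comm₀ hpos (Real.exp_pos _), ← Real.exp_neg]
  refine le_trans ?_ key
  apply Real.exp_le_exp.mpr
  have b1 : Real.log t ≤ 2 * Real.log T := by
    have : Real.log t ≤ Real.log (T ^ 2) := by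
      apply Real.log_le_log (by linarith)
      nlinarith
    rw [Real.log_pow] at this
    push_cast at this
    exact this
  have b2 : 1 / (δ / 2) ≤ Real.log T := by
    rw [div_le_iff₀ (by positivity)]
    nlinarith
  have b3 : 0 < 1 / (δ / 2) := by positivity
  have b4 : Real.log (1 / (δ / 2)) ≤ 1 / (δ / 2) := by
    have := Real.log_le_sub_one_of_pos b3
    linarith
  have b5 : 1 / (δ / 2) * Real.log (1 / (δ / 2)) ≤ Real.log T * Real.log T := by
    apply mul_le_mul b2 (b4.trans b2) _ hlogpos.le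
    apply Real.log_nonneg
    rw [le_div_iff₀ (by linarith)]
    linarith
  have b6 : Real.log T ≤ Real.log T * Real.log T := by nlinarith
  have b7 : Real.log t + 1 / (δ / 2) * Real.log (1 / (δ / 2)) ≤ 3 * Real.log T ^ 2 := by
    nlinarith
  have b8 : C1 * (Real.log t + 1 / (δ / 2) * Real.log (1 / (δ / 2))) ≤
      C1 * (3 * Real.log T ^ 2) := mul_le_mul_of_nonneg_left b7 (by linarith)
  linarith

lemma AA_right (N : ℕ) (T : ℝ) (_hT : 1 ≤ T) (hN : (N : ℝ) ≤ T ^ 2) (s : ℂ) (hs : 0 ≤ s.re) :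
    ‖AA N s‖ ≤ T ^ 2 := by
  refine (AA_bound _ _).trans ?_
  rw [max_eq_left (by linarith), add_zero, Real.rpow_one]
  exact hN

lemma AA_left (N : ℕ) (hN1 : 1 ≤ N) (T : ℝ) (_hT : 1 ≤ T) (hN : (N : ℝ) ≤ T ^ 2) (s : ℂ)
    (hs : -(3 / 2) ≤ s.re) : ‖AA N s‖ ≤ T ^ 6 := by
  refine (AA_bound _ _).trans ?_
  have hm : 0 ≤ 1 + max 0 (-s.re) := by
    have := le_max_left 0 (-s.re)
    linarith
  have hm2 : 1 + max 0 (-s.re) ≤ 3 := by
    have : max 0 (-s.re) ≤ 3 / 2 := max_le (by norm_num) (by linarith)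
    linarith
  have hN1' : (1 : ℝ) ≤ N := by exact_mod_cast hN1
  calc (N : ℝ) ^ (1 + max 0 (-s.re)) ≤ (N : ℝ) ^ (3 : ℝ) :=
        Real.rpow_le_rpow_of_exponent_le hN1' hm2
    _ = (N : ℝ) ^ 3 := by norm_cast
    _ ≤ (T ^ 2) ^ 3 := pow_le_pow_left₀ (by positivity) hN 3
    _ = T ^ 6 := by ring

/-- the Gaussian factor is tiny -/
lemma phi_small (T t0 U σ : ℝ) (hT : 1000 ≤ T) (ht : Cen T t0)
    (hU : (T + 5 ≤ U ∧ U ≤ T + 20) ∨ (2 * T - 20 ≤ U ∧ U ≤ 2 * T - 5)) (hσ : 1 / 2 ≤ σ)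
    (hσ' : σ ≤ 5 / 2) :
    ‖phi t0 (DD T) (⟨σ, U⟩ : ℂ)‖ ≤ Real.exp 2 * Real.exp (-(T ^ (1 / 4 : ℝ) / 64)) := by
  have hT0 : 0 < T := by linarith
  have hD : 0 < DD T := by unfold DD; exact SG.Deep.dd_pos _ _ hT0
  have hD1 : 1 ≤ DD T := by unfold DD; exact SG.Deep.one_le_dd _ (by norm_num) _ (by linarith)
  rw [phi_norm _ _ hD, ← Real.exp_add]
  apply Real.exp_le_exp.mpr
  obtain ⟨hc1, hc2⟩ := ht
  have him : (T * (23 / 100)) ^ 2 ≤ (U - t0) ^ 2 := by
    rcases hU with h | h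
    · have : T * (23 / 100) ≤ -(U - t0) := by linarith
      nlinarith
    · have : T * (23 / 100) ≤ (U - t0) := by linarith
      nlinarith
  have hD2 : DD T ^ 2 * T ^ (1 / 4 : ℝ) = T ^ 2 := by
    unfold DD dd
    rw [← Real.rpow_natCast, ← Real.rpow_mul hT0.le, ← Real.rpow_add hT0, ← Real.rpow_natCast]
    norm_num
  have hre : (σ - 1 / 2) ^ 2 ≤ 4 := by nlinarith
  have hu : 0 ≤ T ^ (1 / 4 : ℝ) := by positivity
  rw [div_le_iff₀ (by positivity)]
  have hDD : 1 ≤ DD T ^ 2 := by nlinarith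
  have e : (2 + -(T ^ (1 / 4 : ℝ) / 64)) * (2 * DD T ^ 2) = 4 * DD T ^ 2 - T ^ 2 / 32 := by
    rw [← hD2]; ring
  rw [e]
  simp only
  nlinarith [sq_nonneg T]

end HORM

open HORM in
theorem p_HOR (h : S_RRB) : S_HOR := by
  intro K hK
  obtain ⟨C1, t1, hC1, ht1, hz⟩ := zeta_lower
  obtain ⟨Cg, Ag, hCg, hAg, hgr⟩ := zeta_growth
  obtain ⟨B, T2, hB, hT2, hrr⟩ := h
  -- the growth fact
  have ev1 : ∀ᶠ T : ℝ in atTop, 200 ≤ T ^ (1 / 4 : ℝ) / 64 / 2 - (20 + 2 * Ag + 6 * C1) * Real.log T ^ 2 := by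
    have h1 : (fun x : ℝ => Real.log x ^ (2 : ℝ)) =o[atTop] fun x => x ^ (1 / 4 : ℝ) :=
      isLittleO_log_rpow_rpow_atTop 2 (by positivity)
    have h2 := h1.bound (show (0 : ℝ) < 1 / (256 * (20 + 2 * Ag + 6 * C1)) by positivity)
    have h3 : ∀ᶠ T : ℝ in atTop, (256 * 200 : ℝ) ≤ T ^ (1 / 4 : ℝ) :=
      (tendsto_rpow_atTop (show (0 : ℝ) < 1 / 4 by positivity)).eventually_ge_atTop _
    filter_upwards [h2, h3, eventually_ge_atTop 1] with T h4 h5 h6
    have hlog : 0 ≤ Real.log T := Real.log_nonneg h6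
    rw [Real.norm_eq_abs, Real.norm_eq_abs, abs_of_nonneg (Real.rpow_nonneg hlog _),
      abs_of_nonneg (Real.rpow_nonneg (by linarith) _)] at h4
    have h7 : Real.log T ^ (2 : ℝ) = Real.log T ^ 2 := by
      rw [← Real.rpow_natCast]
      norm_num
    rw [h7] at h4
    have hA0 : 0 < 20 + 2 * Ag + 6 * C1 := by positivity
    have h8 : (20 + 2 * Ag + 6 * C1) * Real.log T ^ 2 ≤ T ^ (1 / 4 : ℝ) / 256 := by
      calc _ ≤ (20 + 2 * Ag + 6 * C1) * (1 / (256 * (20 + 2 * Ag + 6 * C1)) * T ^ (1 / 4 : ℝ)) :=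
            mul_le_mul_of_nonneg_left h4 hA0.le
        _ = _ := by field_simp
    linarith
  obtain ⟨T3, hT3⟩ := eventually_atTop.mp ev1
  refine ⟨max (max (max 1000 t1) (max T2 T3)) (max (max B Cg) (Real.exp K)), le_trans (by norm_num)
    (le_trans (le_max_left _ _) (le_trans (le_max_left _ _) (le_max_left _ _))), ?_⟩
  intro T hT δ hl2 hl4 hsep N hN1 hN U hU hgood t0 ht0 σ hσ hσ'
  have hT1000 : 1000 ≤ T := by
    refine le_trans ?_ hT
    exact le_trans (le_max_left _ _) (le_trans (le_max_left _ _) (le_max_left _ _))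
  have hTt1 : t1 ≤ T := by
    refine le_trans ?_ hT
    exact le_trans (le_max_right _ _) (le_trans (le_max_left _ _) (le_max_left _ _))
  have hTT2 : T2 ≤ T := by
    refine le_trans ?_ hT
    exact le_trans (le_max_left _ _) (le_trans (le_max_right _ _) (le_max_left _ _))
  have hTT3 : T3 ≤ T := by
    refine le_trans ?_ hT
    exact le_trans (le_max_right _ _) (le_trans (le_max_right _ _) (le_max_left _ _))
  have hTB : B ≤ T := by
    refine le_trans ?_ hT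
    exact le_trans (le_max_left _ _) (le_trans (le_max_left _ _) (le_max_right _ _))
  have hTCg : Cg ≤ T := by
    refine le_trans ?_ hT
    exact le_trans (le_max_right _ _) (le_trans (le_max_left _ _) (le_max_right _ _))
  have hTK : Real.exp K ≤ T := by
    refine le_trans ?_ hT
    exact le_trans (le_max_right _ _) (le_max_right _ _)
  have hev := hT3 T hTT3
  have hT0 : 0 < T := by linarith
  have hT100 : 100 ≤ T := by linarith
  have hlog4 := four_le_log T hT100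
  have hlogpos : 0 < Real.log T := by linarith
  have hδ : 0 < δ := by
    by_contra h
    push Not at h
    nlinarith
  have hδ1 : δ ≤ 1 := by
    by_contra h
    push Not at h
    nlinarith
  have hUa : T + 5 ≤ U := by rcases hU with h | h <;> linarith [h.1]
  have hUb : U ≤ 2 * T - 5 := by rcases hU with h | h <;> linarith [h.2]
  have hadd : (⟨σ, U⟩ : ℂ) + hh δ = ⟨σ, U + δ / 2⟩ := add_hh σ U δ
  have hsub : (⟨σ, U⟩ : ℂ) - hh δ = ⟨σ, U - δ / 2⟩ := sub_hh σ U δ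
  obtain ⟨zp0, zp⟩ := HORM.lower δ C1 t1 hC1 hz T hT100 hTt1 hl2 hl4 hsep (U + δ / 2) (by linarith)
    (by linarith) (fun s k1 k2 k3 k4 k5 => (hgood s k1 k2 k3 k4 k5).1) σ hσ hσ'
  obtain ⟨zm0, zm⟩ := HORM.lower δ C1 t1 hC1 hz T hT100 hTt1 hl2 hl4 hsep (U - δ / 2) (by linarith)
    (by linarith) (fun s k1 k2 k3 k4 k5 => (hgood s k1 k2 k3 k4 k5).2) σ hσ hσ'
  rw [← hadd] at zp0 zp
  rw [← hsub] at zm0 zm
  refine ⟨zp0, zm0, ?_⟩
  set s : ℂ := ⟨σ, U⟩ with hs
  set E := Real.exp (3 * C1 * Real.log T ^ 2) with hE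
  have hE1 : 1 ≤ E := by
    rw [hE]
    apply Real.one_le_exp
    positivity
  have b_phi := phi_small T t0 U σ hT1000 ht0 hU hσ hσ'
  set ε := Real.exp 2 * Real.exp (-(T ^ (1 / 4 : ℝ) / 64)) with hε
  have hε0 : 0 < ε := by positivity
  have b_rr := hrr T hTT2 δ hδ hl4 s (by rw [hs]; simp only; linarith)
    (by rw [hs]; simp only; linarith)
    (by rw [hs]; simp only; rw [abs_of_nonneg (by linarith)]; linarith)
  have hNT : (N : ℝ) ≤ T ^ 2 := by
    calc (N : ℝ) ≤ Real.exp K * T := hN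
      _ ≤ T * T := by gcongr
      _ = T ^ 2 := by ring
  have b_Aleft : ‖AA N (1 - (s - hh δ))‖ ≤ T ^ 6 := by
    apply HORM.AA_left N hN1 T (by linarith) hNT
    rw [hsub]
    simp only [sub_re, one_re]
    linarith
  have b_Aplus : ‖AA N (s + hh δ)‖ ≤ T ^ 2 := by
    apply HORM.AA_right N T (by linarith) hNT
    rw [hadd]
    simp only
    linarith
  have b_Aminus : ‖AA N (s - hh δ)‖ ≤ T ^ 2 := by
    apply HORM.AA_right N T (by linarith) hNT
    rw [hsub]
    simp only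
    linarith
  have b_zeta : ‖riemannZeta (s - hh δ)‖ ≤ Cg * (2 * T) ^ Ag := by
    have him : |(s - hh δ).im| = U - δ / 2 := by
      rw [hsub]
      simp only
      rw [abs_of_pos (by linarith)]
    have := hgr (s - hh δ) (by rw [hsub]; simp only; linarith) (by rw [hsub]; simp only; linarith)
      (by rw [him]; linarith)
    rw [him] at this
    refine this.trans ?_
    apply mul_le_mul_of_nonneg_left _ (by linarith)
    exact Real.rpow_le_rpow (by linarith) (by linarith) (by linarith)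
  have e2 : (2 * T) ^ Ag ≤ T ^ (2 * Ag) := by
    have : 2 * T ≤ T ^ 2 := by nlinarith
    calc (2 * T) ^ Ag ≤ (T ^ 2) ^ Ag := Real.rpow_le_rpow (by positivity) this (by linarith)
      _ = T ^ (2 * Ag) := by
          rw [← Real.rpow_natCast, ← Real.rpow_mul hT0.le]
          norm_num
  have hTA : 1 ≤ T ^ (2 * Ag) := Real.one_le_rpow (by linarith) (by linarith)
  have b_zeta' : ‖riemannZeta (s - hh δ)‖ ≤ T * T ^ (2 * Ag) :=
    b_zeta.trans (mul_le_mul hTCg e2 (by positivity) hT0.le)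
  -- the final number
  have hfin : ε * (T ^ 12 * T ^ (2 * Ag) * E) ≤ 1 / 100 := by
    have f1 : T ^ 12 = Real.exp (12 * Real.log T) := by
      rw [mul_comm, Real.exp_mul, Real.exp_log hT0]
      norm_cast
    have f2 : T ^ (2 * Ag) = Real.exp (2 * Ag * Real.log T) := by
      rw [Real.rpow_def_of_pos hT0]
      ring_nf
    rw [hε, f1, f2, hE, ← Real.exp_add, ← Real.exp_add, ← Real.exp_add, ← Real.exp_add]
    have g1 : Real.exp (-5 : ℝ) ≤ 1 / 100 := by
      rw [Real.exp_neg, inv_le_comm₀ (Real.exp_pos _) (by norm_num)]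
      have := Real.exp_one_gt_d9
      have h5 : Real.exp 5 = (Real.exp 1) ^ 5 := by
        rw [← Real.exp_nat_mul]
        norm_num
      rw [h5]
      calc ((1 / 100 : ℝ))⁻¹ = 100 := by norm_num
        _ ≤ (2.7 : ℝ) ^ 5 := by norm_num
        _ ≤ _ := pow_le_pow_left₀ (by norm_num) (by linarith) 5
    refine le_trans (Real.exp_le_exp.mpr ?_) g1
    have f4 : Real.log T ≤ Real.log T ^ 2 := by nlinarith
    have hu : 0 ≤ T ^ (1 / 4 : ℝ) := by positivity
    nlinarith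
  constructor
  · unfold XX
    have e : phi t0 (DD T) s * rr δ s * (riemannZeta (s - hh δ) * AA N (s - hh δ) *
        AA N (1 - (s - hh δ)) / riemannZeta (s + hh δ)) =
      phi t0 (DD T) s * rr δ s * (riemannZeta (s - hh δ) * AA N (s - hh δ) *
        AA N (1 - (s - hh δ)) * (riemannZeta (s + hh δ))⁻¹) := by rw [div_eq_mul_inv]
    rw [e, norm_mul, norm_mul, norm_mul, norm_mul, norm_mul]
    calc _ ≤ (ε * T) * (((T * T ^ (2 * Ag)) * T ^ 2) * T ^ 6 * E) := by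
          have : ‖rr δ s‖ ≤ T := b_rr.trans hTB
          gcongr
      _ = ε * (T ^ 10 * T ^ (2 * Ag) * E) := by ring
      _ ≤ ε * (T ^ 12 * T ^ (2 * Ag) * E) := by
          gcongr
          · linarith
          · norm_num
      _ ≤ _ := hfin
  · unfold YY
    rw [norm_mul, norm_mul, norm_mul]
    calc _ ≤ (ε * T) * (T ^ 2 * T ^ 6) := by
          have : ‖rr δ s‖ ≤ T := b_rr.trans hTB
          gcongr
      _ = ε * (T ^ 9 * 1 * 1) := by ring
      _ ≤ ε * (T ^ 12 * T ^ (2 * Ag) * E) := by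
          gcongr
          · linarith
          · norm_num
      _ ≤ _ := hfin

end Pool.Agent.N806.HG
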