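import Pool.Agent.N806.HG.Stm
import Pool.Agent.H382R2.Main

/-!
Project HG (helper806), task ID (helper160): residue identity and positivity.
-/

set_option autoImplicit false

open Complex Filter Topology Set MeasureTheory

namespace Pool.Agent.N806.HG

open SG SG.Asm

namespace IDAux

/-- `ζ A` -/
noncomputable def ZA (N : ℕ) (s : ℂ) : ℂ := riemannZeta s * AA N s

lemma ZA_conj (N : ℕ) (s : ℂ) : ZA N ((starRingEnd ℂ) s) = (starRingEnd ℂ) (ZA N s) := by
  unfold ZA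
  rw [riemannZeta_conj, SignAux.AA_conj, map_mul]

lemma ZA_analytic (N : ℕ) (s : ℂ) (hs : s ≠ 1) : AnalyticAt ℂ (ZA N) s :=
  (zeta_analytic s hs).mul (AA_analytic N s)

/-- the test function -/
noncomputable def FF (N : ℕ) (δ : ℝ) (s : ℂ) : ℂ := ZA N (s - hh δ) * ZA N (1 - (s - hh δ))

lemma FF_symm (N : ℕ) (δ : ℝ) (s : ℂ) :
    FF N δ (1 - (starRingEnd ℂ) s) = (starRingEnd ℂ) (FF N δ s) := by
  unfold FF
  have e1 : 1 - (starRingEnd ℂ) s - hh δ = (starRingEnd ℂ) (1 - (s - hh δ)) := by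
    rw [map_sub, map_sub, map_one, conj_hh']
    ring
  have e2 : 1 - (1 - (starRingEnd ℂ) s - hh δ) = (starRingEnd ℂ) (s - hh δ) := by
    rw [map_sub, conj_hh']
    ring
  rw [e2, e1, ZA_conj, ZA_conj, map_mul]
  ring

lemma PF_eq (t0 D δ : ℝ) (hδ : |δ| ≤ 1) (N : ℕ) (s : ℂ) (hs : 1 ≤ s.im)
    (h1 : riemannZeta (s + hh δ) ≠ 0) (h2 : riemannZeta (s - hh δ) ≠ 0) (h3 : 0 < s.re) :
    PP t0 D δ s * FF N δ s = XX t0 D δ N s := by
  have h := PQ t0 D δ hδ N s hs h1 h2 h3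
  have h4 : PP t0 D δ s * ZA N (1 - (s - hh δ)) = QQ t0 D δ N s := by
    have h5 : GG N (1 - (s - hh δ)) = ZA N (1 - (s - hh δ)) - 1 := rfl
    rw [h5] at h
    linear_combination h
  unfold FF XX
  have h6 : PP t0 D δ s * (ZA N (s - hh δ) * ZA N (1 - (s - hh δ))) =
      ZA N (s - hh δ) * (PP t0 D δ s * ZA N (1 - (s - hh δ))) := by ring
  rw [h6, h4]
  unfold QQ ZA
  ring

lemma normZA_halfconj (g : ℝ) : 1 - (1 / 2 + I * (g : ℂ)) = (starRingEnd ℂ) (1 / 2 + I * (g : ℂ)) := by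
  rw [half_eq]
  apply Complex.ext
  · simp only [sub_re, one_re, conj_re]
    norm_num
  · simp

end IDAux

open IDAux

theorem p_ID (hg : S_GU) (hn : S_NOD) (hh' : S_HOR) : S_ID := by
  intro K hK
  obtain ⟨Tc, hTc, hhor⟩ := hh' K hK
  refine ⟨Tc, hTc, ?_⟩
  intro T hT δ hδ2 hδ4 hS N hN1 hN2
  have hT100 : 100 ≤ T := hTc.trans hT
  have hlog : 4 ≤ Real.log T := by
    rw [Real.le_log_iff_exp_le (by linarith)]
    have h1 : Real.exp 4 = Real.exp 1 ^ 4 := by
      rw [← Real.exp_nat_mul]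
      norm_num
    have h2 := Real.exp_one_lt_d9
    have h3 : Real.exp 1 ^ 4 ≤ (2.7182818286 : ℝ) ^ 4 :=
      pow_le_pow_left₀ (Real.exp_pos 1).le h2.le 4
    rw [h1]
    refine h3.trans (le_trans ?_ hT100)
    norm_num
  have hlog0 : 0 < Real.log T := by linarith
  have hδ : 0 < δ := by
    by_contra h
    push Not at h
    have := mul_nonpos_of_nonpos_of_nonneg h hlog0.le
    linarith
  have hδ1 : δ ≤ 1 := by
    by_contra h
    push Not at h
    have : 1 * Real.log T < δ * Real.log T := mul_lt_mul_of_pos_right h hlog0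
    linarith
  have hδabs : |δ| ≤ 1 := by rwa [abs_of_pos hδ]
  obtain ⟨U1, hU1a, hU1b, hU1g⟩ := hg T δ (T + 6) hT100 hδ hδ1 (by linarith) (by linarith) hS
  obtain ⟨U2, hU2a, hU2b, hU2g⟩ := hg T δ (2 * T - 10) hT100 hδ hδ1 (by linarith) (by linarith) hS
  refine ⟨U1, U2, ⟨by linarith, by linarith, by linarith, by linarith⟩, ?_⟩
  intro t0 hC
  have H1 := hhor T hT δ hδ2 hδ4 hS N hN1 hN2 U1 (Or.inl ⟨by linarith, by linarith⟩) hU1g t0 hC
  have H2 := hhor T hT δ hδ2 hδ4 hS N hN1 hN2 U2 (Or.inr ⟨by linarith, by linarith⟩) hU2g t0 hC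
  have hU12 : U1 ≤ U2 := by linarith
  have conjpt : ∀ σ t : ℝ, (⟨σ, t⟩ : ℂ) = 1 - (starRingEnd ℂ) (⟨1 - σ, t⟩ : ℂ) := by
    intro σ t
    apply Complex.ext
    · simp only [sub_re, one_re, conj_re]
      ring
    · simp
  have ne1 : ∀ s : ℂ, s.im ≠ 0 → s ≠ 1 := by
    intro s h h'
    rw [h'] at h
    simp at h
  have imsub : ∀ s : ℂ, (s - hh δ).im = s.im - δ / 2 := fun s => by rw [sub_im, hh_im]
  have imone : ∀ s : ℂ, (1 - (s - hh δ)).im = -(s.im - δ / 2) := fun s => by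
    rw [sub_im, one_im, imsub]
    ring
  constructor
  · obtain ⟨Z1, Z2, v, v', hv, hv', hz1, hz2, h10, h10', hid⟩ := hn T δ t0 (DD T) U1 U2 hT100 hδ
      hδ1 hS (by linarith) (by linarith) (by linarith) hU1g hU2g
    have an : ∀ s ∈ Set.Icc (-3 / 2 : ℝ) (5 / 2) ×ℂ Set.Icc U1 U2, AnalyticAt ℂ (FF N δ) s := by
      intro s hs
      have him := rect_im hs
      apply AnalyticAt.mul
      · apply AnalyticAt.comp' (g := ZA N) (f := fun s => s - hh δ)
        · exact ZA_analytic N _ (ne1 _ (by rw [imsub]; intro h; linarith))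
        · fun_prop
      · apply AnalyticAt.comp' (g := ZA N) (f := fun s => 1 - (s - hh δ))
        · exact ZA_analytic N _ (ne1 _ (by rw [imone]; intro h; linarith))
        · fun_prop
    have id1 := hid (FF N δ) an
    have val1 : ∀ g ∈ Z1, FF N δ (1 / 2 + I * g + hh δ) = 0 := by
      intro g hg
      unfold FF ZA
      rw [add_sub_cancel_right, hz1 g hg]
      ring
    have val2 : ∀ g ∈ Z2, FF N δ (1 / 2 + I * g - hh δ) =
        ((‖ZA N (1 / 2 + I * g - hh δ - hh δ)‖ ^ 2 : ℝ) : ℂ) := by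
      intro g hg
      have e : 1 - (1 / 2 + I * (g : ℂ) - hh δ - hh δ) =
          (starRingEnd ℂ) (1 / 2 + I * g - hh δ - hh δ) := by
        rw [map_sub, map_sub, conj_hh', ← normZA_halfconj]
        ring
      unfold FF
      rw [e, ZA_conj, Complex.mul_conj, Complex.normSq_eq_norm_sq]
    set B : ℝ := ∑ g ∈ Z2, v' g * ‖ZA N (1 / 2 + I * g - hh δ - hh δ)‖ ^ 2 with hB
    have hB0 : 0 ≤ B := Finset.sum_nonneg fun g hg => mul_nonneg (hv' g hg).le (sq_nonneg _)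
    have r1 : rectI (fun s => PP t0 (DD T) δ s * FF N δ s) (-3 / 2) (5 / 2) U1 U2 =
        ((2 * Real.pi * B : ℝ) : ℂ) := by
      rw [id1]
      have s1 : ∑ g ∈ Z1, I * (v g : ℂ) * FF N δ (1 / 2 + I * g + hh δ) = 0 := by
        apply Finset.sum_eq_zero
        intro g hg
        rw [val1 g hg, mul_zero]
      have s2 : ∑ g ∈ Z2, I * (v' g : ℂ) * FF N δ (1 / 2 + I * g - hh δ) = I * (B : ℂ) := by
        rw [hB, Complex.ofReal_sum, Finset.mul_sum]
        apply Finset.sum_congr rfl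
        intro g hg
        rw [val2 g hg]
        push_cast
        ring
      rw [s1, s2]
      push_cast
      linear_combination (-2 * (Real.pi : ℂ) * B) * I_mul_I
    -- the horizontal sides
    have hor : ∀ U : ℝ, 1 ≤ U → (∀ σ : ℝ, 1 / 2 ≤ σ → σ ≤ 5 / 2 →
        riemannZeta ((⟨σ, U⟩ : ℂ) + hh δ) ≠ 0 ∧ riemannZeta ((⟨σ, U⟩ : ℂ) - hh δ) ≠ 0 ∧
        ‖XX t0 (DD T) δ N (⟨σ, U⟩ : ℂ)‖ ≤ 1 / 100 ∧
        ‖YY t0 (DD T) δ N (⟨σ, U⟩ : ℂ)‖ ≤ 1 / 100) →
        ∀ σ : ℝ, -3 / 2 ≤ σ → σ ≤ 5 / 2 →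
          ‖PP t0 (DD T) δ (⟨σ, U⟩ : ℂ) * FF N δ (⟨σ, U⟩ : ℂ)‖ ≤ 1 / 100 := by
      intro U hU H
      have key : ∀ σ : ℝ, 1 / 2 ≤ σ → σ ≤ 5 / 2 →
          ‖PP t0 (DD T) δ (⟨σ, U⟩ : ℂ) * FF N δ (⟨σ, U⟩ : ℂ)‖ ≤ 1 / 100 := by
        intro σ h1 h2
        obtain ⟨a1, a2, a3, _⟩ := H σ h1 h2
        rw [PF_eq t0 (DD T) δ hδabs N _ hU a1 a2 (by simp only; linarith)]
        exact a3
      intro σ h1 h2
      by_cases h3 : 1 / 2 ≤ σ
      · exact key σ h3 h2
      · rw [conjpt σ U, PP_symm t0 (DD T) δ _ (by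
          simp only
          rw [abs_of_pos (by linarith)]
          exact hU), FF_symm, ← map_mul, Complex.norm_conj]
        exact key (1 - σ) (by linarith) (by linarith)
    have b1 := hor_bound (fun s => PP t0 (DD T) δ s * FF N δ s) (-3 / 2) (5 / 2) U1 (1 / 100)
      (by norm_num) (hor U1 (by linarith) H1)
    have b2 := hor_bound (fun s => PP t0 (DD T) δ s * FF N δ s) (-3 / 2) (5 / 2) U2 (1 / 100)
      (by norm_num) (hor U2 (by linarith) H2)
    -- the right side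
    have right : ∫ y in U1..U2, (fun s => PP t0 (DD T) δ s * FF N δ s) (⟨5 / 2, y⟩ : ℂ) =
        ∫ t in U1..U2, XX t0 (DD T) δ N (⟨5 / 2, t⟩ : ℂ) := by
      apply intervalIntegral.integral_congr
      intro t ht
      rw [uIcc_of_le hU12] at ht
      have ht1 : U1 ≤ t := ht.1
      refine PF_eq t0 (DD T) δ hδabs N _ (by simp only; linarith) ?_ ?_ (by norm_num)
      · exact (zeta_inv_bound _ (by rw [add_re, hh_re]; norm_num)).1
      · exact (zeta_inv_bound _ (by rw [sub_re, hh_re]; norm_num)).1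
    -- the left side
    have left : ∫ y in U1..U2, (fun s => PP t0 (DD T) δ s * FF N δ s) (⟨-3 / 2, y⟩ : ℂ) =
        (starRingEnd ℂ) (∫ t in U1..U2, (fun s => PP t0 (DD T) δ s * FF N δ s) (⟨5 / 2, t⟩ : ℂ)) := by
      rw [intervalIntegral.integral_of_le hU12, intervalIntegral.integral_of_le hU12,
        ← integral_conj]
      refine setIntegral_congr_fun measurableSet_Ioc fun t ht => ?_
      have e : (⟨-3 / 2, t⟩ : ℂ) = 1 - (starRingEnd ℂ) (⟨5 / 2, t⟩ : ℂ) := by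
        rw [conjpt (-3 / 2) t]
        norm_num
      have ht1 : U1 < t := ht.1
      simp only
      rw [e, PP_symm t0 (DD T) δ _ (by
          simp only
          rw [abs_of_pos (by linarith)]
          linarith), FF_symm, ← map_mul]
    unfold rectI at r1
    set I1 := ∫ x in (-3 / 2 : ℝ)..(5 / 2), (fun s => PP t0 (DD T) δ s * FF N δ s) (⟨x, U1⟩ : ℂ)
    set I2 := ∫ x in (-3 / 2 : ℝ)..(5 / 2), (fun s => PP t0 (DD T) δ s * FF N δ s) (⟨x, U2⟩ : ℂ)
    rw [left, right] at r1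
    set X := ∫ t in U1..U2, XX t0 (DD T) δ N (⟨5 / 2, t⟩ : ℂ)
    have r2 := congrArg Complex.re r1
    simp only [sub_re, add_re, mul_re, I_re, I_im, conj_re, conj_im, ofReal_re, zero_mul,
      one_mul] at r2
    have a1 := (Complex.re_le_norm I1).trans b1
    have a2 := (Complex.abs_re_le_norm I2).trans b2
    rw [abs_le] at a2
    have hpi := Real.pi_pos
    have hB1 : 0 ≤ 2 * Real.pi * B := by positivity
    linarith [a2.1]
  · -- moving `YY`
    have hYan : AnalyticOnNhd ℂ (YY t0 (DD T) δ N) (Set.Icc (1 / 2 : ℝ) (5 / 2) ×ℂ Set.Icc U1 U2) := by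
      intro s hs
      have him : U1 ≤ s.im := hs.2.1
      apply AnalyticAt.mul
      · exact (Deep.phi_analytic _ _ s).mul (rr_analytic _ hδabs s (by linarith))
      · apply AnalyticAt.mul
        · apply AnalyticAt.comp' (g := AA N) (f := fun s => s + hh δ)
          · exact AA_analytic N _
          · fun_prop
        · apply AnalyticAt.comp' (g := AA N) (f := fun s => 1 - (s - hh δ))
          · exact AA_analytic N _
          · fun_prop
    have hrz := rect_zero (YY t0 (DD T) δ N) (1 / 2) (5 / 2) U1 U2 (by norm_num) (by linarith) hYan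
    have hb1 := hor_bound (YY t0 (DD T) δ N) (1 / 2) (5 / 2) U1 (1 / 100) (by norm_num)
      (fun σ ha hb => (H1 σ ha hb).2.2.2)
    have hb2 := hor_bound (YY t0 (DD T) δ N) (1 / 2) (5 / 2) U2 (1 / 100) (by norm_num)
      (fun σ ha hb => (H2 σ ha hb).2.2.2)
    unfold rectI at hrz
    set J1 := ∫ x in (1 / 2 : ℝ)..(5 / 2), YY t0 (DD T) δ N (⟨x, U1⟩ : ℂ)
    set J2 := ∫ x in (1 / 2 : ℝ)..(5 / 2), YY t0 (DD T) δ N (⟨x, U2⟩ : ℂ)
    set J3 := ∫ y in U1..U2, YY t0 (DD T) δ N (⟨5 / 2, y⟩ : ℂ)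
    set J4 := ∫ y in U1..U2, YY t0 (DD T) δ N (⟨1 / 2, y⟩ : ℂ)
    have e1 : J3 - J4 = I * (J1 - J2) := by
      linear_combination (-I) * hrz + (J3 - J4) * I_mul_I
    rw [e1, norm_mul, norm_I, one_mul]
    refine (norm_sub_le _ _).trans ?_
    linarith
    
end Pool.Agent.N806.HG
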