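import Pool.Agent.N806.HG.Avg
import Pool.Agent.H382R2.Deep0

/-!
Project HG (helper806): the assembly.
-/

set_option autoImplicit false

open Complex Filter Topology Set MeasureTheory

namespace Pool.Agent.N806.HG

open SG

/-- the inequality for one centre -/
lemma point (hID : S_ID) (hNEAR : S_NEAR) (hLINE : S_LINE) : ∃ B : ℝ, 0 < B ∧ ∀ K : ℝ, 0 ≤ K →
    ∃ T0 : ℝ, 100 ≤ T0 ∧ ∀ T : ℝ, T0 ≤ T → ∀ δ : ℝ, 2 ≤ δ * Real.log T → δ * Real.log T ≤ 4 →
    Sep δ T → ∀ N : ℕ, 1 ≤ N → (N : ℝ) ≤ Real.exp K * T → ∀ t0 : ℝ, Cen T t0 →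
    (cexp (-((δ * Real.log T / 2 : ℝ) : ℂ) * I) * JJ t0 (DD T) δ N).im ≤
      3 + DD T + B / Real.log T * (MS t0 (DD T) (δ / 2) N + MS t0 (DD T) (-(δ / 2)) N) := by
  obtain ⟨B, hB, hL⟩ := hLINE
  refine ⟨B, hB, fun K hK => ?_⟩
  obtain ⟨T1, hT1, h1⟩ := hID K hK
  obtain ⟨T2, hT2, h2⟩ := hNEAR K 1 hK one_pos
  obtain ⟨T3, hT3, h3⟩ := hL K hK
  refine ⟨max T1 (max T2 T3), hT1.trans (le_max_left _ _), ?_⟩
  intro T hT δ hδ2 hδ4 hS N hN1 hN t0 ht0
  have a1 : T1 ≤ T := (le_max_left _ _).trans hT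
  have a2 : T2 ≤ T := ((le_max_left _ _).trans (le_max_right _ _)).trans hT
  have a3 : T3 ≤ T := ((le_max_right _ _).trans (le_max_right _ _)).trans hT
  have hlog : 0 < Real.log T := Real.log_pos (by linarith)
  have hδ : 0 < δ := by
    by_contra h
    push Not at h
    nlinarith
  obtain ⟨U1, U2, hW, hU⟩ := h1 T a1 δ hδ2 hδ4 hS N hN1 hN
  obtain ⟨b1, b2⟩ := hU t0 ht0
  have b3 := h2 T a2 δ t0 U1 U2 hδ hδ4 ht0 hW N hN1 hN
  have b4 := h3 T a3 δ t0 U1 U2 hδ hδ4 ht0 hW N hN1 hN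
  set X5 := ∫ t in U1..U2, XX t0 (DD T) δ N (⟨5 / 2, t⟩ : ℂ)
  set Y5 := ∫ t in U1..U2, YY t0 (DD T) δ N (⟨5 / 2, t⟩ : ℂ)
  set Y1 := ∫ t in U1..U2, YY t0 (DD T) δ N (⟨1 / 2, t⟩ : ℂ)
  set J := cexp (-((δ * Real.log T / 2 : ℝ) : ℂ) * I) * JJ t0 (DD T) δ N
  have c1 := (Complex.abs_im_le_norm (Y5 - Y1)).trans b2
  have c2 := (Complex.abs_im_le_norm (X5 - Y5)).trans b3
  have c3 := (Complex.abs_im_le_norm (Y1 - J)).trans b4
  rw [Complex.sub_im, abs_le] at c1 c2 c3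
  linarith [c1.1, c2.1, c3.1]

lemma DD_pos {T : ℝ} (hT : 0 < T) : 0 < DD T := Real.rpow_pos_of_pos hT _

lemma DD_one {T : ℝ} (hT : 1 ≤ T) : 1 ≤ DD T := by
  unfold DD dd
  exact Real.one_le_rpow hT (by norm_num)

lemma DD_le {T : ℝ} (hT : 1 ≤ T) : DD T ≤ T := by
  unfold DD dd
  calc T ^ (1 - (1 / 4 : ℝ) / 2) ≤ T ^ (1 : ℝ) := Real.rpow_le_rpow_of_exponent_le hT (by norm_num)
    _ = T := Real.rpow_one T

/-- the averaged inequality -/
lemma averaged (hID : S_ID) (hNEAR : S_NEAR) (hLINE : S_LINE) (hAVJ : S_AVJ) (hCONT : S_CONT)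
    (hAVMS : S_AVMS) : ∃ B : ℝ, 0 < B ∧ ∀ K : ℝ, 0 ≤ K →
    ∃ T0 : ℝ, 100 ≤ T0 ∧ ∀ T : ℝ, T0 ≤ T → ∀ δ : ℝ, 2 ≤ δ * Real.log T → δ * Real.log T ≤ 4 →
    Sep δ T → ∀ N : ℕ, 1 ≤ N → (N : ℝ) ≤ Real.exp K * T →
    -(∑ m ∈ Finset.Icc 1 N, ∑ n ∈ Finset.Icc 1 N, TT T (DD T) δ m n) ≤ B * T ^ 2 := by
  obtain ⟨B1, hB1, hP⟩ := point hID hNEAR hLINE
  obtain ⟨B2, hB2, hM⟩ := hAVMS
  refine ⟨1 / 4 + 4 * B1 * B2, by positivity, fun K hK => ?_⟩
  obtain ⟨T1, hT1, h1⟩ := hP K hK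
  have ev : ∀ᶠ T : ℝ in atTop, 1 + K + Real.exp (2 * K) ≤ Real.log T :=
    Real.tendsto_log_atTop.eventually_ge_atTop _
  obtain ⟨T2, hT2⟩ := eventually_atTop.mp ev
  refine ⟨max T1 T2, hT1.trans (le_max_left _ _), ?_⟩
  intro T hT δ hδ2 hδ4 hS N hN1 hN
  have a1 : T1 ≤ T := (le_max_left _ _).trans hT
  have a2 := hT2 T ((le_max_right _ _).trans hT)
  have hT100 : 100 ≤ T := hT1.trans a1
  have hlog : 0 < Real.log T := Real.log_pos (by linarith)
  have hD1 : 1 ≤ DD T := DD_one (by linarith)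
  have hD : 0 < DD T := by linarith
  set D := DD T with hDdef
  have hNr : (1 : ℝ) ≤ N := by exact_mod_cast hN1
  have cJ : Continuous (fun t0 => (cexp (-((δ * Real.log T / 2 : ℝ) : ℂ) * I) * JJ t0 D δ N).im) :=
    Complex.continuous_im.comp (continuous_const.mul (hCONT D δ 0 N hD).1)
  have cM1 := (hCONT D δ (δ / 2) N hD).2
  have cM2 := (hCONT D δ (-(δ / 2)) N hD).2
  have key := AV_mono (T := T) (by linarith) cJ
    (g := fun t0 => (3 + D) + (B1 / Real.log T * MS t0 D (δ / 2) N +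
      B1 / Real.log T * MS t0 D (-(δ / 2)) N))
    (continuous_const.add ((continuous_const.mul cM1).add (continuous_const.mul cM2)))
    (fun t0 ht0 => by
      have := h1 T a1 δ hδ2 hδ4 hS N hN1 hN t0 ht0
      rw [mul_add] at this
      linarith)
  have d1 : Continuous (fun t0 => B1 / Real.log T * MS t0 D (δ / 2) N) := continuous_const.mul cM1
  have d2 : Continuous (fun t0 => B1 / Real.log T * MS t0 D (-(δ / 2)) N) := continuous_const.mul cM2
  have d3 : Continuous (fun t0 => B1 / Real.log T * MS t0 D (δ / 2) N +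
    B1 / Real.log T * MS t0 D (-(δ / 2)) N) := d1.add d2
  rw [hAVJ T D δ N (by linarith) hD, AV_add T continuous_const d3, AV_add T d1 d2, AV_smul, AV_smul,
    AV_const] at key
  have m1 := hM T D (δ / 2) N (by linarith) hD hN1
  have m2 := hM T D (-(δ / 2)) N (by linarith) hD hN1
  set S := ∑ m ∈ Finset.Icc 1 N, ∑ n ∈ Finset.Icc 1 N, TT T D δ m n with hSdef
  have hlogN : Real.log N ≤ K + Real.log T := by
    have := Real.log_le_log (by linarith) hN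
    rwa [Real.log_mul (Real.exp_pos K).ne' (by linarith), Real.log_exp] at this
  have hN2 : (N : ℝ) ^ 2 ≤ Real.exp (2 * K) * T ^ 2 := by
    have := pow_le_pow_left₀ (by linarith) hN 2
    rw [mul_pow, ← Real.exp_nat_mul] at this
    push_cast at this
    exact this
  have hT2p : 0 < T ^ 2 := by positivity
  have hm : D * B2 * (T ^ 2 * (1 + Real.log N) + (N : ℝ) ^ 2) ≤ D * B2 * (T ^ 2 * (2 * Real.log T)) := by
    apply mul_le_mul_of_nonneg_left _ (by positivity)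
    have : T ^ 2 * (1 + Real.log N) ≤ T ^ 2 * (1 + (K + Real.log T)) :=
      mul_le_mul_of_nonneg_left (by linarith) hT2p.le
    have h5 : T ^ 2 * (1 + (K + Real.log T)) + Real.exp (2 * K) * T ^ 2 =
        T ^ 2 * ((1 + K + Real.exp (2 * K)) + Real.log T) := by ring
    have h6 : T ^ 2 * ((1 + K + Real.exp (2 * K)) + Real.log T) ≤ T ^ 2 * (2 * Real.log T) :=
      mul_le_mul_of_nonneg_left (by linarith) hT2p.le
    linarith
  have e1 : B1 / Real.log T * (D * B2 * (T ^ 2 * (2 * Real.log T))) = 2 * B1 * B2 * D * T ^ 2 := by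
    field_simp
  have k1 : B1 / Real.log T * AV T (fun t0 => MS t0 D (δ / 2) N) ≤ 2 * B1 * B2 * D * T ^ 2 := by
    rw [← e1]
    exact mul_le_mul_of_nonneg_left (m1.trans hm) (by positivity)
  have k2 : B1 / Real.log T * AV T (fun t0 => MS t0 D (-(δ / 2)) N) ≤ 2 * B1 * B2 * D * T ^ 2 := by
    rw [← e1]
    exact mul_le_mul_of_nonneg_left (m2.trans hm) (by positivity)
  have k3 : T ^ 2 / 16 * (3 + D) ≤ D * T ^ 2 * (1 / 4) := by nlinarith
  have hfin : D * (Real.sqrt (2 * Real.pi) * (-S)) ≤ D * ((1 / 4 + 4 * B1 * B2) * T ^ 2) := by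
    have : D * (Real.sqrt (2 * Real.pi) * (-S)) = -(D * Real.sqrt (2 * Real.pi)) * S := by ring
    rw [this]
    nlinarith
  have hfin2 := le_of_mul_le_mul_left hfin hD
  rcases le_or_gt (-S) 0 with h | h
  · have : 0 ≤ (1 / 4 + 4 * B1 * B2) * T ^ 2 := by positivity
    linarith
  · have hs : 1 ≤ Real.sqrt (2 * Real.pi) := by
      rw [Real.one_le_sqrt]
      linarith [Real.pi_gt_three]
    nlinarith

/-- decomposition of the double sum -/
lemma decomp (hWWB : S_WWB) (T D δ : ℝ) (hT : 1 ≤ T) (hD : 0 ≤ D) (hDT : D ≤ T) (N H : ℕ) :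
    ∑ m ∈ Finset.Icc 1 N, ∑ n ∈ Finset.Icc 1 N, TT T D δ m n ≤
      T ^ 2 / 16 * (∑ n ∈ Finset.Icc 1 N, mu n ^ 2 / n *
        Real.sin (δ * Real.log T / 2 + δ * Real.log n)) +
      (∑ m ∈ Finset.Icc 1 N, ∑ n ∈ Finset.Icc 1 N,
        (if m ≠ n ∧ T < m ∧ T < n ∧ m ≤ n + H ∧ n ≤ m + H then TT T D δ m n else 0)) +
      4 * ∑ m ∈ Finset.Icc 1 N, ∑ n ∈ Finset.Icc 1 N,
        (if m = n ∨ (T < m ∧ T < n ∧ m ≤ n + H ∧ n ≤ m + H) then 0 else
        1 / (Real.sqrt (m * n) * (Real.log n - Real.log m) ^ 2)) := by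
  obtain ⟨w1, w2, w3, -⟩ := hWWB T D hT hD hDT
  have hdiag : T ^ 2 / 16 * (∑ n ∈ Finset.Icc 1 N, mu n ^ 2 / n *
        Real.sin (δ * Real.log T / 2 + δ * Real.log n)) =
      ∑ m ∈ Finset.Icc 1 N, ∑ n ∈ Finset.Icc 1 N, (if m = n then TT T D δ m n else 0) := by
    rw [Finset.mul_sum]
    apply Finset.sum_congr rfl
    intro m hm
    rw [Finset.sum_ite_eq, if_pos hm]
    unfold TT
    have hm1 : (0 : ℝ) < m := by exact_mod_cast (Finset.mem_Icc.mp hm).1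
    rw [sub_self, w3, Real.sqrt_mul_self hm1.le, show δ * (Real.log m + Real.log m) / 2 =
      δ * Real.log m by ring]
    ring
  rw [hdiag, Finset.mul_sum, ← Finset.sum_add_distrib, ← Finset.sum_add_distrib]
  apply Finset.sum_le_sum
  intro m hm
  rw [Finset.mul_sum, ← Finset.sum_add_distrib, ← Finset.sum_add_distrib]
  apply Finset.sum_le_sum
  intro n hn
  have hm1 : (0 : ℝ) < m := by exact_mod_cast (Finset.mem_Icc.mp hm).1
  have hn1 : (0 : ℝ) < n := by exact_mod_cast (Finset.mem_Icc.mp hn).1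
  by_cases hmn : m = n
  · rw [if_pos hmn, if_neg (by tauto), if_pos (Or.inl hmn)]
    linarith
  by_cases hc : T < m ∧ T < n ∧ m ≤ n + H ∧ n ≤ m + H
  · rw [if_neg hmn, if_pos ⟨hmn, hc⟩, if_pos (Or.inr hc)]
    linarith
  · rw [if_neg hmn, if_neg (by tauto), if_neg (by tauto)]
    have hξ : Real.log n - Real.log m ≠ 0 := by
      intro h
      apply hmn
      have h2 : Real.log m = Real.log n := by linarith
      have := Real.log_injOn_pos (Set.mem_Ioi.mpr hm1) (Set.mem_Ioi.mpr hn1) h2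
      exact_mod_cast this
    have hmu : ∀ k : ℕ, |mu k| ≤ 1 := by
      intro k
      unfold mu
      have := ArithmeticFunction.abs_moebius_le_one (n := k)
      exact_mod_cast this
    have hsq : 0 < Real.sqrt (m * n) := Real.sqrt_pos.mpr (by positivity)
    have h1 := w2 _ hξ
    refine (le_abs_self _).trans ?_
    unfold TT
    rw [abs_mul, abs_mul, abs_div, abs_mul, abs_of_pos hsq]
    have hsin := Real.abs_sin_le_one (δ * Real.log T / 2 + δ * (Real.log m + Real.log n) / 2)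
    have hmm : |mu m| * |mu n| ≤ 1 := mul_le_one₀ (hmu m) (abs_nonneg _) (hmu n)
    calc |mu m| * |mu n| / Real.sqrt (m * n) *
          |Real.sin (δ * Real.log T / 2 + δ * (Real.log m + Real.log n) / 2)| *
          |WW T D (Real.log n - Real.log m)|
        ≤ 1 / Real.sqrt (m * n) * 1 * (4 / (Real.log n - Real.log m) ^ 2) := by
          gcongr
      _ = 0 + 0 + 4 * (1 / (Real.sqrt (m * n) * (Real.log n - Real.log m) ^ 2)) := by
          have : (Real.log n - Real.log m) ^ 2 ≠ 0 := pow_ne_zero _ hξ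
          field_simp
          ring

/-- the main theorem: no separation at almost all scales -/
theorem no_sep_half (hID : S_ID) (hNEAR : S_NEAR) (hLINE : S_LINE) (hAVJ : S_AVJ) (hCONT : S_CONT)
    (hAVMS : S_AVMS) (hWWB : S_WWB) (hPAIR : S_PAIR) (hDIAG : S_DIAG) (hNEARD : S_NEARD)
    (E : Set ℕ) (hE : Chow E) (C : ℝ) (hC : 0 ≤ C) :
    ∃ T0 : ℕ, ∀ T : ℕ, T0 ≤ T → T ∉ E → ¬ Sep (dc C T) T := by
  obtain ⟨B, hB, hA⟩ := averaged hID hNEAR hLINE hAVJ hCONT hAVMS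
  obtain ⟨B3, hB3, -, hP⟩ := hPAIR
  obtain ⟨c, B4, hc, hB4, hDi⟩ := hDIAG
  set K : ℝ := (16 * (B + 8 * B3 + 2) + B4 * (1 + C)) / c with hK
  have hK0 : 0 ≤ K := by positivity
  have hcK : c * K = 16 * (B + 8 * B3 + 2) + B4 * (1 + C) := by
    rw [hK]; field_simp
  obtain ⟨H, hH⟩ := exists_nat_ge (Real.exp (2 * K))
  have hH1 : 1 ≤ H := by
    have : (1 : ℝ) ≤ H := (Real.one_le_exp (by positivity)).trans hH
    exact_mod_cast this
  have hHpos : (0 : ℝ) < H := by exact_mod_cast hH1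
  obtain ⟨T1, hT1, h1⟩ := hA K hK0
  obtain ⟨T2, hT2, h2⟩ := hP K hK0 H hH1
  obtain ⟨T3, hT3, h3⟩ := hDi C K hC hK0
  obtain ⟨ε, hε, T4, h4⟩ := hNEARD K hK0 H hH1 1 one_pos
  choose T5 hT5 using fun h : ℕ => fun hh : 1 ≤ h => hE h hh K ε hK0 hε
  have ev : ∀ᶠ T : ℝ in atTop, 4 * C + 4 ≤ Real.log T :=
    Real.tendsto_log_atTop.eventually_ge_atTop _
  obtain ⟨T6, hT6⟩ := eventually_atTop.mp ev
  -- the threshold for the shifts
  have hT7 : ∃ T7 : ℕ, ∀ h : ℕ, ∀ hh : 1 ≤ h, h ≤ H → T5 h hh ≤ T7 := by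
    refine ⟨∑ h ∈ Finset.Icc 1 H, if hh : 1 ≤ h then T5 h hh else 0, fun h hh hhH => ?_⟩
    have := Finset.single_le_sum (f := fun h => if hh : 1 ≤ h then T5 h hh else 0)
      (fun _ _ => Nat.zero_le _) (Finset.mem_Icc.mpr ⟨hh, hhH⟩)
    simp only [dif_pos hh] at this
    exact this
  obtain ⟨T7, hT7⟩ := hT7
  obtain ⟨T8, hT8⟩ := exists_nat_ge (max (max T1 T2) (max T3 T6))
  refine ⟨T4 + T7 + T8, ?_⟩
  intro T hT hTE hS
  have hTr : ((T4 + T7 + T8 : ℕ) : ℝ) ≤ T := by exact_mod_cast hT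
  have hT8r : (T8 : ℝ) ≤ T := by
    have : ((T4 + T7 + T8 : ℕ) : ℝ) = T4 + T7 + T8 := by push_cast; ring
    have h' : (0 : ℝ) ≤ T4 := Nat.cast_nonneg _
    have h'' : (0 : ℝ) ≤ T7 := Nat.cast_nonneg _
    linarith
  have g1 : T1 ≤ T := ((le_max_left _ _).trans (le_max_left _ _)).trans (hT8.trans hT8r)
  have g2 : T2 ≤ T := ((le_max_right _ _).trans (le_max_left _ _)).trans (hT8.trans hT8r)
  have g3 : T3 ≤ T := ((le_max_left _ _).trans (le_max_right _ _)).trans (hT8.trans hT8r)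
  have g6 : T6 ≤ T := ((le_max_right _ _).trans (le_max_right _ _)).trans (hT8.trans hT8r)
  have hT100 : (100 : ℝ) ≤ T := hT1.trans g1
  have hlogC := hT6 T g6
  have hlog : 0 < Real.log T := by linarith
  have hpi := Real.pi_gt_three
  have hpi4 := Real.pi_lt_four
  -- the size of the distance
  have hδL : dc C T * Real.log T = Real.pi * (1 - C / Real.log T) := by
    unfold dc
    field_simp
  have hCL : C / Real.log T ≤ 1 / 4 := by
    rw [div_le_iff₀ hlog]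
    linarith
  have hCL0 : 0 ≤ C / Real.log T := by positivity
  have hδ2 : 2 ≤ dc C T * Real.log T := by
    rw [hδL]; nlinarith
  have hδ4 : dc C T * Real.log T ≤ 4 := by
    rw [hδL]; nlinarith
  have hδ0 : 0 < dc C T := by
    by_contra h
    push Not at h
    nlinarith
  -- the length
  set N := NK K T with hN
  have hNle : (N : ℝ) ≤ Real.exp K * T := Nat.floor_le (by positivity)
  have hN1 : 1 ≤ N := by
    apply Nat.le_floor
    rw [Nat.cast_one]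
    have := Real.one_le_exp hK0
    nlinarith
  have k1 := h1 T g1 (dc C T) hδ2 hδ4 hS N hN1 hNle
  have k2 := h2 T g2 N hNle
  have k3 := h3 T g3
  rw [← hN] at k3
  have k4 := h4 T (by omega) (fun h hh hhH x hx hx2 => hT5 h hh T (by
    have := hT7 h hh hhH
    omega) hTE x hx hx2) (dc C T) N hδ0 hδ4 hNle
  have hD0 := DD_pos (T := (T : ℝ)) (by linarith)
  have k5 := decomp hWWB T (DD T) (dc C T) (by linarith) hD0.le (DD_le (by linarith)) N H
  set S := ∑ m ∈ Finset.Icc 1 N, ∑ n ∈ Finset.Icc 1 N, TT T (DD T) (dc C T) m n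
  set S1 := ∑ n ∈ Finset.Icc 1 N, mu n ^ 2 / n *
        Real.sin (dc C T * Real.log T / 2 + dc C T * Real.log n)
  set S2 := ∑ m ∈ Finset.Icc 1 N, ∑ n ∈ Finset.Icc 1 N,
        (if m ≠ n ∧ (T : ℝ) < m ∧ (T : ℝ) < n ∧ m ≤ n + H ∧ n ≤ m + H then
          TT T (DD T) (dc C T) m n else 0)
  set S3 := ∑ m ∈ Finset.Icc 1 N, ∑ n ∈ Finset.Icc 1 N,
        (if m = n ∨ ((T : ℝ) < m ∧ (T : ℝ) < n ∧ m ≤ n + H ∧ n ≤ m + H) then 0 else
        1 / (Real.sqrt (m * n) * (Real.log n - Real.log m) ^ 2))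
  have hT2 : (0 : ℝ) < (T : ℝ) ^ 2 := by positivity
  have hS3 : S3 ≤ 2 * B3 * (T : ℝ) ^ 2 := by
    refine k2.trans ?_
    have : Real.exp (2 * K) / H ≤ 1 := by
      rw [div_le_one hHpos]
      exact hH
    have h6 : B3 * (1 + Real.exp (2 * K) / H) ≤ 2 * B3 := by nlinarith
    exact mul_le_mul_of_nonneg_right h6 hT2.le
  have hS2 := (abs_le.mp k4).2
  have hS1 : (T : ℝ) ^ 2 / 16 * S1 ≤ (T : ℝ) ^ 2 / 16 * (-(c * K) + B4 * (1 + C)) :=
    mul_le_mul_of_nonneg_left k3 (by positivity)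
  have hS1' : (T : ℝ) ^ 2 / 16 * (-(c * K) + B4 * (1 + C)) = -(B + 8 * B3 + 2) * (T : ℝ) ^ 2 := by
    rw [hcK]; ring
  nlinarith

end Pool.Agent.N806.HG
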