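import Pool.Agent.N806.HG.Stm
import Pool.Agent.H382R2.Vert
import Pool.Agent.H510R2.Div

/-!
Project HG (helper806), part NEAR: replacing `ζ A / ζ` by `A` on the line `Re s = 5/2`.
-/

set_option autoImplicit false

open Complex Filter Topology Set MeasureTheory

namespace Pool.Agent.N806.HG

open SG SG.Vert

namespace NEARM

/-- the error `ζ(s - h) A(s - h) / ζ(s + h) - A(s + h)` -/
noncomputable def Rf (δ : ℝ) (N : ℕ) (s : ℂ) : ℂ :=
  riemannZeta (s - hh δ) * AA N (s - hh δ) / riemannZeta (s + hh δ) - AA N (s + hh δ)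

/-- the reflected polynomial -/
noncomputable def As (δ : ℝ) (N : ℕ) (s : ℂ) : ℂ := AA N (1 - (s - hh δ))

/-- the near part of the Dirichlet series of `Rf` -/
noncomputable def Rn (c : ℕ → ℂ) (N M : ℕ) (s : ℂ) : ℂ :=
  ∑ n ∈ Finset.Ioc N M, c n * (n : ℂ) ^ (-s)

theorem As_diff (δ : ℝ) (N : ℕ) : Differentiable ℂ (As δ N) := by
  unfold As
  intro s
  apply DifferentiableAt.comp s (g := AA N) (f := fun s => 1 - (s - hh δ))
  · exact AA_diff N _
  · fun_prop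

theorem Rn_diff (c : ℕ → ℂ) (N M : ℕ) : Differentiable ℂ (Rn c N M) := by
  unfold Rn
  apply Differentiable.fun_sum
  intro n hn
  have h1 : (n : ℂ) ≠ 0 := by
    have := (Finset.mem_Ioc.mp hn).1
    exact_mod_cast (by omega : n ≠ 0)
  apply Differentiable.const_mul
  intro s
  exact (differentiableAt_id.neg).const_cpow (Or.inl h1)

theorem Rf_diff (δ : ℝ) (N : ℕ) (s : ℂ) (hs : 2 ≤ s.re) : DifferentiableAt ℂ (Rf δ N) s := by
  unfold Rf
  have hre : 2 ≤ (s + hh δ).re := by simp [hh_re, hs]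
  have hre' : 2 ≤ (s - hh δ).re := by simp [hh_re, hs]
  have h1 : DifferentiableAt ℂ (fun s => riemannZeta (s - hh δ)) s := by
    apply DifferentiableAt.comp s (g := riemannZeta) (f := fun s => s - hh δ)
    · exact differentiableAt_riemannZeta (ne_one_of_re hre')
    · fun_prop
  have h2 : DifferentiableAt ℂ (fun s => AA N (s - hh δ)) s := by
    apply DifferentiableAt.comp s (g := AA N) (f := fun s => s - hh δ)
    · exact AA_diff N _
    · fun_prop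
  have h3 : DifferentiableAt ℂ (fun s => riemannZeta (s + hh δ)) s := by
    apply DifferentiableAt.comp s (g := riemannZeta) (f := fun s => s + hh δ)
    · exact differentiableAt_riemannZeta (ne_one_of_re hre)
    · fun_prop
  have h4 : DifferentiableAt ℂ (fun s => AA N (s + hh δ)) s := by
    apply DifferentiableAt.comp s (g := AA N) (f := fun s => s + hh δ)
    · exact AA_diff N _
    · fun_prop
  exact ((h1.mul h2).div h3 (zeta_inv_bound _ hre).1).sub h4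

theorem an_of_diff {F : ℂ → ℂ} (h : ∀ s : ℂ, 2 ≤ s.re → DifferentiableAt ℂ F s) (s : ℂ)
    (hs : 5 / 2 ≤ s.re) : AnalyticAt ℂ F s := by
  have hopen : IsOpen {z : ℂ | 2 < z.re} := isOpen_lt continuous_const Complex.continuous_re
  have hd : DifferentiableOn ℂ F {z : ℂ | 2 < z.re} := fun z hz =>
    (h z (le_of_lt hz)).differentiableWithinAt
  exact hd.analyticAt (hopen.mem_nhds (by show 2 < s.re; linarith))

theorem XXYY (t0 D δ : ℝ) (N : ℕ) (s : ℂ) :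
    XX t0 D δ N s - YY t0 D δ N s = phi t0 D s * rr δ s * (Rf δ N s * As δ N s) := by
  unfold XX YY Rf As
  ring

theorem As_bound (δ : ℝ) (N : ℕ) (s : ℂ) (hs : 5 / 2 ≤ s.re) : ‖As δ N s‖ ≤ (N : ℝ) ^ s.re := by
  have := AA_bound' N (s - hh δ) (by simp [hh_re]; linarith)
  simpa [As, hh_re] using this

/-- first decay -/
theorem dec1 (δ : ℝ) (N N1 : ℕ) (c : ℕ → ℂ)
    (hc : ∀ M : ℕ, N ≤ M → ∀ s : ℂ, 5 / 2 ≤ s.re →
      ‖Rf δ N s - Rn c N M s‖ ≤ 16 * ((M : ℝ) + 1) ^ (5 / 2 - s.re)) (r : ℝ) (hr : 0 < r)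
    (hN1 : (N1 : ℝ) ≤ ((N : ℝ) + 1) * r) (s : ℂ) (hs : 5 / 2 ≤ s.re) :
    ‖Rf δ N s * As δ N1 s‖ ≤ 16 * ((N : ℝ) + 1) ^ (5 / 2 : ℝ) * r ^ s.re := by
  have h1 := hc N le_rfl s hs
  have h0 : Rn c N N s = 0 := by simp [Rn]
  rw [h0, sub_zero] at h1
  have h2 := As_bound δ N1 s hs
  have h3 : (N1 : ℝ) ^ s.re ≤ ((N : ℝ) + 1) ^ s.re * r ^ s.re := by
    rw [← Real.mul_rpow (by positivity) hr.le]
    exact Real.rpow_le_rpow (by positivity) hN1 (by linarith)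
  rw [norm_mul]
  calc _ ≤ (16 * ((N : ℝ) + 1) ^ (5 / 2 - s.re)) * (((N : ℝ) + 1) ^ s.re * r ^ s.re) := by
        gcongr
        exact h2.trans h3
    _ = 16 * (((N : ℝ) + 1) ^ (5 / 2 - s.re) * ((N : ℝ) + 1) ^ s.re) * r ^ s.re := by ring
    _ = _ := by
        rw [← Real.rpow_add (by positivity)]
        congr 3
        ring

/-- second decay -/
theorem dec2 (δ : ℝ) (N N1 N2 : ℕ) (c : ℕ → ℂ)
    (hc : ∀ M : ℕ, N ≤ M → ∀ s : ℂ, 5 / 2 ≤ s.re →
      ‖Rf δ N s - Rn c N M s‖ ≤ 16 * ((M : ℝ) + 1) ^ (5 / 2 - s.re)) (r : ℝ) (hr : 0 < r)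
    (hN12 : N1 ≤ N) (hN2 : N ≤ N2)
    (hN : (N : ℝ) ≤ ((N2 : ℝ) + 1) * r) (s : ℂ) (hs : 5 / 2 ≤ s.re) :
    ‖(Rf δ N s - Rn c N N2 s) * (As δ N s - As δ N1 s)‖ ≤
      32 * ((N2 : ℝ) + 1) ^ (5 / 2 : ℝ) * r ^ s.re := by
  have h1 := hc N2 hN2 s hs
  have h2 : ‖As δ N s - As δ N1 s‖ ≤ 2 * (N : ℝ) ^ s.re := by
    have a1 := As_bound δ N s hs
    have a2 := As_bound δ N1 s hs
    have a3 : (N1 : ℝ) ^ s.re ≤ (N : ℝ) ^ s.re :=
      Real.rpow_le_rpow (by positivity) (by exact_mod_cast hN12) (by linarith)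
    have := norm_sub_le (As δ N s) (As δ N1 s)
    linarith
  have h3 : (N : ℝ) ^ s.re ≤ ((N2 : ℝ) + 1) ^ s.re * r ^ s.re := by
    rw [← Real.mul_rpow (by positivity) hr.le]
    exact Real.rpow_le_rpow (by positivity) hN (by linarith)
  rw [norm_mul]
  calc _ ≤ (16 * ((N2 : ℝ) + 1) ^ (5 / 2 - s.re)) * (2 * (((N2 : ℝ) + 1) ^ s.re * r ^ s.re)) := by
        gcongr
        linarith
    _ = 32 * (((N2 : ℝ) + 1) ^ (5 / 2 - s.re) * ((N2 : ℝ) + 1) ^ s.re) * r ^ s.re := by ring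
    _ = _ := by
        rw [← Real.rpow_add (by positivity)]
        congr 3
        ring

/-- the near part on the line -/
theorem near (δ C : ℝ) (N N1 N2 : ℕ) (c : ℕ → ℂ) (hN1 : 1 ≤ N) (hN12 : N1 ≤ N)
    (hN2 : N ≤ N2) (hN2' : N2 ≤ 2 * N)
    (hd : ∀ n : ℕ, 1 ≤ n → (n.divisors.card : ℝ) ≤ C * (n : ℝ) ^ (1 / 4 : ℝ))
    (hc : ∀ n, ‖c n‖ ≤ (n.divisors.card : ℝ) ^ 2) (t : ℝ) :
    ‖Rn c N N2 (⟨5 / 2, t⟩ : ℂ) * (As δ N (⟨5 / 2, t⟩ : ℂ) - As δ N1 (⟨5 / 2, t⟩ : ℂ))‖ ≤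
      2 * C ^ 2 * (((N2 : ℝ) - N) * ((N : ℝ) - N1) * (N : ℝ) ^ (-(1 / 2) : ℝ)) := by
  have hN0 : (0 : ℝ) < N := by exact_mod_cast hN1
  have h1 : ‖Rn c N N2 (⟨5 / 2, t⟩ : ℂ)‖ ≤ ((N2 : ℝ) - N) * (C ^ 2 * 2 * (N : ℝ) ^ (-2 : ℝ)) := by
    unfold Rn
    calc _ ≤ ∑ n ∈ Finset.Ioc N N2, (C ^ 2 * 2 * (N : ℝ) ^ (-2 : ℝ)) := by
          apply norm_sum_le_of_le
          intro n hn
          rw [Finset.mem_Ioc] at hn
          have hn1 : 1 ≤ n := by omega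
          have hn0 : (0 : ℝ) < n := by exact_mod_cast hn1
          rw [norm_mul, Complex.norm_natCast_cpow_of_pos hn1]
          have e1 : (-(⟨5 / 2, t⟩ : ℂ)).re = -(5 / 2) := by simp
          rw [e1]
          have a1 : ‖c n‖ ≤ C ^ 2 * (n : ℝ) ^ (1 / 2 : ℝ) := by
            refine (hc n).trans ?_
            calc (n.divisors.card : ℝ) ^ 2 ≤ (C * (n : ℝ) ^ (1 / 4 : ℝ)) ^ 2 :=
                  pow_le_pow_left₀ (by positivity) (hd n hn1) 2
              _ = C ^ 2 * ((n : ℝ) ^ (1 / 4 : ℝ) * (n : ℝ) ^ (1 / 4 : ℝ)) := by ring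
              _ = _ := by
                  rw [← Real.rpow_add hn0]
                  norm_num
          have hNn : (N : ℝ) ≤ n := by exact_mod_cast hn.1.le
          calc _ ≤ C ^ 2 * (n : ℝ) ^ (1 / 2 : ℝ) * (n : ℝ) ^ (-(5 / 2) : ℝ) := by gcongr
            _ = C ^ 2 * ((n : ℝ) ^ (1 / 2 : ℝ) * (n : ℝ) ^ (-(5 / 2) : ℝ)) := by ring
            _ = C ^ 2 * (n : ℝ) ^ (-2 : ℝ) := by
                rw [← Real.rpow_add hn0]
                norm_num
            _ ≤ C ^ 2 * (N : ℝ) ^ (-2 : ℝ) := by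
                apply mul_le_mul_of_nonneg_left _ (by positivity)
                exact Real.rpow_le_rpow_of_nonpos hN0 hNn (by norm_num)
            _ ≤ C ^ 2 * 2 * (N : ℝ) ^ (-2 : ℝ) := by
                have : 0 ≤ C ^ 2 * (N : ℝ) ^ (-2 : ℝ) := by positivity
                nlinarith
      _ = _ := by
          rw [Finset.sum_const, Nat.card_Ioc, nsmul_eq_mul, Nat.cast_sub hN2]
  have h2 : ‖As δ N (⟨5 / 2, t⟩ : ℂ) - As δ N1 (⟨5 / 2, t⟩ : ℂ)‖ ≤
      ((N : ℝ) - N1) * (N : ℝ) ^ (3 / 2 : ℝ) := by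
    unfold As AA
    have hsub : Finset.Icc 1 N1 ⊆ Finset.Icc 1 N := Finset.Icc_subset_Icc le_rfl hN12
    rw [← Finset.sum_sdiff hsub, add_sub_cancel_right]
    calc _ ≤ ∑ n ∈ Finset.Icc 1 N \ Finset.Icc 1 N1, (N : ℝ) ^ (3 / 2 : ℝ) := by
          apply norm_sum_le_of_le
          intro n hn
          rw [Finset.mem_sdiff, Finset.mem_Icc] at hn
          have hn1 : 1 ≤ n := hn.1.1
          have hn0 : (0 : ℝ) < n := by exact_mod_cast hn1
          rw [norm_mul, Complex.norm_natCast_cpow_of_pos hn1]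
          have e1 : (-(1 - ((⟨5 / 2, t⟩ : ℂ) - hh δ))).re = 3 / 2 := by
            simp [hh_re]
            norm_num
          rw [e1]
          have hμ : ‖((ArithmeticFunction.moebius n : ℤ) : ℂ)‖ ≤ 1 := by
            rw [Complex.norm_intCast]
            exact_mod_cast ArithmeticFunction.abs_moebius_le_one
          calc _ ≤ 1 * (n : ℝ) ^ (3 / 2 : ℝ) := by gcongr
            _ ≤ _ := by
                rw [one_mul]
                exact Real.rpow_le_rpow hn0.le (by exact_mod_cast hn.1.2) (by norm_num)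
      _ = _ := by
          rw [Finset.sum_const, Finset.card_sdiff_of_subset hsub, Nat.card_Icc, Nat.card_Icc,
            nsmul_eq_mul]
          congr 1
          have : N + 1 - 1 - (N1 + 1 - 1) = N - N1 := by omega
          rw [this, Nat.cast_sub hN12]
  rw [norm_mul]
  have hN2r : (0 : ℝ) ≤ (N2 : ℝ) - N := by
    have : (N : ℝ) ≤ N2 := by exact_mod_cast hN2
    linarith
  have hN1r : (0 : ℝ) ≤ (N : ℝ) - N1 := by
    have : (N1 : ℝ) ≤ N := by exact_mod_cast hN12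
    linarith
  calc _ ≤ (((N2 : ℝ) - N) * (C ^ 2 * 2 * (N : ℝ) ^ (-2 : ℝ))) *
        (((N : ℝ) - N1) * (N : ℝ) ^ (3 / 2 : ℝ)) := by gcongr
    _ = 2 * C ^ 2 * (((N2 : ℝ) - N) * ((N : ℝ) - N1) *
        ((N : ℝ) ^ (-2 : ℝ) * (N : ℝ) ^ (3 / 2 : ℝ))) := by ring
    _ = _ := by
        rw [← Real.rpow_add hN0]
        norm_num

/-- integral of the Gaussian over the line -/
theorem phi_int' (t0 D : ℝ) (hD1 : 1 ≤ D) (U1 U2 : ℝ) (h1 : U1 ≤ U2) :
    ∫ t in U1..U2, ‖phi t0 D (⟨5 / 2, t⟩ : ℂ)‖ ≤ 20 * D := by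
  have hD : 0 < D := by linarith
  have e1 : ∀ t : ℝ, ‖phi t0 D (⟨5 / 2, t⟩ : ℂ)‖ =
      Real.exp (4 / (2 * D ^ 2)) * Real.exp (-(t - t0) ^ 2 / (2 * D ^ 2)) := by
    intro t
    rw [phi_norm t0 D hD, ← Real.exp_add]
    congr 1
    simp only
    ring
  have hint := SG.Deep.gauss_integrable D t0 hD
  simp_rw [e1]
  rw [intervalIntegral.integral_const_mul]
  have h2 : ∫ t in U1..U2, Real.exp (-(t - t0) ^ 2 / (2 * D ^ 2)) ≤ D * Real.sqrt (2 * Real.pi) := by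
    rw [← SG.Deep.gauss_integral D t0 hD, intervalIntegral.integral_of_le h1]
    exact setIntegral_le_integral hint (ae_of_all _ fun t => (Real.exp_pos _).le)
  have h3 : Real.exp (4 / (2 * D ^ 2)) ≤ Real.exp 2 := by
    apply Real.exp_le_exp.mpr
    rw [div_le_iff₀ (by positivity)]
    nlinarith
  have h4 : Real.exp 2 ≤ 7.39 := by
    have := Real.exp_one_lt_d9
    have h5 : Real.exp 2 = Real.exp 1 * Real.exp 1 := by
      rw [← Real.exp_add]
      norm_num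
    rw [h5]
    have h6 := Real.exp_pos 1
    nlinarith
  have h5 : Real.sqrt (2 * Real.pi) ≤ 2.51 := by
    rw [Real.sqrt_le_left (by norm_num)]
    have := Real.pi_lt_d2
    norm_num at this ⊢
    linarith
  have h6 : 0 ≤ Real.sqrt (2 * Real.pi) := Real.sqrt_nonneg _
  calc _ ≤ Real.exp (4 / (2 * D ^ 2)) * (D * Real.sqrt (2 * Real.pi)) :=
        mul_le_mul_of_nonneg_left h2 (Real.exp_pos _).le
    _ ≤ 7.39 * (D * 2.51) := by
        apply mul_le_mul (h3.trans h4) _ (by positivity) (by norm_num)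
        exact mul_le_mul_of_nonneg_left h5 hD.le
    _ ≤ 20 * D := by nlinarith

/-- domination by the Gaussian -/
theorem dom' (t0 D : ℝ) (hD1 : 1 ≤ D) (U1 U2 K : ℝ) (hK : 0 ≤ K) (h12 : U1 ≤ U2) (f : ℝ → ℂ)
    (hf : ∀ t, U1 ≤ t → t ≤ U2 → ‖f t‖ ≤ K * ‖phi t0 D (⟨5 / 2, t⟩ : ℂ)‖) :
    ‖∫ t in U1..U2, f t‖ ≤ K * (20 * D) := by
  have hc : Continuous (fun t : ℝ => K * ‖phi t0 D (⟨5 / 2, t⟩ : ℂ)‖) :=
    continuous_const.mul ((phi_cont _ _).comp line_cont).norm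
  have h1 := intervalIntegral.norm_integral_le_of_norm_le h12
    (f := f) (g := fun t => K * ‖phi t0 D (⟨5 / 2, t⟩ : ℂ)‖) (μ := volume)
    (Eventually.of_forall fun t ht => hf t (le_of_lt ht.1) ht.2) (hc.intervalIntegrable _ _)
  refine h1.trans ?_
  rw [intervalIntegral.integral_const_mul]
  exact mul_le_mul_of_nonneg_left (phi_int' t0 D hD1 U1 U2 h12) hK

/-- the parameters for large `T` -/
theorem params (K ε B C : ℝ) (hε : 0 < ε) (hB : 1 ≤ B) (hC : 0 < C) :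
    ∃ T0 : ℝ, 100 ≤ T0 ∧ ∀ T : ℝ, T0 ≤ T →
      0 < Real.log T ^ 2 / DD T ∧ Real.log T ^ 2 / DD T ≤ 1 / 2 ∧ 1 ≤ DD T ∧
      2 ≤ ε / 2 * DD T ∧ Real.exp K ≤ T / 4 ∧ 44 ≤ Real.log T ∧
      ∀ M : ℝ, 1 ≤ M → M ≤ Real.exp K * T →
        B * (2 * C ^ 2 * ((Real.log T ^ 2 / DD T * M) * (Real.log T ^ 2 / DD T * M + 1) *
          M ^ (-(1 / 2) : ℝ))) * 20 ≤ ε / 2 := by
  have ev1 : ∀ᶠ T : ℝ in atTop, Real.log T ^ 2 ≤ T ^ (1 / 32 : ℝ) := by
    have h1 : (fun x : ℝ => Real.log x ^ (2 : ℝ)) =o[atTop] fun x => x ^ (1 / 32 : ℝ) :=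
      isLittleO_log_rpow_rpow_atTop 2 (by positivity)
    filter_upwards [h1.bound (show (0 : ℝ) < 1 by positivity), eventually_ge_atTop 1] with T h4 h6
    have hlog : 0 ≤ Real.log T := Real.log_nonneg h6
    rw [Real.norm_eq_abs, Real.norm_eq_abs, abs_of_nonneg (Real.rpow_nonneg hlog _),
      abs_of_nonneg (Real.rpow_nonneg (by linarith) _)] at h4
    have h7 : Real.log T ^ (2 : ℝ) = Real.log T ^ 2 := by
      rw [← Real.rpow_natCast]
      norm_num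
    rw [h7] at h4
    linarith
  have ev2 : ∀ᶠ T : ℝ in atTop, max 1 (2 * 2 / ε) ≤ DD T := by
    have : Tendsto (fun T : ℝ => DD T) atTop atTop :=
      tendsto_rpow_atTop (show 0 < 1 - (1 / 4 : ℝ) / 2 by norm_num)
    exact this.eventually_ge_atTop _
  have ev3 : ∀ᶠ T : ℝ in atTop, 44 ≤ Real.log T := Real.tendsto_log_atTop.eventually_ge_atTop _
  have ev4 : ∀ᶠ T : ℝ in atTop, 160 * B * C ^ 2 * Real.exp (2 * |K|) / ε ≤ T ^ (3 / 16 : ℝ) :=
    (tendsto_rpow_atTop (show (0 : ℝ) < 3 / 16 by norm_num)).eventually_ge_atTop _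
  have ev5 : ∀ᶠ T : ℝ in atTop, 2 ≤ T ^ (3 / 4 : ℝ) :=
    (tendsto_rpow_atTop (show (0 : ℝ) < 3 / 4 by norm_num)).eventually_ge_atTop _
  have ev := ev1.and (ev2.and (ev3.and (ev4.and (ev5.and (eventually_ge_atTop (4 * Real.exp K))))))
  obtain ⟨T0, hT0⟩ := eventually_atTop.mp ev
  refine ⟨max T0 100, le_max_right _ _, ?_⟩
  intro T hT
  obtain ⟨h1, h2, h3, h4, h5, h6⟩ := hT0 T ((le_max_left _ _).trans hT)
  have hT100 : 100 ≤ T := (le_max_right _ _).trans hT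
  have hTpos : 0 < T := by linarith
  have hD1 : 1 ≤ DD T := (le_max_left _ _).trans h2
  have hD2 : 2 * 2 / ε ≤ DD T := (le_max_right _ _).trans h2
  have hD0 : 0 < DD T := by linarith
  have hL0 : 0 < Real.log T := by linarith
  have hDD : DD T = T ^ (7 / 8 : ℝ) := by
    unfold DD dd
    norm_num
  have hx : Real.log T ^ 2 / DD T ≤ T ^ (-(27 / 32) : ℝ) := by
    rw [div_le_iff₀ hD0, hDD, ← Real.rpow_add hTpos]
    norm_num
    exact h1
  have hx0 : 0 < Real.log T ^ 2 / DD T := by positivity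
  set x := Real.log T ^ 2 / DD T with hxdef
  have hE1 : (1 : ℝ) ≤ Real.exp |K| := Real.one_le_exp (abs_nonneg _)
  have hEK : Real.exp K ≤ Real.exp |K| := Real.exp_le_exp.mpr (le_abs_self _)
  refine ⟨hx0, ?_, hD1, ?_, by linarith, h3, ?_⟩
  · refine hx.trans ?_
    have a1 : T ^ (-(27 / 32) : ℝ) ≤ T ^ (-(3 / 4) : ℝ) :=
      Real.rpow_le_rpow_of_exponent_le (by linarith) (by norm_num)
    refine a1.trans ?_
    rw [Real.rpow_neg hTpos.le, one_div]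
    exact inv_anti₀ (by norm_num) h5
  · rw [div_le_iff₀ hε] at hD2
    linarith
  · intro M hM1 hM
    have hM0 : 0 < M := by linarith
    have hM' : M ≤ Real.exp |K| * T := hM.trans (mul_le_mul_of_nonneg_right hEK hTpos.le)
    -- `x M M^(-1/2) = x M^(1/2)`
    have e1 : x * M * (x * M + 1) * M ^ (-(1 / 2) : ℝ) =
        x ^ 2 * M ^ (3 / 2 : ℝ) + x * M ^ (1 / 2 : ℝ) := by
      have b1 : M * M ^ (-(1 / 2) : ℝ) = M ^ (1 / 2 : ℝ) := by
        nth_rewrite 1 [← Real.rpow_one M]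
        rw [← Real.rpow_add hM0]
        norm_num
      have b2 : M * M ^ (1 / 2 : ℝ) = M ^ (3 / 2 : ℝ) := by
        nth_rewrite 1 [← Real.rpow_one M]
        rw [← Real.rpow_add hM0]
        norm_num
      calc _ = x ^ 2 * (M * (M * M ^ (-(1 / 2) : ℝ))) + x * (M * M ^ (-(1 / 2) : ℝ)) := by ring
        _ = _ := by rw [b1, b2]
    rw [e1]
    have c1 : M ^ (3 / 2 : ℝ) ≤ Real.exp (2 * |K|) * T ^ (3 / 2 : ℝ) := by
      calc M ^ (3 / 2 : ℝ) ≤ (Real.exp |K| * T) ^ (3 / 2 : ℝ) :=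
            Real.rpow_le_rpow hM0.le hM' (by norm_num)
        _ = (Real.exp |K|) ^ (3 / 2 : ℝ) * T ^ (3 / 2 : ℝ) :=
            Real.mul_rpow (by positivity) hTpos.le
        _ ≤ (Real.exp |K|) ^ (2 : ℝ) * T ^ (3 / 2 : ℝ) := by
            apply mul_le_mul_of_nonneg_right _ (by positivity)
            exact Real.rpow_le_rpow_of_exponent_le hE1 (by norm_num)
        _ = _ := by
            rw [← Real.exp_mul]
            ring_nf
    have c2 : M ^ (1 / 2 : ℝ) ≤ Real.exp (2 * |K|) * T ^ (1 / 2 : ℝ) := by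
      calc M ^ (1 / 2 : ℝ) ≤ (Real.exp |K| * T) ^ (1 / 2 : ℝ) :=
            Real.rpow_le_rpow hM0.le hM' (by norm_num)
        _ = (Real.exp |K|) ^ (1 / 2 : ℝ) * T ^ (1 / 2 : ℝ) :=
            Real.mul_rpow (by positivity) hTpos.le
        _ ≤ (Real.exp |K|) ^ (2 : ℝ) * T ^ (1 / 2 : ℝ) := by
            apply mul_le_mul_of_nonneg_right _ (by positivity)
            exact Real.rpow_le_rpow_of_exponent_le hE1 (by norm_num)
        _ = _ := by
            rw [← Real.exp_mul]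
            ring_nf
    have d1 : x ^ 2 * M ^ (3 / 2 : ℝ) ≤ Real.exp (2 * |K|) * T ^ (-(3 / 16) : ℝ) := by
      calc _ ≤ (T ^ (-(27 / 32) : ℝ)) ^ 2 * (Real.exp (2 * |K|) * T ^ (3 / 2 : ℝ)) := by gcongr
        _ = Real.exp (2 * |K|) * (T ^ (-(27 / 32) : ℝ) * T ^ (-(27 / 32) : ℝ) *
              T ^ (3 / 2 : ℝ)) := by ring
        _ = _ := by
            rw [← Real.rpow_add hTpos, ← Real.rpow_add hTpos]
            norm_num
    have d2 : x * M ^ (1 / 2 : ℝ) ≤ Real.exp (2 * |K|) * T ^ (-(3 / 16) : ℝ) := by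
      calc _ ≤ T ^ (-(27 / 32) : ℝ) * (Real.exp (2 * |K|) * T ^ (1 / 2 : ℝ)) := by gcongr
        _ = Real.exp (2 * |K|) * (T ^ (-(27 / 32) : ℝ) * T ^ (1 / 2 : ℝ)) := by ring
        _ = Real.exp (2 * |K|) * T ^ (-(27 / 32) + 1 / 2 : ℝ) := by
            rw [← Real.rpow_add hTpos]
        _ ≤ _ := by
            apply mul_le_mul_of_nonneg_left _ (by positivity)
            exact Real.rpow_le_rpow_of_exponent_le (by linarith) (by norm_num)
    have f1 : Real.exp (2 * |K|) * T ^ (-(3 / 16) : ℝ) * (160 * B * C ^ 2) ≤ ε := by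
      rw [Real.rpow_neg hTpos.le]
      rw [div_le_iff₀ hε] at h4
      have hp : 0 < T ^ (3 / 16 : ℝ) := by positivity
      rw [show Real.exp (2 * |K|) * (T ^ (3 / 16 : ℝ))⁻¹ * (160 * B * C ^ 2) =
        (160 * B * C ^ 2 * Real.exp (2 * |K|)) / T ^ (3 / 16 : ℝ) by field_simp]
      rw [div_le_iff₀ hp]
      linarith
    calc _ ≤ B * (2 * C ^ 2 * (Real.exp (2 * |K|) * T ^ (-(3 / 16) : ℝ) +
          Real.exp (2 * |K|) * T ^ (-(3 / 16) : ℝ))) * 20 := by gcongr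
      _ = (Real.exp (2 * |K|) * T ^ (-(3 / 16) : ℝ) * (160 * B * C ^ 2)) / 2 := by ring
      _ ≤ _ := by linarith

end NEARM

open NEARM in
/-- **NEAR** -/
theorem p_NEAR (hrr : S_RRB) (hd : S_DEEP) (ht : S_TAIL) : S_NEAR := by
  intro K ε _ hε
  obtain ⟨B, Ta, hB, hTa, hrr⟩ := hrr
  obtain ⟨Tb, hTb, hdeep⟩ := hd
  obtain ⟨C, hC, hdiv⟩ := Pool.Agent.H510R2.divisor_bound (1 / 4) (by norm_num)
  obtain ⟨Tc, hTc, hpar⟩ := params K ε B C hε hB hC
  refine ⟨max Ta (max Tb Tc), le_trans hTa (le_max_left _ _), ?_⟩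
  intro T hT δ t0 U1 U2 hδ0 hδ4 hcen hwin N hN1 hN
  have hTa' : Ta ≤ T := (le_max_left _ _).trans hT
  have hTb' : Tb ≤ T := (le_max_left _ _).trans ((le_max_right _ _).trans hT)
  have hTc' : Tc ≤ T := (le_max_right _ _).trans ((le_max_right _ _).trans hT)
  obtain ⟨hx0, hx2, hD1, hεD, hEK, hL44, hM⟩ := hpar T hTc'
  set x := Real.log T ^ 2 / DD T with hx
  have hT100 : 100 ≤ T := hTc.trans hTc'
  have hTpos : 0 < T := by linarith
  have hD0 : 0 < DD T := by linarith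
  have hL0 : 0 < Real.log T := by linarith
  have hδ1 : δ ≤ 1 := by
    by_contra h
    push Not at h
    nlinarith
  have hδabs : |δ| ≤ 1 := by rwa [abs_of_pos hδ0]
  have hNr1 : (1 : ℝ) ≤ N := by exact_mod_cast hN1
  have hN0 : (0 : ℝ) < N := by linarith
  obtain ⟨hU1, hU1', hU2, hU2'⟩ := id hwin
  have h12 : U1 ≤ U2 := by linarith
  obtain ⟨c, hc1, hc2⟩ := ht δ N hN1
  have hc2' : ∀ M : ℕ, N ≤ M → ∀ s : ℂ, 5 / 2 ≤ s.re →
      ‖Rf δ N s - Rn c N M s‖ ≤ 16 * ((M : ℝ) + 1) ^ (5 / 2 - s.re) := hc2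
  -- the truncations
  set N1 : ℕ := ⌊(N : ℝ) * (1 - x)⌋₊ with hN1def
  set N2 : ℕ := ⌊(N : ℝ) * (1 + x)⌋₊ with hN2def
  have hN1le : (N1 : ℝ) ≤ N * (1 - x) := Nat.floor_le (by nlinarith)
  have hN1gt : (N : ℝ) * (1 - x) < N1 + 1 := Nat.lt_floor_add_one _
  have hN2le : (N2 : ℝ) ≤ N * (1 + x) := Nat.floor_le (by positivity)
  have hN2gt : (N : ℝ) * (1 + x) < N2 + 1 := Nat.lt_floor_add_one _
  have hN1N : N1 ≤ N := by
    have : (N1 : ℝ) ≤ N := by nlinarith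
    exact_mod_cast this
  have hNN2 : N ≤ N2 := Nat.le_floor (by nlinarith)
  have hN2N : N2 ≤ 2 * N := by
    have : (N2 : ℝ) ≤ 2 * N := by nlinarith
    exact_mod_cast this
  have hNT : (N : ℝ) ≤ T ^ 2 / 4 := by
    calc (N : ℝ) ≤ Real.exp K * T := hN
      _ ≤ T / 4 * T := by gcongr
      _ = T ^ 2 / 4 := by ring
  have hT3 : 1 ≤ T ^ 2 / 4 := by nlinarith
  -- powers of T
  have hTpow : ∀ y : ℝ, 0 ≤ y → y ≤ T ^ 2 → 32 * y ^ (5 / 2 : ℝ) ≤ T ^ (20 : ℝ) := by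
    intro y hy0 hy
    have a1 : y ^ (5 / 2 : ℝ) ≤ T ^ (5 : ℝ) := by
      calc y ^ (5 / 2 : ℝ) ≤ (T ^ 2) ^ (5 / 2 : ℝ) := Real.rpow_le_rpow hy0 hy (by norm_num)
        _ = _ := by
            rw [← Real.rpow_natCast, ← Real.rpow_mul hTpos.le]
            norm_num
    calc 32 * y ^ (5 / 2 : ℝ) ≤ T ^ (1 : ℝ) * T ^ (5 : ℝ) := by
          rw [Real.rpow_one]
          gcongr
          linarith
      _ = T ^ (6 : ℝ) := by rw [← Real.rpow_add hTpos]; norm_num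
      _ ≤ _ := Real.rpow_le_rpow_of_exponent_le (by linarith) (by norm_num)
  have hxD : x * DD T = Real.log T ^ 2 := by
    rw [hx]
    field_simp
  -- the three pieces
  set F1 : ℂ → ℂ := fun s => Rf δ N s * As δ N1 s with hF1
  set F2 : ℂ → ℂ := fun s => (Rf δ N s - Rn c N N2 s) * (As δ N s - As δ N1 s) with hF2
  set F3 : ℂ → ℂ := fun s => Rn c N N2 s * (As δ N s - As δ N1 s) with hF3
  have anF1 : ∀ s : ℂ, 5 / 2 ≤ s.re → AnalyticAt ℂ F1 s := an_of_diff fun s hs =>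
    (Rf_diff δ N s hs).mul (As_diff δ N1 s)
  have anF2 : ∀ s : ℂ, 5 / 2 ≤ s.re → AnalyticAt ℂ F2 s := an_of_diff fun s hs =>
    ((Rf_diff δ N s hs).sub (Rn_diff c N N2 s)).mul ((As_diff δ N s).sub (As_diff δ N1 s))
  have anF3 : ∀ s : ℂ, 5 / 2 ≤ s.re → AnalyticAt ℂ F3 s := an_of_diff fun s _ =>
    (Rn_diff c N N2 s).mul ((As_diff δ N s).sub (As_diff δ N1 s))
  have hI1 : ‖∫ t in U1..U2, phi t0 (DD T) (⟨5 / 2, t⟩ : ℂ) * rr δ (⟨5 / 2, t⟩ : ℂ) *
      F1 (⟨5 / 2, t⟩ : ℂ)‖ ≤ 1 := by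
    apply hdeep T hTb' δ t0 U1 U2 (1 - x) hδ0 hδ4 hcen hwin (by linarith) (by linarith) ?_ F1
      (fun s hs _ => anF1 s hs)
    · intro s hs _
      have h1 := dec1 δ N N1 c hc2' (1 - x) (by linarith) (by nlinarith) s hs
      have h2 := hTpow ((N : ℝ) + 1) (by positivity) (by nlinarith)
      have h3 : 0 ≤ ((N : ℝ) + 1) ^ (5 / 2 : ℝ) := by positivity
      have h4 : 0 ≤ (1 - x) ^ s.re := Real.rpow_nonneg (by linarith) _
      refine h1.trans ?_
      apply mul_le_mul_of_nonneg_right _ h4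
      linarith
    · have h1 : 1 - x ≤ Real.exp (-x) := by
        have := Real.add_one_le_exp (-x)
        linarith
      calc (1 - x) ^ DD T ≤ (Real.exp (-x)) ^ DD T :=
            Real.rpow_le_rpow (by linarith) h1 hD0.le
        _ = Real.exp (-(Real.log T ^ 2)) := by
            rw [← Real.exp_mul, ← hxD]
            ring_nf
        _ ≤ _ := by
            apply Real.exp_le_exp.mpr
            nlinarith [sq_nonneg (Real.log T)]
  have hI2 : ‖∫ t in U1..U2, phi t0 (DD T) (⟨5 / 2, t⟩ : ℂ) * rr δ (⟨5 / 2, t⟩ : ℂ) *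
      F2 (⟨5 / 2, t⟩ : ℂ)‖ ≤ 1 := by
    have h1x : 0 < 1 + x := by linarith
    apply hdeep T hTb' δ t0 U1 U2 (1 + x)⁻¹ hδ0 hδ4 hcen hwin (by positivity)
      (inv_le_one_of_one_le₀ (by linarith)) ?_ F2 (fun s hs _ => anF2 s hs)
    · intro s hs _
      have h0 : (N : ℝ) ≤ ((N2 : ℝ) + 1) * (1 + x)⁻¹ := by
        rw [← div_eq_mul_inv, le_div_iff₀ h1x]
        exact hN2gt.le
      have h1 := dec2 δ N N1 N2 c hc2' (1 + x)⁻¹ (by positivity) hN1N hNN2 h0 s hs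
      have h2 := hTpow ((N2 : ℝ) + 1) (by positivity) (by nlinarith)
      refine h1.trans ?_
      apply mul_le_mul_of_nonneg_right h2 (by positivity)
    · have h1 : (1 + x)⁻¹ ≤ Real.exp (-(x / 2)) := by
        have h2 := Real.add_one_le_exp (-(x / 2))
        have h3 : 0 < 1 - x / 2 := by linarith
        have h4 : (1 + x)⁻¹ ≤ 1 - x / 2 := by
          rw [inv_le_iff_one_le_mul₀ h1x]
          nlinarith
        linarith
      calc ((1 + x)⁻¹) ^ DD T ≤ (Real.exp (-(x / 2))) ^ DD T :=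
            Real.rpow_le_rpow (by positivity) h1 hD0.le
        _ = Real.exp (-(Real.log T ^ 2 / 2)) := by
            rw [← Real.exp_mul, ← hxD]
            ring_nf
        _ ≤ _ := le_rfl
  have hI3 : ‖∫ t in U1..U2, phi t0 (DD T) (⟨5 / 2, t⟩ : ℂ) * rr δ (⟨5 / 2, t⟩ : ℂ) *
      F3 (⟨5 / 2, t⟩ : ℂ)‖ ≤ ε / 2 * DD T := by
    set W := 2 * C ^ 2 * ((x * N) * (x * N + 1) * (N : ℝ) ^ (-(1 / 2) : ℝ)) with hW
    have hW0 : 0 ≤ W := by positivity
    have h1 := dom' t0 (DD T) hD1 U1 U2 (B * W) (by positivity) h12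
      (fun t => phi t0 (DD T) (⟨5 / 2, t⟩ : ℂ) * rr δ (⟨5 / 2, t⟩ : ℂ) * F3 (⟨5 / 2, t⟩ : ℂ)) (by
        intro t ht1 ht2
        have b1 := hrr T hTa' δ hδ0 hδ4 (⟨5 / 2, t⟩ : ℂ) (by simp only; linarith)
          (by simp only; linarith) (by
          simp only
          rw [abs_of_nonneg (by norm_num)]
          linarith)
        have b2 := near δ C N N1 N2 c hN1 hN1N hNN2 hN2N hdiv hc1 t
        have b3 : ((N2 : ℝ) - N) * ((N : ℝ) - N1) * (N : ℝ) ^ (-(1 / 2) : ℝ) ≤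
            (x * N) * (x * N + 1) * (N : ℝ) ^ (-(1 / 2) : ℝ) := by
          apply mul_le_mul_of_nonneg_right _ (by positivity)
          have hN1r : (0 : ℝ) ≤ (N : ℝ) - N1 := by
            have : (N1 : ℝ) ≤ N := by exact_mod_cast hN1N
            linarith
          apply mul_le_mul _ _ hN1r (by positivity)
          · nlinarith
          · nlinarith
        have b4 : ‖F3 (⟨5 / 2, t⟩ : ℂ)‖ ≤ W := by
          refine b2.trans ?_
          rw [hW]
          exact mul_le_mul_of_nonneg_left b3 (by positivity)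
        rw [norm_mul, norm_mul]
        calc _ ≤ ‖phi t0 (DD T) (⟨5 / 2, t⟩ : ℂ)‖ * B * W := by gcongr
          _ = _ := by ring)
    refine h1.trans ?_
    have h2 := hM N hNr1 hN
    calc B * W * (20 * DD T) = (B * W * 20) * DD T := by ring
      _ ≤ ε / 2 * DD T := mul_le_mul_of_nonneg_right h2 hD0.le
  -- integrability
  have hint : ∀ F : ℂ → ℂ, (∀ s : ℂ, 5 / 2 ≤ s.re → AnalyticAt ℂ F s) →
      IntervalIntegrable (fun t : ℝ => phi t0 (DD T) (⟨5 / 2, t⟩ : ℂ) * rr δ (⟨5 / 2, t⟩ : ℂ) *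
        F (⟨5 / 2, t⟩ : ℂ)) volume U1 U2 := by
    intro F hF
    apply int_of_contAt h12
    intro t ht1 _
    exact line_contAt (f := fun s => phi t0 (DD T) s * rr δ s * F s)
      (((SG.Deep.phi_analytic _ _ _).mul (rr_analytic _ hδabs _ (by simp only; linarith))).mul
        (hF _ (by simp only; norm_num))).continuousAt
  -- `XX` and `YY` are integrable
  have iX : IntervalIntegrable (fun t : ℝ => XX t0 (DD T) δ N (⟨5 / 2, t⟩ : ℂ)) volume U1 U2 := by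
    refine (hint (fun s => riemannZeta (s - hh δ) * AA N (s - hh δ) * AA N (1 - (s - hh δ)) /
      riemannZeta (s + hh δ)) ?_)
    apply an_of_diff
    intro s hs
    have hre : 2 ≤ (s + hh δ).re := by simp [hh_re, hs]
    have hre' : 2 ≤ (s - hh δ).re := by simp [hh_re, hs]
    have h1 : DifferentiableAt ℂ (fun s => riemannZeta (s - hh δ)) s := by
      apply DifferentiableAt.comp s (g := riemannZeta) (f := fun s => s - hh δ)
      · exact differentiableAt_riemannZeta (ne_one_of_re hre')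
      · fun_prop
    have h2 : DifferentiableAt ℂ (fun s => AA N (s - hh δ)) s := by
      apply DifferentiableAt.comp s (g := AA N) (f := fun s => s - hh δ)
      · exact AA_diff N _
      · fun_prop
    have h3 : DifferentiableAt ℂ (fun s => riemannZeta (s + hh δ)) s := by
      apply DifferentiableAt.comp s (g := riemannZeta) (f := fun s => s + hh δ)
      · exact differentiableAt_riemannZeta (ne_one_of_re hre)
      · fun_prop
    exact ((h1.mul h2).mul (As_diff δ N s)).div h3 (zeta_inv_bound _ hre).1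
  have iY : IntervalIntegrable (fun t : ℝ => YY t0 (DD T) δ N (⟨5 / 2, t⟩ : ℂ)) volume U1 U2 := by
    refine (hint (fun s => AA N (s + hh δ) * AA N (1 - (s - hh δ))) ?_)
    apply an_of_diff
    intro s hs
    have h4 : DifferentiableAt ℂ (fun s => AA N (s + hh δ)) s := by
      apply DifferentiableAt.comp s (g := AA N) (f := fun s => s + hh δ)
      · exact AA_diff N _
      · fun_prop
    exact h4.mul (As_diff δ N s)
  rw [← intervalIntegral.integral_sub iX iY]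
  have key : ∫ t in U1..U2, (XX t0 (DD T) δ N (⟨5 / 2, t⟩ : ℂ) -
      YY t0 (DD T) δ N (⟨5 / 2, t⟩ : ℂ)) =
      (∫ t in U1..U2, phi t0 (DD T) (⟨5 / 2, t⟩ : ℂ) * rr δ (⟨5 / 2, t⟩ : ℂ) *
        F1 (⟨5 / 2, t⟩ : ℂ)) +
      (∫ t in U1..U2, phi t0 (DD T) (⟨5 / 2, t⟩ : ℂ) * rr δ (⟨5 / 2, t⟩ : ℂ) *
        F2 (⟨5 / 2, t⟩ : ℂ)) +
      (∫ t in U1..U2, phi t0 (DD T) (⟨5 / 2, t⟩ : ℂ) * rr δ (⟨5 / 2, t⟩ : ℂ) *
        F3 (⟨5 / 2, t⟩ : ℂ)) := by
    rw [← intervalIntegral.integral_add (hint F1 anF1) (hint F2 anF2),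
      ← intervalIntegral.integral_add ((hint F1 anF1).add (hint F2 anF2)) (hint F3 anF3)]
    apply intervalIntegral.integral_congr
    intro t _
    simp only
    rw [XXYY]
    simp only [hF1, hF2, hF3]
    ring
  rw [key]
  have n1 := norm_add_le ((∫ t in U1..U2, phi t0 (DD T) (⟨5 / 2, t⟩ : ℂ) * rr δ (⟨5 / 2, t⟩ : ℂ) *
        F1 (⟨5 / 2, t⟩ : ℂ)) +
      (∫ t in U1..U2, phi t0 (DD T) (⟨5 / 2, t⟩ : ℂ) * rr δ (⟨5 / 2, t⟩ : ℂ) *
        F2 (⟨5 / 2, t⟩ : ℂ))) (∫ t in U1..U2, phi t0 (DD T) (⟨5 / 2, t⟩ : ℂ) *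
        rr δ (⟨5 / 2, t⟩ : ℂ) * F3 (⟨5 / 2, t⟩ : ℂ))
  have n2 := norm_add_le (∫ t in U1..U2, phi t0 (DD T) (⟨5 / 2, t⟩ : ℂ) * rr δ (⟨5 / 2, t⟩ : ℂ) *
        F1 (⟨5 / 2, t⟩ : ℂ)) (∫ t in U1..U2, phi t0 (DD T) (⟨5 / 2, t⟩ : ℂ) *
        rr δ (⟨5 / 2, t⟩ : ℂ) * F2 (⟨5 / 2, t⟩ : ℂ))
  linarith

end Pool.Agent.N806.HG
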