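import Pool.Agent.N806.HG.Stm

/-!
Project HG (helper806), subtask HG/NEARD (helper690): the terms near the diagonal by partial
summation.
-/

set_option autoImplicit false

open Filter Topology Set MeasureTheory

namespace Pool.Agent.N806.HG

open SG

namespace NearD

/-- summation by parts bound -/
theorem parts (f w : ℕ → ℝ) (a b : ℕ) (M : ℝ) (hab : a < b)
    (hS : ∀ x : ℕ, a ≤ x → x ≤ b → |∑ n ∈ Finset.range x, f n| ≤ M) :
    |∑ m ∈ Finset.Ico a b, f m * w m| ≤
      M * (|w (b - 1)| + |w a| + ∑ i ∈ Finset.Ico a (b - 1), |w (i + 1) - w i|) := by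
  have h := Finset.sum_Ico_by_parts w f hab
  have e : ∑ m ∈ Finset.Ico a b, f m * w m = ∑ i ∈ Finset.Ico a b, w i • f i := by
    apply Finset.sum_congr rfl
    intro i _
    rw [smul_eq_mul, mul_comm]
  rw [e, h]
  have hb := hS b hab.le le_rfl
  have ha := hS a le_rfl hab.le
  have h1 : |w (b - 1) • ∑ i ∈ Finset.range b, f i| ≤ M * |w (b - 1)| := by
    rw [smul_eq_mul, abs_mul, mul_comm]
    exact mul_le_mul_of_nonneg_right hb (abs_nonneg _)
  have h2 : |w a • ∑ i ∈ Finset.range a, f i| ≤ M * |w a| := by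
    rw [smul_eq_mul, abs_mul, mul_comm]
    exact mul_le_mul_of_nonneg_right ha (abs_nonneg _)
  have h3 : |∑ i ∈ Finset.Ico a (b - 1), (w (i + 1) - w i) • ∑ j ∈ Finset.range (i + 1), f j| ≤
      M * ∑ i ∈ Finset.Ico a (b - 1), |w (i + 1) - w i| := by
    refine (Finset.abs_sum_le_sum_abs _ _).trans ?_
    rw [Finset.mul_sum]
    apply Finset.sum_le_sum
    intro i hi
    rw [Finset.mem_Ico] at hi
    rw [smul_eq_mul, abs_mul, mul_comm]
    exact mul_le_mul_of_nonneg_right (hS (i + 1) (by omega) (by omega)) (abs_nonneg _)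
  calc |w (b - 1) • ∑ i ∈ Finset.range b, f i - w a • ∑ i ∈ Finset.range a, f i -
        ∑ i ∈ Finset.Ico a (b - 1), (w (i + 1) - w i) • ∑ j ∈ Finset.range (i + 1), f j|
      ≤ |w (b - 1) • ∑ i ∈ Finset.range b, f i - w a • ∑ i ∈ Finset.range a, f i| +
        |∑ i ∈ Finset.Ico a (b - 1), (w (i + 1) - w i) • ∑ j ∈ Finset.range (i + 1), f j| :=
        abs_sub _ _
    _ ≤ (|w (b - 1) • ∑ i ∈ Finset.range b, f i| + |w a • ∑ i ∈ Finset.range a, f i|) +
        |∑ i ∈ Finset.Ico a (b - 1), (w (i + 1) - w i) • ∑ j ∈ Finset.range (i + 1), f j| := by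
        gcongr
        exact abs_sub _ _
    _ ≤ (M * |w (b - 1)| + M * |w a|) + M * ∑ i ∈ Finset.Ico a (b - 1), |w (i + 1) - w i| := by
        gcongr
    _ = _ := by ring

/-- (i) the change of `1 / √(x (x + k))` -/
theorem rad (x k : ℝ) (hx : 1 ≤ x) (hk : 1 ≤ k) :
    |1 / Real.sqrt ((x + 1) * (x + 1 + k)) - 1 / Real.sqrt (x * (x + k))| ≤ 1 / x ^ 2 := by
  have hx0 : 0 < x := by linarith
  set p := Real.sqrt (x * (x + k)) with hp
  set q := Real.sqrt ((x + 1) * (x + 1 + k)) with hq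
  have hp2 : p * p = x * (x + k) := Real.mul_self_sqrt (by positivity)
  have hq2 : q * q = (x + 1) * (x + 1 + k) := Real.mul_self_sqrt (by positivity)
  have hp0 : 0 < p := Real.sqrt_pos.2 (by positivity)
  have hq0 : 0 < q := Real.sqrt_pos.2 (by positivity)
  have hpq : p ≤ q := Real.sqrt_le_sqrt (by nlinarith)
  have hxp : x ≤ p := by
    apply Real.le_sqrt_of_sq_le
    nlinarith
  have e : 1 / q - 1 / p = -((q - p) / (p * q)) := by
    field_simp
    ring
  rw [e, abs_neg, abs_of_nonneg (div_nonneg (by linarith) (by positivity))]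
  rw [div_le_div_iff₀ (by positivity) (by positivity)]
  have h1 : (q - p) * (q + p) = 2 * x + k + 1 := by nlinarith
  have h2 : (q - p) * p ≤ x + k := by
    have : (q - p) * (2 * p) ≤ (q - p) * (q + p) :=
      mul_le_mul_of_nonneg_left (by linarith) (by linarith)
    nlinarith
  have h3 : (q - p) * x ≤ p := by
    have : (q - p) * p * x ≤ (x + k) * x := mul_le_mul_of_nonneg_right h2 hx0.le
    have h4 : ((q - p) * x) * p ≤ p * p := by nlinarith
    exact le_of_mul_le_mul_right h4 hp0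
  have h5 : (q - p) * x * x ≤ p * q := by
    have h6 : (q - p) * x * x ≤ p * x := mul_le_mul_of_nonneg_right h3 hx0.le
    have h7 : p * x ≤ p * q := mul_le_mul_of_nonneg_left (by linarith) hp0.le
    linarith
  nlinarith

theorem log_step (x k : ℝ) (hx : 0 < x) (hk : 0 ≤ k) :
    0 ≤ Real.log (x + k) - Real.log x ∧ Real.log (x + k) - Real.log x ≤ k / x := by
  constructor
  · have := Real.log_le_log hx (by linarith : x ≤ x + k)
    linarith
  · rw [← Real.log_div (by positivity) (by positivity)]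
    refine (Real.log_le_sub_one_of_pos (by positivity)).trans (le_of_eq ?_)
    field_simp
    ring

theorem log_step2 (x k : ℝ) (hx : 0 < x) (hk : 0 ≤ k) :
    |(Real.log (x + 1 + k) - Real.log (x + 1)) - (Real.log (x + k) - Real.log x)| ≤ k / x ^ 2 := by
  have e : (Real.log (x + 1 + k) - Real.log (x + 1)) - (Real.log (x + k) - Real.log x) =
      -(Real.log (((x + k) * (x + 1)) / (x * (x + 1 + k)))) := by
    rw [Real.log_div (by positivity) (by positivity), Real.log_mul (by positivity) (by positivity),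
      Real.log_mul (by positivity) (by positivity)]
    ring
  rw [e, abs_neg]
  have h1 : 1 ≤ ((x + k) * (x + 1)) / (x * (x + 1 + k)) := by
    rw [le_div_iff₀ (by positivity)]
    nlinarith
  rw [abs_of_nonneg (Real.log_nonneg h1)]
  refine (Real.log_le_sub_one_of_pos (by positivity)).trans ?_
  have e2 : ((x + k) * (x + 1)) / (x * (x + 1 + k)) - 1 = k / (x * (x + 1 + k)) := by
    field_simp
    ring
  rw [e2]
  apply div_le_div_of_nonneg_left hk (by positivity)
  nlinarith

theorem sin_step (a b : ℝ) : |Real.sin a - Real.sin b| ≤ |a - b| := by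
  have h := Real.lipschitzWith_sin.dist_le_mul a b
  rw [Real.dist_eq, Real.dist_eq] at h
  simpa using h

/-- the weight -/
noncomputable def ww (T D δ : ℝ) (h m : ℕ) : ℝ :=
  1 / Real.sqrt ((m : ℝ) * ((m : ℝ) + h)) *
    Real.sin (δ * Real.log T / 2 + δ * (Real.log m + Real.log ((m : ℝ) + h)) / 2) *
    WW T D (Real.log ((m : ℝ) + h) - Real.log m)

theorem TT_eq (T D δ : ℝ) (m h : ℕ) :
    TT T D δ m (m + h) = mu m * mu (m + h) * ww T D δ h m := by
  unfold TT ww
  push_cast
  ring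

theorem WW_even (T D ξ : ℝ) : WW T D (-ξ) = WW T D ξ := by
  unfold WW
  congr 1
  · congr 1
    ring
  · congr 1
    ext x
    congr 1
    ext y
    rw [neg_mul, Real.cos_neg]

theorem TT_symm (T D δ : ℝ) (m n : ℕ) : TT T D δ m n = TT T D δ n m := by
  unfold TT
  rw [← WW_even T D (Real.log n - Real.log m), neg_sub, mul_comm (m : ℝ) (n : ℝ),
    add_comm (Real.log m) (Real.log n), mul_comm (mu m) (mu n)]

theorem inv_sqrt_le (x k : ℝ) (hx : 0 < x) (hk : 0 ≤ k) :
    0 ≤ 1 / Real.sqrt (x * (x + k)) ∧ 1 / Real.sqrt (x * (x + k)) ≤ 1 / x := by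
  refine ⟨by positivity, ?_⟩
  apply one_div_le_one_div_of_le hx
  apply Real.le_sqrt_of_sq_le
  nlinarith

/-- the size of the weight -/
theorem ww_le (hw : S_WWB) (T D δ : ℝ) (hT : 1 ≤ T) (hD : 0 ≤ D) (hDT : D ≤ T) (h m : ℕ)
    (hm : T ≤ m) : |ww T D δ h m| ≤ T := by
  obtain ⟨w1, -⟩ := hw T D hT hD hDT
  have hm0 : (0 : ℝ) < m := by linarith
  obtain ⟨i1, i2⟩ := inv_sqrt_le (m : ℝ) (h : ℝ) hm0 (Nat.cast_nonneg _)
  unfold ww
  rw [abs_mul, abs_mul, abs_of_nonneg i1]
  have hw' := w1 (Real.log ((m : ℝ) + h) - Real.log m)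
  have hs := Real.abs_sin_le_one
    (δ * Real.log T / 2 + δ * (Real.log m + Real.log ((m : ℝ) + h)) / 2)
  have h1 : 1 / (m : ℝ) ≤ 1 / T := one_div_le_one_div_of_le (by linarith) hm
  calc _ ≤ (1 / T * 1) * (T ^ 2 / 16) := by
        apply mul_le_mul _ hw' (abs_nonneg _) (by positivity)
        apply mul_le_mul (i2.trans h1) hs (abs_nonneg _) (by positivity)
    _ = T / 16 := by
        have : T ≠ 0 := by linarith
        field_simp
    _ ≤ T := by linarith

/-- the change of the weight -/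
theorem ww_step (hw : S_WWB) (T D δ : ℝ) (hT : 1 ≤ T) (hD : 0 ≤ D) (hDT : D ≤ T)
    (hδ : 0 < δ) (hδ1 : δ ≤ 1) (H h m : ℕ) (hh : 1 ≤ h) (hH : h ≤ H)
    (hm : T ≤ m) : |ww T D δ h (m + 1) - ww T D δ h m| ≤ (H : ℝ) ^ 2 + 2 * H + 4 := by
  obtain ⟨w1, -, -, w2⟩ := hw T D hT hD hDT
  have hm0 : (0 : ℝ) < m := by linarith
  have hm1 : (1 : ℝ) ≤ m := by linarith
  have hT0 : 0 < T := by linarith
  have hh1 : (1 : ℝ) ≤ h := by exact_mod_cast hh
  have hH1 : (h : ℝ) ≤ H := by exact_mod_cast hH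
  set x : ℝ := (m : ℝ) with hx
  set k : ℝ := (h : ℝ) with hk
  have ex : ((m + 1 : ℕ) : ℝ) = x + 1 := by push_cast; rfl
  unfold ww
  rw [ex]
  set a := 1 / Real.sqrt (x * (x + k)) with ha
  set a' := 1 / Real.sqrt ((x + 1) * (x + 1 + k)) with ha'
  set s := Real.sin (δ * Real.log T / 2 + δ * (Real.log x + Real.log (x + k)) / 2) with hs
  set s' := Real.sin (δ * Real.log T / 2 + δ * (Real.log (x + 1) + Real.log (x + 1 + k)) / 2)
    with hs'
  set c := WW T D (Real.log (x + k) - Real.log x) with hc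
  set c' := WW T D (Real.log (x + 1 + k) - Real.log (x + 1)) with hc'
  have hk0 : 0 ≤ k := by linarith
  obtain ⟨i1, i2⟩ := inv_sqrt_le x k hm0 hk0
  obtain ⟨j1, j2⟩ := inv_sqrt_le (x + 1) k (by linarith) hk0
  have ha1 : |a| ≤ 1 / T := by
    rw [abs_of_nonneg i1]
    exact i2.trans (one_div_le_one_div_of_le hT0 hm)
  have ha1' : |a'| ≤ 1 / T := by
    rw [abs_of_nonneg j1]
    exact j2.trans (one_div_le_one_div_of_le hT0 (by linarith))
  have hs1 : |s| ≤ 1 := Real.abs_sin_le_one _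
  have hs1' : |s'| ≤ 1 := Real.abs_sin_le_one _
  have hc1 : |c| ≤ T ^ 2 / 16 := w1 _
  have hc1' : |c'| ≤ T ^ 2 / 16 := w1 _
  have hxT : 1 / x ^ 2 ≤ 1 / T ^ 2 :=
    one_div_le_one_div_of_le (by positivity) (by gcongr)
  have haa : |a' - a| ≤ 1 / T ^ 2 := (rad x k hm1 hh1).trans hxT
  have hss : |s' - s| ≤ 1 / T := by
    refine (sin_step _ _).trans ?_
    obtain ⟨l1, l2⟩ := log_step x 1 hm0 zero_le_one
    obtain ⟨l3, l4⟩ := log_step (x + k) 1 (by linarith) zero_le_one
    have e : δ * Real.log T / 2 + δ * (Real.log (x + 1) + Real.log (x + 1 + k)) / 2 -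
        (δ * Real.log T / 2 + δ * (Real.log x + Real.log (x + k)) / 2) =
        δ * ((Real.log (x + 1) - Real.log x) + (Real.log (x + k + 1) - Real.log (x + k))) / 2 := by
      rw [show x + 1 + k = x + k + 1 by ring]
      ring
    rw [e, abs_of_nonneg (by positivity)]
    have l5 : 1 / (x + k) ≤ 1 / x := one_div_le_one_div_of_le hm0 (by linarith)
    have l6 : 1 / x ≤ 1 / T := one_div_le_one_div_of_le hT0 hm
    have l7 : δ * ((Real.log (x + 1) - Real.log x) + (Real.log (x + k + 1) - Real.log (x + k))) ≤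
        1 * (1 / T + 1 / T) := by
      apply mul_le_mul hδ1 _ (by positivity) zero_le_one
      linarith
    linarith
  have hcc : |c' - c| ≤ (H + 2) * H * T := by
    obtain ⟨l1, l2⟩ := log_step x k hm0 hk0
    obtain ⟨l3, l4⟩ := log_step (x + 1) k (by linarith) hk0
    have b1 : k / x ≤ H / T := by
      apply div_le_div₀ (by positivity) hH1 hT0 hm
    have b2 : k / (x + 1) ≤ H / T := by
      apply div_le_div₀ (by positivity) hH1 hT0 (by linarith)
    have r := w2 H (Real.log (x + 1 + k) - Real.log (x + 1)) (Real.log (x + k) - Real.log x)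
      (by positivity) (by rw [abs_of_nonneg l3]; linarith) (by rw [abs_of_nonneg l1]; linarith)
    refine r.trans ?_
    have l5 := log_step2 x k hm0 hk0
    have l6 : k / x ^ 2 ≤ H / T ^ 2 := div_le_div₀ (by positivity) hH1 (by positivity) (by gcongr)
    calc _ ≤ ((H : ℝ) + 2) * T ^ 3 * (H / T ^ 2) := by
          apply mul_le_mul_of_nonneg_left (l5.trans l6) (by positivity)
      _ = _ := by
          field_simp
  have e : a' * s' * c' - a * s * c = (a' - a) * s' * c' + a * (s' - s) * c' + a * s * (c' - c) := by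
    ring
  rw [e]
  have t1 : |(a' - a) * s' * c'| ≤ (1 / T ^ 2 * 1) * (T ^ 2 / 16) := by
    rw [abs_mul, abs_mul]
    apply mul_le_mul _ hc1' (abs_nonneg _) (by positivity)
    apply mul_le_mul haa hs1' (abs_nonneg _) (by positivity)
  have t2 : |a * (s' - s) * c'| ≤ (1 / T * (1 / T)) * (T ^ 2 / 16) := by
    rw [abs_mul, abs_mul]
    apply mul_le_mul _ hc1' (abs_nonneg _) (by positivity)
    apply mul_le_mul ha1 hss (abs_nonneg _) (by positivity)
  have t3 : |a * s * (c' - c)| ≤ (1 / T * 1) * ((H + 2) * H * T) := by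
    rw [abs_mul, abs_mul]
    apply mul_le_mul _ hcc (abs_nonneg _) (by positivity)
    apply mul_le_mul ha1 hs1 (abs_nonneg _) (by positivity)
  have v1 : (1 / T ^ 2 * 1) * (T ^ 2 / 16) = 1 / 16 := by field_simp
  have v2 : (1 / T * (1 / T)) * (T ^ 2 / 16) = 1 / 16 := by field_simp
  have v3 : (1 / T * 1) * (((H : ℝ) + 2) * H * T) = (H + 2) * H := by field_simp
  rw [v1] at t1
  rw [v2] at t2
  rw [v3] at t3
  calc _ ≤ |(a' - a) * s' * c'| + |a * (s' - s) * c'| + |a * s * (c' - c)| := abs_add_three _ _ _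
    _ ≤ 1 / 16 + 1 / 16 + ((H : ℝ) + 2) * H := by linarith
    _ ≤ _ := by nlinarith

/-- the symmetric double sum over pairs at distance `h ≤ H` -/
theorem reorg (g : ℕ → ℕ → ℝ) (hg : ∀ m n, g m n = g n m) (T N H : ℕ) :
    ∑ m ∈ Finset.Icc 1 N, ∑ n ∈ Finset.Icc 1 N,
      (if m ≠ n ∧ T < m ∧ T < n ∧ m ≤ n + H ∧ n ≤ m + H then g m n else 0) =
    2 * ∑ h ∈ Finset.Icc 1 H, ∑ m ∈ Finset.Ico (T + 1) (N + 1 - h), g m (m + h) := by
  have s1 : ∀ m n : ℕ,
      (if m ≠ n ∧ T < m ∧ T < n ∧ m ≤ n + H ∧ n ≤ m + H then g m n else 0) =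
      (if m < n ∧ T < m ∧ n ≤ m + H then g m n else 0) +
      (if n < m ∧ T < n ∧ m ≤ n + H then g m n else 0) := by
    intro m n
    rcases lt_trichotomy m n with h | h | h
    · rw [if_neg (show ¬ (n < m ∧ T < n ∧ m ≤ n + H) by omega), add_zero]
      apply if_congr _ rfl rfl
      omega
    · subst h
      simp
    · rw [if_neg (show ¬ (m < n ∧ T < m ∧ n ≤ m + H) by omega), zero_add]
      apply if_congr _ rfl rfl
      omega
  have s2 : ∑ m ∈ Finset.Icc 1 N, ∑ n ∈ Finset.Icc 1 N,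
      (if n < m ∧ T < n ∧ m ≤ n + H then g m n else 0) =
      ∑ m ∈ Finset.Icc 1 N, ∑ n ∈ Finset.Icc 1 N,
      (if m < n ∧ T < m ∧ n ≤ m + H then g m n else 0) := by
    rw [Finset.sum_comm]
    apply Finset.sum_congr rfl
    intro m _
    apply Finset.sum_congr rfl
    intro n _
    rw [hg n m]
  have s3 : ∑ m ∈ Finset.Icc 1 N, ∑ n ∈ Finset.Icc 1 N,
      (if m < n ∧ T < m ∧ n ≤ m + H then g m n else 0) =
      ∑ h ∈ Finset.Icc 1 H, ∑ m ∈ Finset.Ico (T + 1) (N + 1 - h), g m (m + h) := by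
    have s4 : ∀ h ∈ Finset.Icc 1 H, ∑ m ∈ Finset.Ico (T + 1) (N + 1 - h), g m (m + h) =
        ∑ m ∈ Finset.Icc 1 N, (if T < m ∧ m + h ≤ N then g m (m + h) else 0) := by
      intro h hh
      rw [Finset.mem_Icc] at hh
      rw [← Finset.sum_filter]
      apply Finset.sum_congr _ (fun _ _ => rfl)
      ext m
      simp only [Finset.mem_Ico, Finset.mem_filter, Finset.mem_Icc]
      omega
    rw [Finset.sum_congr rfl s4]
    refine Eq.trans ?_ Finset.sum_comm
    apply Finset.sum_congr rfl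
    intro m hm
    rw [Finset.mem_Icc] at hm
    rw [← Finset.sum_filter, ← Finset.sum_filter]
    refine Finset.sum_nbij' (fun n => n - m) (fun h => m + h) ?_ ?_ ?_ ?_ ?_
    · intro n hn
      simp only [Finset.mem_filter, Finset.mem_Icc] at hn ⊢
      omega
    · intro n hn
      simp only [Finset.mem_filter, Finset.mem_Icc] at hn ⊢
      omega
    · intro n hn
      simp only [Finset.mem_filter, Finset.mem_Icc] at hn ⊢
      omega
    · intro n hn
      simp only [Finset.mem_filter, Finset.mem_Icc] at hn ⊢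
      omega
    · intro n hn
      simp only [Finset.mem_filter, Finset.mem_Icc] at hn ⊢
      congr 1
      omega
  simp only [s1, Finset.sum_add_distrib]
  rw [s2, s3]
  ring

end NearD

open NearD in
/-- HG/NEARD -/
theorem p_NEARD (hw : S_WWB) : S_NEARD := by
  intro K hK H hH ε hε
  have hH0 : (0 : ℝ) < H := by exact_mod_cast hH
  set V : ℝ := (H : ℝ) ^ 2 + 2 * H + 4 with hV
  have hV0 : 0 < V := by positivity
  set G : ℝ := 2 * H * Real.exp K * (2 + Real.exp K * V) with hG
  have hG0 : 0 < G := by positivity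
  refine ⟨ε / G, by positivity, 100, ?_⟩
  intro T hT0 hS δ N hδ hδT hN
  have hT100 : (100 : ℝ) ≤ T := by exact_mod_cast hT0
  have hT1 : (1 : ℝ) ≤ T := by linarith
  have hTp : (0 : ℝ) < T := by linarith
  have hlog : 4 ≤ Real.log T := by
    rw [Real.le_log_iff_exp_le hTp]
    have h1 : Real.exp 1 < 2.7182818286 := Real.exp_one_lt_d9
    have h2 : Real.exp 4 = Real.exp 1 ^ 4 := by
      rw [← Real.exp_nat_mul]
      norm_num
    rw [h2]
    calc Real.exp 1 ^ 4 ≤ (2.7182818286 : ℝ) ^ 4 := by gcongr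
      _ ≤ 100 := by norm_num
      _ ≤ T := hT100
  have hδ1 : δ ≤ 1 := by
    by_contra hc
    rw [not_le] at hc
    nlinarith
  have hD : 0 ≤ DD (T : ℝ) := by
    unfold DD dd
    positivity
  have hDT : DD (T : ℝ) ≤ T := by
    unfold DD dd
    calc (T : ℝ) ^ (1 - (1 / 4 : ℝ) / 2) ≤ (T : ℝ) ^ (1 : ℝ) :=
          Real.rpow_le_rpow_of_exponent_le hT1 (by norm_num)
      _ = T := Real.rpow_one _
  have e1 : ∑ m ∈ Finset.Icc 1 N, ∑ n ∈ Finset.Icc 1 N,
      (if m ≠ n ∧ (T : ℝ) < m ∧ (T : ℝ) < n ∧ m ≤ n + H ∧ n ≤ m + H then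
        TT T (DD T) δ m n else 0) =
      2 * ∑ h ∈ Finset.Icc 1 H, ∑ m ∈ Finset.Ico (T + 1) (N + 1 - h),
        TT T (DD T) δ m (m + h) := by
    rw [← reorg (fun m n => TT T (DD T) δ m n) (fun m n => TT_symm _ _ _ m n) T N H]
    apply Finset.sum_congr rfl
    intro m _
    apply Finset.sum_congr rfl
    intro n _
    simp only [Nat.cast_lt]
  rw [e1, abs_mul, abs_two]
  have e2 : ∀ h ∈ Finset.Icc 1 H, |∑ m ∈ Finset.Ico (T + 1) (N + 1 - h), TT T (DD T) δ m (m + h)| ≤
      ε / G * Real.exp K * (2 + Real.exp K * V) * (T : ℝ) ^ 2 := by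
    intro h hh
    rw [Finset.mem_Icc] at hh
    have e3 : ∑ m ∈ Finset.Ico (T + 1) (N + 1 - h), TT T (DD T) δ m (m + h) =
        ∑ m ∈ Finset.Ico (T + 1) (N + 1 - h), (mu m * mu (m + h)) * ww T (DD T) δ h m := by
      apply Finset.sum_congr rfl
      intro m _
      exact TT_eq _ _ _ _ _
    rw [e3]
    by_cases hab : T + 1 < N + 1 - h
    · have hM : ∀ x : ℕ, T + 1 ≤ x → x ≤ N + 1 - h →
          |∑ n ∈ Finset.range x, mu n * mu (n + h)| ≤ ε / G * (Real.exp K * T) := by
        intro x hx1 hx2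
        have hxN : (x : ℝ) ≤ Real.exp K * T := by
          have : x ≤ N := by omega
          have : (x : ℝ) ≤ N := by exact_mod_cast this
          linarith
        refine (hS h hh.1 hh.2 x (by omega) hxN).trans ?_
        apply mul_le_mul_of_nonneg_left hxN (by positivity)
      have hp := parts (fun n => mu n * mu (n + h)) (fun m => ww T (DD T) δ h m) (T + 1)
        (N + 1 - h) _ hab hM
      refine hp.trans ?_
      have b1 : |ww T (DD T) δ h (N + 1 - h - 1)| ≤ T := by
        apply ww_le hw T (DD T) δ hT1 hD hDT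
        have : T ≤ N + 1 - h - 1 := by omega
        exact_mod_cast this
      have b2 : |ww T (DD T) δ h (T + 1)| ≤ T := by
        apply ww_le hw T (DD T) δ hT1 hD hDT
        have : T ≤ T + 1 := by omega
        exact_mod_cast this
      have b3 : ∑ i ∈ Finset.Ico (T + 1) (N + 1 - h - 1),
          |ww T (DD T) δ h (i + 1) - ww T (DD T) δ h i| ≤ Real.exp K * T * V := by
        calc _ ≤ ∑ i ∈ Finset.Ico (T + 1) (N + 1 - h - 1), V := by
              apply Finset.sum_le_sum
              intro i hi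
              rw [Finset.mem_Ico] at hi
              apply ww_step hw T (DD T) δ hT1 hD hDT hδ hδ1 H h i hh.1 hh.2
              have : T ≤ i := by omega
              exact_mod_cast this
          _ = ((N + 1 - h - 1 - (T + 1) : ℕ) : ℝ) * V := by
              rw [Finset.sum_const, Nat.card_Ico, nsmul_eq_mul]
          _ ≤ (N : ℝ) * V := by
              apply mul_le_mul_of_nonneg_right _ hV0.le
              have : N + 1 - h - 1 - (T + 1) ≤ N := by omega
              exact_mod_cast this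
          _ ≤ Real.exp K * T * V := mul_le_mul_of_nonneg_right hN hV0.le
      calc _ ≤ ε / G * (Real.exp K * T) * ((T : ℝ) + T + Real.exp K * T * V) := by
            apply mul_le_mul_of_nonneg_left _ (by positivity)
            exact add_le_add (add_le_add b1 b2) b3
        _ = _ := by ring
    · rw [Finset.Ico_eq_empty hab, Finset.sum_empty, abs_zero]
      positivity
  calc 2 * |∑ h ∈ Finset.Icc 1 H, ∑ m ∈ Finset.Ico (T + 1) (N + 1 - h), TT T (DD T) δ m (m + h)|
      ≤ 2 * ∑ h ∈ Finset.Icc 1 H, ε / G * Real.exp K * (2 + Real.exp K * V) * (T : ℝ) ^ 2 := by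
        apply mul_le_mul_of_nonneg_left _ (by norm_num)
        exact (Finset.abs_sum_le_sum_abs _ _).trans (Finset.sum_le_sum e2)
    _ = ε * (T : ℝ) ^ 2 * ((2 * H * Real.exp K * (2 + Real.exp K * V)) / G) := by
        rw [Finset.sum_const, Nat.card_Icc, nsmul_eq_mul, Nat.add_sub_cancel]
        ring
    _ = ε * (T : ℝ) ^ 2 := by
        rw [← hG, div_self hG0.ne', mul_one]

end Pool.Agent.N806.HG
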