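import Pool.Agent.H382R2.Defs

/-!
Project HG (helper806): gaps between zeta zeros below one half of the mean spacing.
All statements of the project. `SG` is the library `H382R2`.
-/

set_option autoImplicit false

open Complex Filter Topology Set MeasureTheory

namespace Pool.Agent.N806.HG

open SG

/-- the width `T ^ (7/8)` of the Gaussians -/
noncomputable def DD (T : ℝ) : ℝ := dd (1 / 4) T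

/-- the distance `(π / log T) (1 - C / log T)` -/
noncomputable def dc (C T : ℝ) : ℝ := Real.pi / Real.log T * (1 - C / Real.log T)

/-- the length `⌊e^K T⌋` -/
noncomputable def NK (K T : ℝ) : ℕ := ⌊Real.exp K * T⌋₊

/-- the integration heights -/
def Win (T U1 U2 : ℝ) : Prop := T ≤ U1 ∧ U1 ≤ T + 20 ∧ 2 * T - 20 ≤ U2 ∧ U2 ≤ 2 * T

/-- the centres of the Gaussians -/
def Cen (T t0 : ℝ) : Prop := 5 / 4 * T ≤ t0 ∧ t0 ≤ 7 / 4 * T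

/-- the function whose integral is related to the zeros -/
noncomputable def XX (t0 D δ : ℝ) (N : ℕ) (s : ℂ) : ℂ :=
  phi t0 D s * rr δ s * (riemannZeta (s - hh δ) * AA N (s - hh δ) * AA N (1 - (s - hh δ)) /
    riemannZeta (s + hh δ))

/-- the main function -/
noncomputable def YY (t0 D δ : ℝ) (N : ℕ) (s : ℂ) : ℂ :=
  phi t0 D s * rr δ s * (AA N (s + hh δ) * AA N (1 - (s - hh δ)))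

/-! ### Gamma factors -/

/-- (RRB) uniform bound for `rr` -/
def S_RRB : Prop := ∃ B T0 : ℝ, 1 ≤ B ∧ 100 ≤ T0 ∧ ∀ T : ℝ, T0 ≤ T → ∀ δ : ℝ, 0 < δ →
  δ * Real.log T ≤ 4 → ∀ s : ℂ, T ≤ s.im → s.im ≤ 2 * T → |s.re| ≤ T / 4 → ‖rr δ s‖ ≤ B

/-- (RRP) the phase of `rr` on the critical line -/
def S_RRP : Prop := ∃ B T0 : ℝ, 1 ≤ B ∧ 100 ≤ T0 ∧ ∀ T : ℝ, T0 ≤ T → ∀ δ : ℝ, 0 < δ →
  δ * Real.log T ≤ 4 → ∀ t : ℝ, T ≤ t → t ≤ 2 * T →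
    ‖rr δ (⟨1 / 2, t⟩ : ℂ) - cexp (-((δ * Real.log T / 2 : ℝ) : ℂ) * I)‖ ≤ B / Real.log T

/-! ### The deep shift -/

/-- (DEEP) products that decay like `r ^ σ`, `r ^ D ≤ exp (- log² T / 2)`, have negligible integral -/
def S_DEEP : Prop := ∃ T0 : ℝ, 100 ≤ T0 ∧ ∀ T : ℝ, T0 ≤ T → ∀ δ t0 U1 U2 r : ℝ, 0 < δ →
  δ * Real.log T ≤ 4 → Cen T t0 → Win T U1 U2 → 0 < r → r ≤ 1 →
  r ^ (DD T) ≤ Real.exp (-(Real.log T ^ 2 / 2)) → ∀ F : ℂ → ℂ,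
  (∀ s : ℂ, 5 / 2 ≤ s.re → 1 ≤ s.im → AnalyticAt ℂ F s) →
  (∀ s : ℂ, 5 / 2 ≤ s.re → 1 ≤ s.im → ‖F s‖ ≤ T ^ (20 : ℝ) * r ^ s.re) →
  ‖∫ t in U1..U2, phi t0 (DD T) (⟨5 / 2, t⟩ : ℂ) * rr δ (⟨5 / 2, t⟩ : ℂ) * F (⟨5 / 2, t⟩ : ℂ)‖ ≤ 1

/-- (TAIL) the coefficients of `ζ(s - h) A(s - h) / ζ(s + h) - A(s + h)` -/
def S_TAIL : Prop := ∀ (δ : ℝ) (N : ℕ), 1 ≤ N → ∃ c : ℕ → ℂ,
  (∀ n, ‖c n‖ ≤ (n.divisors.card : ℝ) ^ 2) ∧ ∀ M : ℕ, N ≤ M → ∀ s : ℂ, 5 / 2 ≤ s.re →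
    ‖riemannZeta (s - hh δ) * AA N (s - hh δ) / riemannZeta (s + hh δ) - AA N (s + hh δ) -
      ∑ n ∈ Finset.Ioc N M, c n * (n : ℂ) ^ (-s)‖ ≤ 16 * ((M : ℝ) + 1) ^ (5 / 2 - s.re)

/-- (NEAR) replacing `ζ A / ζ` by `A` on the right line -/
def S_NEAR : Prop := ∀ K ε : ℝ, 0 ≤ K → 0 < ε → ∃ T0 : ℝ, 100 ≤ T0 ∧ ∀ T : ℝ, T0 ≤ T →
  ∀ δ t0 U1 U2 : ℝ, 0 < δ → δ * Real.log T ≤ 4 → Cen T t0 → Win T U1 U2 →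
  ∀ N : ℕ, 1 ≤ N → (N : ℝ) ≤ Real.exp K * T →
  ‖(∫ t in U1..U2, XX t0 (DD T) δ N (⟨5 / 2, t⟩ : ℂ)) -
    ∫ t in U1..U2, YY t0 (DD T) δ N (⟨5 / 2, t⟩ : ℂ)‖ ≤ ε * DD T

/-! ### The residue identity -/

/-- a good height: no zero is close to `U ± δ / 2` -/
def Good (T δ U : ℝ) : Prop := ∀ s : ℂ, 0 < s.re → s.re < 1 → riemannZeta s = 0 →
  T ≤ s.im → s.im ≤ 2 * T → δ / 2 ≤ |s.im - (U + δ / 2)| ∧ δ / 2 ≤ |s.im - (U - δ / 2)|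

/-- (GU) choice of good heights -/
def S_GU : Prop := ∀ T δ a : ℝ, 100 ≤ T → 0 < δ → δ ≤ 1 → T + 5 ≤ a → a + 5 ≤ 2 * T → Sep δ T →
  ∃ U : ℝ, a ≤ U ∧ U ≤ a + 2 * δ ∧ Good T δ U

/-- (NOD) the residue identity -/
def S_NOD : Prop := ∀ T δ t0 D U1 U2 : ℝ, 100 ≤ T → 0 < δ → δ ≤ 1 → Sep δ T → T + 6 ≤ U1 →
  U1 < U2 → U2 ≤ 2 * T - 6 → Good T δ U1 → Good T δ U2 →
  ∃ (Z1 Z2 : Finset ℝ) (v v' : ℝ → ℝ), (∀ g ∈ Z1, 0 < v g) ∧ (∀ g ∈ Z2, 0 < v' g) ∧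
    (∀ g ∈ Z1, riemannZeta (1 / 2 + I * g) = 0) ∧ (∀ g ∈ Z2, riemannZeta (1 / 2 + I * g) = 0) ∧
    (∀ g ∈ Z1, 10 ≤ g) ∧ (∀ g ∈ Z2, 10 ≤ g) ∧
    ∀ F : ℂ → ℂ, (∀ s ∈ Set.Icc (-3 / 2 : ℝ) (5 / 2) ×ℂ Set.Icc U1 U2, AnalyticAt ℂ F s) →
    rectI (fun s => PP t0 D δ s * F s) (-3 / 2) (5 / 2) U1 U2 =
      2 * Real.pi * I * (∑ g ∈ Z1, I * v g * F (1 / 2 + I * g + hh δ) -
        ∑ g ∈ Z2, I * v' g * F (1 / 2 + I * g - hh δ))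

/-- (HOR) on a good horizontal segment everything is tiny -/
def S_HOR : Prop := ∀ K : ℝ, 0 ≤ K → ∃ T0 : ℝ, 100 ≤ T0 ∧ ∀ T : ℝ, T0 ≤ T → ∀ δ : ℝ,
  2 ≤ δ * Real.log T → δ * Real.log T ≤ 4 → Sep δ T → ∀ N : ℕ, 1 ≤ N → (N : ℝ) ≤ Real.exp K * T →
  ∀ U : ℝ, ((T + 5 ≤ U ∧ U ≤ T + 20) ∨ (2 * T - 20 ≤ U ∧ U ≤ 2 * T - 5)) → Good T δ U →
  ∀ t0 : ℝ, Cen T t0 → ∀ σ : ℝ, 1 / 2 ≤ σ → σ ≤ 5 / 2 →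
    riemannZeta ((⟨σ, U⟩ : ℂ) + hh δ) ≠ 0 ∧ riemannZeta ((⟨σ, U⟩ : ℂ) - hh δ) ≠ 0 ∧
    ‖XX t0 (DD T) δ N (⟨σ, U⟩ : ℂ)‖ ≤ 1 / 100 ∧ ‖YY t0 (DD T) δ N (⟨σ, U⟩ : ℂ)‖ ≤ 1 / 100

/-- (ID) if the zeros in `[T, 2T]` are simple, on the line and separated, the imaginary part of the
integral of `XX` is essentially nonpositive; and `YY` may be moved to the critical line -/
def S_ID : Prop := ∀ K : ℝ, 0 ≤ K → ∃ T0 : ℝ, 100 ≤ T0 ∧ ∀ T : ℝ, T0 ≤ T → ∀ δ : ℝ,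
  2 ≤ δ * Real.log T → δ * Real.log T ≤ 4 → Sep δ T → ∀ N : ℕ, 1 ≤ N → (N : ℝ) ≤ Real.exp K * T →
  ∃ U1 U2 : ℝ, Win T U1 U2 ∧ ∀ t0 : ℝ, Cen T t0 →
    (∫ t in U1..U2, XX t0 (DD T) δ N (⟨5 / 2, t⟩ : ℂ)).im ≤ 1 ∧
    ‖(∫ t in U1..U2, YY t0 (DD T) δ N (⟨5 / 2, t⟩ : ℂ)) -
      ∫ t in U1..U2, YY t0 (DD T) δ N (⟨1 / 2, t⟩ : ℂ)‖ ≤ 1

/-! ### On the critical line -/

/-- the main integral -/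
noncomputable def JJ (t0 D δ : ℝ) (N : ℕ) : ℂ :=
  ∫ t : ℝ, (Real.exp (-(t - t0) ^ 2 / (2 * D ^ 2)) : ℂ) *
    AA N (1 / 2 + I * (t + (δ / 2 : ℝ))) * AA N (1 / 2 - I * (t + (-(δ / 2) : ℝ)))

/-- the mean square -/
noncomputable def MS (t0 D a : ℝ) (N : ℕ) : ℝ :=
  ∫ t : ℝ, Real.exp (-(t - t0) ^ 2 / (2 * D ^ 2)) * ‖AA N (1 / 2 + I * (t + a))‖ ^ 2

/-- (LINE) the main integral on the critical line; `B` does not depend on `K` -/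
def S_LINE : Prop := ∃ B : ℝ, 0 < B ∧ ∀ K : ℝ, 0 ≤ K → ∃ T0 : ℝ, 100 ≤ T0 ∧ ∀ T : ℝ, T0 ≤ T →
  ∀ δ t0 U1 U2 : ℝ, 0 < δ → δ * Real.log T ≤ 4 → Cen T t0 → Win T U1 U2 →
  ∀ N : ℕ, 1 ≤ N → (N : ℝ) ≤ Real.exp K * T →
  ‖(∫ t in U1..U2, YY t0 (DD T) δ N (⟨1 / 2, t⟩ : ℂ)) -
      cexp (-((δ * Real.log T / 2 : ℝ) : ℂ) * I) * JJ t0 (DD T) δ N‖ ≤
    B / Real.log T * (MS t0 (DD T) (δ / 2) N + MS t0 (DD T) (-(δ / 2)) N) + 1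

/-- double average over the centres -/
noncomputable def AV (T : ℝ) (f : ℝ → ℝ) : ℝ :=
  ∫ x in (0 : ℝ)..T / 4, ∫ y in (0 : ℝ)..T / 4, f (5 / 4 * T + x + y)

/-- the averaged exponential with the Gaussian factor -/
noncomputable def WW (T D ξ : ℝ) : ℝ :=
  Real.exp (-(D ^ 2 * ξ ^ 2 / 2)) *
    ∫ x in (0 : ℝ)..T / 4, ∫ y in (0 : ℝ)..T / 4, Real.cos (ξ * (5 / 4 * T + x + y))

/-- `μ(n)` as a real number -/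
noncomputable def mu (n : ℕ) : ℝ := ((ArithmeticFunction.moebius n : ℤ) : ℝ)

/-- one term of the main sum -/
noncomputable def TT (T D δ : ℝ) (m n : ℕ) : ℝ :=
  mu m * mu n / Real.sqrt (m * n) *
    Real.sin (δ * Real.log T / 2 + δ * (Real.log m + Real.log n) / 2) *
    WW T D (Real.log n - Real.log m)

/-- (AVJ) the average of the main integral -/
def S_AVJ : Prop := ∀ (T D δ : ℝ) (N : ℕ), 1 ≤ T → 0 < D →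
  AV T (fun t0 => (cexp (-((δ * Real.log T / 2 : ℝ) : ℂ) * I) * JJ t0 D δ N).im) =
    -(D * Real.sqrt (2 * Real.pi)) *
      ∑ m ∈ Finset.Icc 1 N, ∑ n ∈ Finset.Icc 1 N, TT T D δ m n

/-- (CONT) continuity in the centre -/
def S_CONT : Prop := ∀ (D δ a : ℝ) (N : ℕ), 0 < D →
  Continuous (fun t0 => JJ t0 D δ N) ∧ Continuous (fun t0 => MS t0 D a N)

/-- (AVMS) the average of the mean square -/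
def S_AVMS : Prop := ∃ B : ℝ, 0 < B ∧ ∀ (T D a : ℝ) (N : ℕ), 1 ≤ T → 0 < D → 1 ≤ N →
  AV T (fun t0 => MS t0 D a N) ≤ D * B * (T ^ 2 * (1 + Real.log N) + (N : ℝ) ^ 2)

/-- (WWB) bounds for `WW` -/
def S_WWB : Prop := ∀ T D : ℝ, 1 ≤ T → 0 ≤ D → D ≤ T →
  (∀ ξ : ℝ, |WW T D ξ| ≤ T ^ 2 / 16) ∧ (∀ ξ : ℝ, ξ ≠ 0 → |WW T D ξ| ≤ 4 / ξ ^ 2) ∧
  WW T D 0 = T ^ 2 / 16 ∧
  ∀ H ξ ξ' : ℝ, 0 ≤ H → |ξ| ≤ H / T → |ξ'| ≤ H / T →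
    |WW T D ξ - WW T D ξ'| ≤ (H + 2) * T ^ 3 * |ξ - ξ'|

/-- (PAIR) pair sums of absolute values -/
def S_PAIR : Prop := ∃ B : ℝ, 0 < B ∧
  (∀ N : ℕ, ∑ m ∈ Finset.Icc 1 N, ∑ n ∈ Finset.Icc 1 N, (if m = n then 0 else
    1 / (Real.sqrt (m * n) * (Real.log n - Real.log m) ^ 2)) ≤ B * (N : ℝ) ^ 2) ∧
  ∀ K : ℝ, 0 ≤ K → ∀ H : ℕ, 1 ≤ H → ∃ T0 : ℝ, 1 ≤ T0 ∧ ∀ T : ℝ, T0 ≤ T → ∀ N : ℕ,
    (N : ℝ) ≤ Real.exp K * T →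
    ∑ m ∈ Finset.Icc 1 N, ∑ n ∈ Finset.Icc 1 N,
      (if m = n ∨ (T < m ∧ T < n ∧ m ≤ n + H ∧ n ≤ m + H) then 0 else
        1 / (Real.sqrt (m * n) * (Real.log n - Real.log m) ^ 2)) ≤
      B * (1 + Real.exp (2 * K) / H) * T ^ 2

/-- (DIAG) the diagonal -/
def S_DIAG : Prop := ∃ c B : ℝ, 0 < c ∧ 0 < B ∧ ∀ C K : ℝ, 0 ≤ C → 0 ≤ K → ∃ T0 : ℝ, 100 ≤ T0 ∧
  ∀ T : ℝ, T0 ≤ T →
  ∑ n ∈ Finset.Icc 1 (NK K T), mu n ^ 2 / n *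
    Real.sin (dc C T * Real.log T / 2 + dc C T * Real.log n) ≤ -(c * K) + B * (1 + C)

/-- (CHOW) the two point correlations of `μ` at almost all scales -/
def Chow (E : Set ℕ) : Prop := ∀ h : ℕ, 1 ≤ h → ∀ K ε : ℝ, 0 ≤ K → 0 < ε → ∃ T0 : ℕ, ∀ T : ℕ,
  T0 ≤ T → T ∉ E → ∀ x : ℕ, T ≤ x → (x : ℝ) ≤ Real.exp K * T →
    |∑ n ∈ Finset.range x, mu n * mu (n + h)| ≤ ε * x

/-- (NEARD) the terms near the diagonal -/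
def S_NEARD : Prop := ∀ K : ℝ, 0 ≤ K → ∀ H : ℕ, 1 ≤ H → ∀ ε : ℝ, 0 < ε → ∃ ε' : ℝ, 0 < ε' ∧
  ∃ T0 : ℕ, ∀ T : ℕ, T0 ≤ T →
  (∀ h : ℕ, 1 ≤ h → h ≤ H → ∀ x : ℕ, T ≤ x → (x : ℝ) ≤ Real.exp K * T →
    |∑ n ∈ Finset.range x, mu n * mu (n + h)| ≤ ε' * x) →
  ∀ (δ : ℝ) (N : ℕ), 0 < δ → δ * Real.log T ≤ 4 → (N : ℝ) ≤ Real.exp K * T →
    |∑ m ∈ Finset.Icc 1 N, ∑ n ∈ Finset.Icc 1 N,
      (if m ≠ n ∧ (T : ℝ) < m ∧ (T : ℝ) < n ∧ m ≤ n + H ∧ n ≤ m + H then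
        TT T (DD T) δ m n else 0)| ≤ ε * (T : ℝ) ^ 2

end Pool.Agent.N806.HG
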