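import Mathlib
import Pool.Agent.N806.HG.Stm

/-!
Project HG: pair sums of absolute values (helper99, subtask HG/PAIR).
-/

set_option autoImplicit false

open Finset

namespace Pool.Agent.N806.HG

namespace PAIRx

/-- the term -/
noncomputable def ff (m n : ℕ) : ℝ := 1 / (Real.sqrt (m * n) * (Real.log n - Real.log m) ^ 2)

/-- the part near the diagonal -/
noncomputable def aa (k m n : ℕ) : ℝ := if m + k < n then 4 * (m : ℝ) / ((n : ℝ) - m) ^ 2 else 0

/-- the part far from the diagonal -/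
noncomputable def bb (m n : ℕ) : ℝ := 3 * (1 / Real.sqrt m) * (1 / Real.sqrt n)

theorem aa_nonneg (k m n : ℕ) : 0 ≤ aa k m n := by
  unfold aa
  split_ifs
  · positivity
  · exact le_rfl

theorem bb_nonneg (m n : ℕ) : 0 ≤ bb m n := by
  unfold bb; positivity

theorem bb_comm (m n : ℕ) : bb m n = bb n m := by
  unfold bb; ring

theorem ff_comm (m n : ℕ) : ff m n = ff n m := by
  unfold ff
  rw [mul_comm (m : ℝ) n, show (Real.log n - Real.log m) ^ 2 = (Real.log m - Real.log n) ^ 2 by ring]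

theorem ff_nonneg (m n : ℕ) : 0 ≤ ff m n := by
  unfold ff; positivity

theorem ff_le {m n : ℕ} (hm : 1 ≤ m) (h : m < n) :
    ff m n ≤ 4 * (m : ℝ) / ((n : ℝ) - m) ^ 2 + bb m n := by
  have hm' : (1 : ℝ) ≤ m := by exact_mod_cast hm
  have hmn : (m : ℝ) + 1 ≤ n := by exact_mod_cast h
  have m0 : (0 : ℝ) < m := by linarith
  have n0 : (0 : ℝ) < n := by linarith
  have hlog : (n - m : ℝ) / n ≤ Real.log n - Real.log m := by
    rw [← Real.log_div n0.ne' m0.ne']
    have h1 := Real.one_sub_inv_le_log_of_pos (x := (n : ℝ) / m) (by positivity)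
    calc (n - m : ℝ) / n = 1 - ((n : ℝ) / m)⁻¹ := by
          rw [inv_div]; field_simp
      _ ≤ _ := h1
  have hpos : 0 < (n - m : ℝ) / n := by
    apply div_pos _ n0; linarith
  rcases le_or_gt n (2 * m) with h2 | h2
  · have h2' : (n : ℝ) ≤ 2 * m := by exact_mod_cast h2
    have h3 : ff m n ≤ 4 * (m : ℝ) / ((n : ℝ) - m) ^ 2 := by
      unfold ff
      have s1 : (m : ℝ) ≤ Real.sqrt (m * n) := by
        apply Real.le_sqrt_of_sq_le; nlinarith
      have s2 : (n - m : ℝ) / (2 * m) ≤ Real.log n - Real.log m := by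
        refine le_trans ?_ hlog
        apply div_le_div_of_nonneg_left (by linarith) n0 h2'
      have s3 : 0 < (n - m : ℝ) / (2 * m) := by
        apply div_pos _ (by linarith); linarith
      have s4 : ((n - m : ℝ) / (2 * m)) ^ 2 ≤ (Real.log n - Real.log m) ^ 2 :=
        pow_le_pow_left₀ s3.le s2 2
      have s5 : (m : ℝ) * ((n - m : ℝ) / (2 * m)) ^ 2 ≤
          Real.sqrt (m * n) * (Real.log n - Real.log m) ^ 2 :=
        mul_le_mul s1 s4 (by positivity) (by positivity)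
      have s6 : 0 < (m : ℝ) * ((n - m : ℝ) / (2 * m)) ^ 2 := by positivity
      calc 1 / (Real.sqrt (m * n) * (Real.log n - Real.log m) ^ 2)
          ≤ 1 / ((m : ℝ) * ((n - m : ℝ) / (2 * m)) ^ 2) := one_div_le_one_div_of_le s6 s5
        _ = 4 * (m : ℝ) / ((n : ℝ) - m) ^ 2 := by
            have : (n : ℝ) - m ≠ 0 := by linarith
            field_simp
            ring
    linarith [bb_nonneg m n]
  · have h2' : (2 : ℝ) * m ≤ n := by exact_mod_cast h2.le
    have h3 : ff m n ≤ bb m n := by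
      unfold ff bb
      have s1 : Real.log 2 ≤ Real.log n - Real.log m := by
        rw [← Real.log_div n0.ne' m0.ne']
        apply Real.log_le_log (by norm_num)
        rw [le_div_iff₀ m0]; exact h2'
      have s2 : (1 / 3 : ℝ) ≤ (Real.log n - Real.log m) ^ 2 := by
        have := Real.log_two_gt_d9
        nlinarith
      have s3 : 0 < Real.sqrt (m * n) := Real.sqrt_pos.2 (by positivity)
      calc 1 / (Real.sqrt (m * n) * (Real.log n - Real.log m) ^ 2)
          ≤ 1 / (Real.sqrt (m * n) * (1 / 3)) := by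
            apply one_div_le_one_div_of_le (by positivity)
            exact mul_le_mul_of_nonneg_left s2 s3.le
        _ = 3 * (1 / Real.sqrt m) * (1 / Real.sqrt n) := by
            rw [Real.sqrt_mul m0.le]
            have := Real.sqrt_pos.2 m0
            have := Real.sqrt_pos.2 n0
            field_simp
    have : 0 ≤ 4 * (m : ℝ) / ((n : ℝ) - m) ^ 2 := by positivity
    linarith

/-- sums of inverse squares -/
theorem sum_sq (m N : ℕ) : ∑ n ∈ Icc 1 N, aa 0 m n ≤ 8 * m := by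
  have h1 : ∑ n ∈ Icc 1 N, aa 0 m n ≤ 4 * (m : ℝ) * ∑ h ∈ Ioo 0 (N + 1), ((h : ℝ) ^ 2)⁻¹ := by
    unfold aa
    rw [← sum_filter, mul_sum]
    have hinj : Set.InjOn (fun n => n - m) ((Icc 1 N).filter fun n => m + 0 < n) := by
      intro a ha b hb hab
      simp only [coe_filter, Set.mem_setOf_eq] at ha hb
      simp only at hab
      omega
    have e : ∑ n ∈ (Icc 1 N).filter (fun n => m + 0 < n), 4 * (m : ℝ) / ((n : ℝ) - m) ^ 2 =
        ∑ h ∈ ((Icc 1 N).filter fun n => m + 0 < n).image (fun n => n - m),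
          4 * (m : ℝ) * ((h : ℝ) ^ 2)⁻¹ := by
      rw [sum_image hinj]
      refine sum_congr rfl fun n hn => ?_
      simp only [mem_filter] at hn
      rw [Nat.cast_sub (by omega), div_eq_mul_inv]
    rw [e]
    refine sum_le_sum_of_subset_of_nonneg ?_ (fun _ _ _ => by positivity)
    intro h hh
    simp only [mem_image, mem_filter, mem_Icc, mem_Ioo] at hh ⊢
    obtain ⟨n, hn, rfl⟩ := hh
    omega
  have h2 := sum_Ioo_inv_sq_le (α := ℝ) 0 (N + 1)
  have h3 : (0 : ℝ) ≤ 4 * (m : ℝ) := by positivity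
  refine h1.trans ?_
  have := mul_le_mul_of_nonneg_left h2 h3
  norm_num at this ⊢
  linarith

theorem sum_sq_tail {k : ℕ} (hk : 1 ≤ k) (m N : ℕ) : ∑ n ∈ Icc 1 N, aa k m n ≤ 4 * m / k := by
  have h1 : ∑ n ∈ Icc 1 N, aa k m n ≤ 4 * (m : ℝ) * ∑ h ∈ Ioc k (k + N), ((h : ℝ) ^ 2)⁻¹ := by
    unfold aa
    rw [← sum_filter, mul_sum]
    have hinj : Set.InjOn (fun n => n - m) ((Icc 1 N).filter fun n => m + k < n) := by
      intro a ha b hb hab
      simp only [coe_filter, Set.mem_setOf_eq] at ha hb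
      simp only at hab
      omega
    have e : ∑ n ∈ (Icc 1 N).filter (fun n => m + k < n), 4 * (m : ℝ) / ((n : ℝ) - m) ^ 2 =
        ∑ h ∈ ((Icc 1 N).filter fun n => m + k < n).image (fun n => n - m),
          4 * (m : ℝ) * ((h : ℝ) ^ 2)⁻¹ := by
      rw [sum_image hinj]
      refine sum_congr rfl fun n hn => ?_
      simp only [mem_filter] at hn
      rw [Nat.cast_sub (by omega), div_eq_mul_inv]
    rw [e]
    refine sum_le_sum_of_subset_of_nonneg ?_ (fun _ _ _ => by positivity)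
    intro h hh
    simp only [mem_image, mem_filter, mem_Icc, mem_Ioc] at hh ⊢
    obtain ⟨n, hn, rfl⟩ := hh
    omega
  have h2 := sum_Ioc_inv_sq_le_sub (α := ℝ) (k := k) (n := k + N) (by omega) (by omega)
  have h3 : (0 : ℝ) ≤ 4 * (m : ℝ) := by positivity
  have h4 : (0 : ℝ) ≤ ((k + N : ℕ) : ℝ)⁻¹ := by positivity
  refine h1.trans ?_
  calc 4 * (m : ℝ) * ∑ h ∈ Ioc k (k + N), ((h : ℝ) ^ 2)⁻¹ ≤ 4 * (m : ℝ) * (k : ℝ)⁻¹ :=
        mul_le_mul_of_nonneg_left (h2.trans (by linarith)) h3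
    _ = 4 * m / k := by rw [div_eq_mul_inv]

theorem sum_inv_sqrt (N : ℕ) : ∑ m ∈ Icc 1 N, 1 / Real.sqrt m ≤ 2 * Real.sqrt N := by
  induction N with
  | zero => simp
  | succ N ih =>
    rw [sum_Icc_succ_top (by omega)]
    have h1 : 1 / Real.sqrt ((N + 1 : ℕ) : ℝ) ≤
        2 * Real.sqrt ((N + 1 : ℕ) : ℝ) - 2 * Real.sqrt N := by
      push_cast
      set a := Real.sqrt ((N : ℝ) + 1) with ha
      set b := Real.sqrt (N : ℝ) with hb
      have ha0 : 0 < a := Real.sqrt_pos.2 (by positivity)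
      have hb0 : 0 ≤ b := Real.sqrt_nonneg _
      have ha2 : a ^ 2 = N + 1 := Real.sq_sqrt (by positivity)
      have hb2 : b ^ 2 = N := Real.sq_sqrt (by positivity)
      rw [div_le_iff₀ ha0]
      nlinarith [sq_nonneg (a - b)]
    linarith

theorem sum_bb (N : ℕ) : ∑ m ∈ Icc 1 N, ∑ n ∈ Icc 1 N, bb m n ≤ 12 * N := by
  have e : ∑ m ∈ Icc 1 N, ∑ n ∈ Icc 1 N, bb m n =
      3 * ((∑ m ∈ Icc 1 N, 1 / Real.sqrt m) * ∑ n ∈ Icc 1 N, 1 / Real.sqrt n) := by
    rw [sum_mul_sum, mul_sum]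
    refine sum_congr rfl fun m _ => ?_
    rw [mul_sum]
    refine sum_congr rfl fun n _ => ?_
    unfold bb; ring
  rw [e]
  have h1 := sum_inv_sqrt N
  have h0 : 0 ≤ ∑ m ∈ Icc 1 N, 1 / Real.sqrt m := sum_nonneg fun _ _ => by positivity
  have h2 : (∑ m ∈ Icc 1 N, 1 / Real.sqrt m) * ∑ n ∈ Icc 1 N, 1 / Real.sqrt n ≤
      (2 * Real.sqrt N) * (2 * Real.sqrt N) := mul_le_mul h1 h1 h0 (by positivity)
  have h3 : Real.sqrt N * Real.sqrt N = N := Real.mul_self_sqrt (by positivity)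
  nlinarith

theorem sum_id_le (S : Finset ℕ) (N : ℕ) (R : ℝ) (hS : ∀ m ∈ S, 1 ≤ m ∧ (m : ℝ) ≤ R) (hR : 0 ≤ R) :
    ∑ m ∈ S, (m : ℝ) ≤ R ^ 2 := by
  have h1 : S ⊆ Icc 1 ⌊R⌋₊ := by
    intro m hm
    rw [mem_Icc]
    exact ⟨(hS m hm).1, Nat.le_floor (hS m hm).2⟩
  have h2 : (S.card : ℝ) ≤ R := by
    have := card_le_card h1
    rw [Nat.card_Icc, Nat.add_sub_cancel] at this
    exact le_trans (by exact_mod_cast this) (Nat.floor_le hR)
  calc ∑ m ∈ S, (m : ℝ) ≤ ∑ m ∈ S, R := sum_le_sum fun m hm => (hS m hm).2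
    _ = S.card * R := by rw [sum_const, nsmul_eq_mul]
    _ ≤ R * R := mul_le_mul_of_nonneg_right h2 hR
    _ = R ^ 2 := by ring

end PAIRx

open PAIRx in
/-- pair sums -/
theorem p_PAIR : S_PAIR := by
  refine ⟨40, by norm_num, ?_, ?_⟩
  · intro N
    have h1 : ∀ m ∈ Icc 1 N, ∀ n ∈ Icc 1 N, (if m = n then 0 else
        1 / (Real.sqrt (m * n) * (Real.log n - Real.log m) ^ 2)) ≤
        aa 0 m n + aa 0 n m + bb m n := by
      intro m hm n hn
      rw [mem_Icc] at hm hn
      have a1 := aa_nonneg 0 m n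
      have a2 := aa_nonneg 0 n m
      have a3 := bb_nonneg m n
      rcases lt_trichotomy m n with h | h | h
      · rw [if_neg h.ne]
        have h2 := ff_le hm.1 h
        have h3 : aa 0 m n = 4 * (m : ℝ) / ((n : ℝ) - m) ^ 2 := by unfold aa; rw [if_pos (by omega)]
        unfold ff at h2
        linarith
      · rw [if_pos h]; linarith
      · rw [if_neg h.ne']
        have h2 := ff_le hn.1 h
        have h3 : aa 0 n m = 4 * (n : ℝ) / ((m : ℝ) - n) ^ 2 := by unfold aa; rw [if_pos (by omega)]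
        rw [ff_comm, bb_comm] at h2
        unfold ff at h2
        linarith
    have h2 : ∑ m ∈ Icc 1 N, ∑ n ∈ Icc 1 N, aa 0 m n ≤ 8 * (N : ℝ) ^ 2 := by
      calc ∑ m ∈ Icc 1 N, ∑ n ∈ Icc 1 N, aa 0 m n ≤ ∑ m ∈ Icc 1 N, 8 * (m : ℝ) :=
            sum_le_sum fun m _ => sum_sq m N
        _ = 8 * ∑ m ∈ Icc 1 N, (m : ℝ) := by rw [mul_sum]
        _ ≤ 8 * (N : ℝ) ^ 2 := by
            refine mul_le_mul_of_nonneg_left (sum_id_le _ N N (fun m hm => ?_) (by positivity)) (by norm_num)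
            rw [mem_Icc] at hm
            exact ⟨hm.1, by exact_mod_cast hm.2⟩
    have h3 : ∑ m ∈ Icc 1 N, ∑ n ∈ Icc 1 N, aa 0 n m ≤ 8 * (N : ℝ) ^ 2 := by
      rw [sum_comm]; exact h2
    have h4 := sum_bb N
    have h5 : (N : ℝ) ≤ (N : ℝ) ^ 2 := by
      rcases Nat.eq_zero_or_pos N with h | h
      · rw [h]; simp
      · have : (1 : ℝ) ≤ N := by exact_mod_cast h
        nlinarith
    calc _ ≤ ∑ m ∈ Icc 1 N, ∑ n ∈ Icc 1 N, (aa 0 m n + aa 0 n m + bb m n) :=
          sum_le_sum fun m hm => sum_le_sum fun n hn => h1 m hm n hn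
      _ = ∑ m ∈ Icc 1 N, ∑ n ∈ Icc 1 N, aa 0 m n + ∑ m ∈ Icc 1 N, ∑ n ∈ Icc 1 N, aa 0 n m +
          ∑ m ∈ Icc 1 N, ∑ n ∈ Icc 1 N, bb m n := by
          simp only [sum_add_distrib]
      _ ≤ 40 * (N : ℝ) ^ 2 := by linarith
  · intro K hK H hH
    refine ⟨12 * Real.exp K, by have := Real.add_one_le_exp K; linarith, ?_⟩
    intro T hT N hN
    have hT0 : 0 ≤ T := le_trans (by positivity) hT
    have hH' : (1 : ℝ) ≤ H := by exact_mod_cast hH
    set a1 : ℕ → ℕ → ℝ := fun m n => if (m : ℝ) ≤ T then aa 0 m n else 0 with ha1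
    have a1n : ∀ m n, 0 ≤ a1 m n := by
      intro m n
      rw [ha1]
      simp only
      split_ifs
      · exact aa_nonneg 0 m n
      · exact le_rfl
    have h1 : ∀ m ∈ Icc 1 N, ∀ n ∈ Icc 1 N,
        (if m = n ∨ (T < m ∧ T < n ∧ m ≤ n + H ∧ n ≤ m + H) then 0 else
        1 / (Real.sqrt (m * n) * (Real.log n - Real.log m) ^ 2)) ≤
        (a1 m n + a1 n m) + (aa H m n + aa H n m) + bb m n := by
      intro m hm n hn
      rw [mem_Icc] at hm hn
      have e1 := a1n m n
      have e2 := a1n n m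
      have e3 := bb_nonneg m n
      have e4 := aa_nonneg H m n
      have e5 := aa_nonneg H n m
      split_ifs with hc
      · linarith
      · push Not at hc
        obtain ⟨hne, hc⟩ := hc
        rcases lt_or_gt_of_ne hne with h | h
        · have h2 := ff_le hm.1 h
          unfold ff at h2
          by_cases hmT : (m : ℝ) ≤ T
          · have h3 : a1 m n = 4 * (m : ℝ) / ((n : ℝ) - m) ^ 2 := by
              rw [ha1]; simp only; rw [if_pos hmT]; unfold aa; rw [if_pos (by omega)]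
            linarith
          · push Not at hmT
            have hnT : T < n := lt_trans hmT (by exact_mod_cast h)
            have h3 := hc hmT hnT (by omega)
            have h4 : aa H m n = 4 * (m : ℝ) / ((n : ℝ) - m) ^ 2 := by
              unfold aa; rw [if_pos (by omega)]
            linarith
        · have h2 := ff_le hn.1 h
          rw [ff_comm, bb_comm] at h2
          unfold ff at h2
          by_cases hnT : (n : ℝ) ≤ T
          · have h3 : a1 n m = 4 * (n : ℝ) / ((m : ℝ) - n) ^ 2 := by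
              rw [ha1]; simp only; rw [if_pos hnT]; unfold aa; rw [if_pos (by omega)]
            linarith
          · push Not at hnT
            have hmT : T < m := lt_trans hnT (by exact_mod_cast h)
            have h3 : ¬ m ≤ n + H := fun h5 => by
              have := hc hmT hnT h5
              omega
            have h4 : aa H n m = 4 * (n : ℝ) / ((m : ℝ) - n) ^ 2 := by
              unfold aa; rw [if_pos (by omega)]
            linarith
    have h2 : ∑ m ∈ Icc 1 N, ∑ n ∈ Icc 1 N, a1 m n ≤ 8 * T ^ 2 := by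
      calc ∑ m ∈ Icc 1 N, ∑ n ∈ Icc 1 N, a1 m n
          ≤ ∑ m ∈ Icc 1 N, (if (m : ℝ) ≤ T then 8 * (m : ℝ) else 0) := by
            refine sum_le_sum fun m _ => ?_
            rw [ha1]
            simp only
            split_ifs with h
            · exact sum_sq m N
            · simp
        _ = 8 * ∑ m ∈ (Icc 1 N).filter (fun m : ℕ => (m : ℝ) ≤ T), (m : ℝ) := by
            rw [← sum_filter, mul_sum]
        _ ≤ 8 * T ^ 2 := by
            refine mul_le_mul_of_nonneg_left (sum_id_le _ N T (fun m hm => ?_) hT0) (by norm_num)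
            rw [mem_filter, mem_Icc] at hm
            exact ⟨hm.1.1, hm.2⟩
    have h2' : ∑ m ∈ Icc 1 N, ∑ n ∈ Icc 1 N, a1 n m ≤ 8 * T ^ 2 := by
      rw [sum_comm]; exact h2
    have h3 : ∑ m ∈ Icc 1 N, ∑ n ∈ Icc 1 N, aa H m n ≤ 4 * (N : ℝ) ^ 2 / H := by
      calc ∑ m ∈ Icc 1 N, ∑ n ∈ Icc 1 N, aa H m n ≤ ∑ m ∈ Icc 1 N, 4 * (m : ℝ) / H :=
            sum_le_sum fun m _ => sum_sq_tail hH m N
        _ = 4 / H * ∑ m ∈ Icc 1 N, (m : ℝ) := by
            rw [mul_sum]; exact sum_congr rfl fun m _ => by ring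
        _ ≤ 4 / H * (N : ℝ) ^ 2 := by
            refine mul_le_mul_of_nonneg_left (sum_id_le _ N N (fun m hm => ?_) (by positivity))
              (by positivity)
            rw [mem_Icc] at hm
            exact ⟨hm.1, by exact_mod_cast hm.2⟩
        _ = 4 * (N : ℝ) ^ 2 / H := by ring
    have h3' : ∑ m ∈ Icc 1 N, ∑ n ∈ Icc 1 N, aa H n m ≤ 4 * (N : ℝ) ^ 2 / H := by
      rw [sum_comm]; exact h3
    have h4 := sum_bb N
    have hN2 : (N : ℝ) ^ 2 ≤ Real.exp (2 * K) * T ^ 2 := by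
      calc (N : ℝ) ^ 2 ≤ (Real.exp K * T) ^ 2 := pow_le_pow_left₀ (by positivity) hN 2
        _ = Real.exp (2 * K) * T ^ 2 := by
            rw [mul_pow, ← Real.exp_nat_mul]; norm_num
    have h5 : 4 * (N : ℝ) ^ 2 / H ≤ 4 * (Real.exp (2 * K) / H) * T ^ 2 := by
      rw [div_le_iff₀ (by linarith)]
      have : 4 * (Real.exp (2 * K) / H) * T ^ 2 * H = 4 * (Real.exp (2 * K) * T ^ 2) := by
        field_simp
      rw [this]
      linarith
    have h6 : 12 * (N : ℝ) ≤ T ^ 2 := by nlinarith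
    calc _ ≤ ∑ m ∈ Icc 1 N, ∑ n ∈ Icc 1 N, ((a1 m n + a1 n m) + (aa H m n + aa H n m) + bb m n) :=
          sum_le_sum fun m hm => sum_le_sum fun n hn => h1 m hm n hn
      _ = (∑ m ∈ Icc 1 N, ∑ n ∈ Icc 1 N, a1 m n + ∑ m ∈ Icc 1 N, ∑ n ∈ Icc 1 N, a1 n m) +
          (∑ m ∈ Icc 1 N, ∑ n ∈ Icc 1 N, aa H m n + ∑ m ∈ Icc 1 N, ∑ n ∈ Icc 1 N, aa H n m) +
          ∑ m ∈ Icc 1 N, ∑ n ∈ Icc 1 N, bb m n := by
          simp only [sum_add_distrib]
      _ ≤ 40 * (1 + Real.exp (2 * K) / H) * T ^ 2 := by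
          have h7 : 0 ≤ (Real.exp (2 * K) / H) * T ^ 2 := by positivity
          have h8 : 0 ≤ T ^ 2 := by positivity
          nlinarith

end Pool.Agent.N806.HG
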