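import Pool.Agent.N806.HG.Stm
import Pool.Agent.H382R2.Gam

/-!
Project HG, statements RRB and RRP: bounds for the Gamma factor `rr`, uniform in `δ`.
The proofs are those of `SG.rr_bound` and `SG.rr_phase`.
-/

set_option autoImplicit false

open Complex Filter Topology Set MeasureTheory

namespace Pool.Agent.N806.HG

open SG SG.GamAux

/-- the threshold: `T ≥ max 100 (exp 7)` makes `δ ≤ 1` -/
lemma small_of {T δ : ℝ} (hT : max 100 (Real.exp 7) ≤ T) (hδ : 0 < δ)
    (hδT : δ * Real.log T ≤ 4) : δ ≤ 1 := by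
  have h1 : 7 ≤ Real.log T := by
    have : Real.exp 7 ≤ T := (le_max_right _ _).trans hT
    rw [Real.le_log_iff_exp_le (by linarith [Real.exp_pos 7])]
    exact this
  nlinarith

theorem p_RRB : S_RRB := by
  obtain ⟨C, hC, h⟩ := shift
  refine ⟨Real.exp C, max 100 (Real.exp 7), Real.one_le_exp (by linarith), le_max_left _ _, ?_⟩
  intro T hT δ hδ hδT s h1 h2 h3
  have hT100 : 100 ≤ T := (le_max_left _ _).trans hT
  have hd1 := small_of hT hδ hδT
  have hd0 := hδ
  have habs : |s.im| = s.im := abs_of_nonneg (by linarith)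
  have hu : |δ / 2| ≤ 1 := by
    rw [abs_of_nonneg (by linarith)]; linarith
  have hu2 : |δ / 2| ≤ 1 / 2 := by
    rw [abs_of_nonneg (by linarith)]; linarith
  obtain ⟨_, k1, _⟩ := h s (δ / 2) T (by linarith) (by rw [habs]; linarith)
    (by rw [habs]; linarith) (by rw [habs]; linarith) (by rw [habs]; linarith) hu
  have him : |(1 - s).im| = s.im := by simp [habs]
  have hre : |(1 - s).re| ≤ 1 + T / 4 := by
    have := abs_sub (1 : ℝ) s.re
    simp only [sub_re, one_re]
    calc |1 - s.re| ≤ |(1 : ℝ)| + |s.re| := abs_sub _ _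
      _ ≤ _ := by rw [abs_one]; linarith
  obtain ⟨_, k2, _⟩ := h (1 - s) (δ / 2) T (by linarith) (by rw [him]; linarith)
    (by rw [him]; linarith) (by rw [him]; linarith) (by rw [him]; linarith) hu
  have e : rr δ s = (Gammaℝ s / Gammaℝ (s + I * ((δ / 2 : ℝ) : ℂ))) *
      (Gammaℝ (1 - s) / Gammaℝ (1 - s + I * ((δ / 2 : ℝ) : ℂ))) := by
    unfold rr
    rw [hh_eq, show (1 : ℂ) - (s - I * ((δ / 2 : ℝ) : ℂ)) = 1 - s + I * ((δ / 2 : ℝ) : ℂ) by ring]
    rw [div_mul_div_comm]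
  rw [e, norm_mul]
  have hb : Real.exp (C * |δ / 2|) ≤ Real.exp (C / 2) := by
    apply Real.exp_le_exp.mpr
    nlinarith
  calc _ ≤ Real.exp (C / 2) * Real.exp (C / 2) := by
        gcongr
        · exact k1.trans hb
        · exact k2.trans hb
    _ = Real.exp C := by rw [← Real.exp_add]; ring_nf

theorem p_RRP : S_RRP := by
  obtain ⟨C, hC, h⟩ := shift
  refine ⟨8 * C * Real.exp C, max 100 (Real.exp 7), ?_, le_max_left _ _, ?_⟩
  · have := Real.one_le_exp (show 0 ≤ C by linarith)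
    nlinarith
  intro T hT δ hδ hδT t h1 h2
  have hT100 : 100 ≤ T := (le_max_left _ _).trans hT
  have hd1 := small_of hT hδ hδT
  have hlog : 0 < Real.log T := Real.log_pos (by linarith)
  set s : ℂ := ⟨1 / 2, t⟩ with hs
  have habs : |s.im| = t := by
    show |t| = t
    exact abs_of_nonneg (by linarith)
  have hsre : |s.re| = 1 / 2 := by
    show |(1 / 2 : ℝ)| = 1 / 2
    exact abs_of_nonneg (by norm_num)
  obtain ⟨u, hu'⟩ : ∃ u : ℝ, u = δ / 2 := ⟨_, rfl⟩
  have hu0 : 0 ≤ u := by rw [hu']; linarith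
  have habsu : |u| = u := abs_of_nonneg hu0
  have hu : |u| ≤ 1 := by
    rw [habsu]; linarith
  obtain ⟨_, k1, k1'⟩ := h s u T (by linarith) (by rw [habs]; linarith)
    (by rw [habs]; linarith) (by rw [habs]; linarith) (by rw [habs, hsre]; linarith) hu
  have him : |(1 - s).im| = t := by
    rw [sub_im, one_im, zero_sub, abs_neg, habs]
  have hre : |(1 - s).re| = 1 / 2 := by
    rw [sub_re, one_re, hs]
    norm_num
  obtain ⟨_, k2, k2'⟩ := h (1 - s) u T (by linarith) (by rw [him]; linarith)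
    (by rw [him]; linarith) (by rw [him]; linarith) (by rw [him, hre]; linarith) hu
  rw [habsu] at k1 k1' k2 k2'
  set a : ℂ := Gammaℝ s / Gammaℝ (s + I * u) * cexp (I * u * (Real.log T / 2 : ℝ)) with ha
  set b : ℂ := Gammaℝ (1 - s) / Gammaℝ (1 - s + I * u) * cexp (I * u * (Real.log T / 2 : ℝ)) with hb
  have hphase : I * u * (Real.log T / 2 : ℝ) + I * u * (Real.log T / 2 : ℝ) =
      (δ * Real.log T / 2 : ℝ) * I := by
    rw [hu']
    push_cast
    ring
  have e : rr δ s = a * b * cexp (-((δ * Real.log T / 2 : ℝ) : ℂ) * I) := by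
    rw [ha, hb]
    have e1 : Gammaℝ s / Gammaℝ (s + I * u) * cexp (I * u * (Real.log T / 2 : ℝ)) *
        (Gammaℝ (1 - s) / Gammaℝ (1 - s + I * u) * cexp (I * u * (Real.log T / 2 : ℝ))) *
        cexp (-((δ * Real.log T / 2 : ℝ) : ℂ) * I) =
        (Gammaℝ s / Gammaℝ (s + I * u)) * (Gammaℝ (1 - s) / Gammaℝ (1 - s + I * u)) *
        (cexp (I * u * (Real.log T / 2 : ℝ)) * cexp (I * u * (Real.log T / 2 : ℝ)) *
        cexp (-((δ * Real.log T / 2 : ℝ) : ℂ) * I)) := by ring
    rw [e1, ← Complex.exp_add, ← Complex.exp_add, hphase]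
    have e2 : ((δ * Real.log T / 2 : ℝ) : ℂ) * I + -((δ * Real.log T / 2 : ℝ) : ℂ) * I = 0 := by ring
    rw [e2, Complex.exp_zero, mul_one]
    unfold rr
    rw [hh_eq, ← hu', show (1 : ℂ) - (s - I * (u : ℂ)) = 1 - s + I * (u : ℂ) by ring]
    rw [div_mul_div_comm]
  have e2 : rr δ s - cexp (-((δ * Real.log T / 2 : ℝ) : ℂ) * I) =
      ((a - 1) * b + (b - 1)) * cexp (-((δ * Real.log T / 2 : ℝ) : ℂ) * I) := by
    rw [e]; ring
  have hn1 : ‖cexp (-((δ * Real.log T / 2 : ℝ) : ℂ) * I)‖ = 1 := by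
    rw [Complex.norm_exp]
    simp
  have hn2 : ‖cexp (I * u * (Real.log T / 2 : ℝ))‖ = 1 := by
    rw [Complex.norm_exp]
    simp
  have hnb : ‖b‖ ≤ Real.exp (C * u) := by
    rw [hb, norm_mul, hn2, mul_one]
    exact k2
  rw [e2, norm_mul, hn1, mul_one]
  have hCu : 0 ≤ C * u := by positivity
  have h1e : 1 ≤ Real.exp (C * u) := Real.one_le_exp hCu
  have step : ‖(a - 1) * b + (b - 1)‖ ≤ Real.exp (2 * (C * u)) - 1 := by
    calc _ ≤ ‖(a - 1) * b‖ + ‖b - 1‖ := norm_add_le _ _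
      _ = ‖a - 1‖ * ‖b‖ + ‖b - 1‖ := by rw [norm_mul]
      _ ≤ (Real.exp (C * u) - 1) * Real.exp (C * u) + (Real.exp (C * u) - 1) := by
        gcongr
      _ = Real.exp (2 * (C * u)) - 1 := by
        rw [two_mul, Real.exp_add]; ring
  refine step.trans ?_
  have hu1 : u ≤ 1 / 2 := by rw [hu']; linarith
  -- exp x - 1 ≤ x exp x
  have hx : ∀ x : ℝ, Real.exp x - 1 ≤ x * Real.exp x := by
    intro x
    have := Real.add_one_le_exp (-x)
    have h5 : Real.exp (-x) * Real.exp x = 1 := by rw [← Real.exp_add]; simp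
    have h6 := Real.exp_pos x
    nlinarith
  refine (hx _).trans ?_
  have hul : u * Real.log T ≤ 2 := by
    rw [hu']
    linarith
  rw [le_div_iff₀ hlog]
  have h7 : Real.exp (2 * (C * u)) ≤ Real.exp C := by
    apply Real.exp_le_exp.mpr
    nlinarith
  calc 2 * (C * u) * Real.exp (2 * (C * u)) * Real.log T
      = 2 * C * (u * Real.log T) * Real.exp (2 * (C * u)) := by ring
    _ ≤ 2 * C * 4 * Real.exp C := by
      have : u * Real.log T ≤ 4 := by linarith
      gcongr
    _ = _ := by ring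

end Pool.Agent.N806.HG
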