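import Pool.Agent.N806.HG.Stm
import Pool.Agent.H382R2.Dir

/-!
Project HG (helper806), part TAIL (written by helper196): the Dirichlet coefficients of
`ζ(s - h) A(s - h) / ζ(s + h) - A(s + h)` and the tail of the series.
-/

set_option autoImplicit false

open Complex Filter Topology Set MeasureTheory

namespace Pool.Agent.N806.HG

open SG



namespace TAIL

/-- first factor: `cc_N(a) a^h` -/
noncomputable def ff (δ : ℝ) (N : ℕ) (a : ℕ) : ℂ := cc N a * (a : ℂ) ^ (hh δ)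

/-- second factor: `mu(b) b^(-h)` -/
noncomputable def gg (δ : ℝ) (b : ℕ) : ℂ :=
  ((ArithmeticFunction.moebius b : ℤ) : ℂ) * (b : ℂ) ^ (-(hh δ))

theorem hh_re (δ : ℝ) : (hh δ).re = 0 := by simp [hh]

theorem norm_pow_hh (δ : ℝ) (n : ℕ) (hn : n ≠ 0) : ‖(n : ℂ) ^ (hh δ)‖ = 1 := by
  rw [Complex.norm_natCast_cpow_of_pos (Nat.pos_of_ne_zero hn), hh_re, Real.rpow_zero]

theorem norm_pow_hh' (δ : ℝ) (n : ℕ) (hn : n ≠ 0) : ‖(n : ℂ) ^ (-(hh δ))‖ = 1 := by
  rw [Complex.norm_natCast_cpow_of_pos (Nat.pos_of_ne_zero hn), Complex.neg_re, hh_re, neg_zero,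
    Real.rpow_zero]

theorem ff_has (δ : ℝ) (N : ℕ) (s : ℂ) (hs : 1 < s.re) :
    LSeriesHasSum (ff δ N) s (AA N (s - hh δ) * riemannZeta (s - hh δ)) := by
  have h := cc_LSeries N (s - hh δ) (by simp [hh_re]; exact hs)
  rw [LSeriesHasSum] at h ⊢
  have e : LSeries.term (ff δ N) s = LSeries.term (fun n => cc N n) (s - hh δ) := by
    funext n
    rcases eq_or_ne n 0 with rfl | hn
    · simp
    · have hn' : (n : ℂ) ≠ 0 := by exact_mod_cast hn
      rw [LSeries.term_of_ne_zero hn, LSeries.term_of_ne_zero hn, ff, Complex.cpow_sub _ _ hn']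
      field_simp
  rw [e]; exact h

theorem gg_has (δ : ℝ) (s : ℂ) (hs : 1 < s.re) :
    LSeriesHasSum (gg δ) s (1 / riemannZeta (s + hh δ)) := by
  have hs' : 1 < (s + hh δ).re := by simp [hh_re]; exact hs
  have h1 := (ArithmeticFunction.LSeriesSummable_moebius_iff.mpr hs').LSeriesHasSum
  have h2 := LSeries_one_mul_Lseries_moebius hs'
  rw [LSeries_one_eq_riemannZeta hs'] at h2
  have h3 : LSeries (fun n => ((ArithmeticFunction.moebius n : ℤ) : ℂ)) (s + hh δ) =
      1 / riemannZeta (s + hh δ) := by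
    rw [eq_div_iff (riemannZeta_ne_zero_of_one_lt_re hs'), mul_comm]; exact h2
  rw [h3] at h1
  rw [LSeriesHasSum] at h1 ⊢
  have e : LSeries.term (gg δ) s =
      LSeries.term (fun n => ((ArithmeticFunction.moebius n : ℤ) : ℂ)) (s + hh δ) := by
    funext n
    rcases eq_or_ne n 0 with rfl | hn
    · simp
    · have hn' : (n : ℂ) ≠ 0 := by exact_mod_cast hn
      rw [LSeries.term_of_ne_zero hn, LSeries.term_of_ne_zero hn, gg, Complex.cpow_add _ _ hn',
        Complex.cpow_neg]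
      field_simp
  rw [e]; exact h1

/-- the coefficients -/
noncomputable def co (δ : ℝ) (N : ℕ) : ℕ → ℂ := LSeries.convolution (ff δ N) (gg δ)

theorem co_eq (δ : ℝ) (N n : ℕ) :
    co δ N n = ∑ p ∈ n.divisorsAntidiagonal, ff δ N p.1 * gg δ p.2 := by
  rw [co, LSeries.convolution_def]

theorem co_has (δ : ℝ) (N : ℕ) (s : ℂ) (hs : 1 < s.re) :
    LSeriesHasSum (co δ N) s
      (AA N (s - hh δ) * riemannZeta (s - hh δ) * (1 / riemannZeta (s + hh δ))) :=
  (ff_has δ N s hs).convolution (gg_has δ s hs)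

theorem cc_le (N n : ℕ) : ‖cc N n‖ ≤ (n.divisors.card : ℝ) := by
  rw [cc_apply]
  calc _ ≤ ∑ d ∈ n.divisors, (1 : ℝ) := by
        apply norm_sum_le_of_le
        intro d _
        rw [tmu_apply]
        split_ifs
        · rw [Complex.norm_intCast]
          exact_mod_cast ArithmeticFunction.abs_moebius_le_one
        · simp
    _ = (n.divisors.card : ℝ) := by simp

theorem co_bound (δ : ℝ) (N n : ℕ) : ‖co δ N n‖ ≤ (n.divisors.card : ℝ) ^ 2 := by
  rw [co_eq]
  rcases eq_or_ne n 0 with rfl | hn0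
  · simp
  calc _ ≤ ∑ p ∈ n.divisorsAntidiagonal, (n.divisors.card : ℝ) := by
        apply norm_sum_le_of_le
        intro p hp
        have ⟨hp1, hp2⟩ := Nat.ne_zero_of_mem_divisorsAntidiagonal hp
        have hdiv : p.1 ∣ n := ⟨p.2, (Nat.mem_divisorsAntidiagonal.mp hp).1.symm⟩
        rw [norm_mul, ff, gg, norm_mul, norm_mul, norm_pow_hh _ _ hp1, norm_pow_hh' _ _ hp2]
        have hμ : ‖((ArithmeticFunction.moebius p.2 : ℤ) : ℂ)‖ ≤ 1 := by
          rw [Complex.norm_intCast]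
          exact_mod_cast ArithmeticFunction.abs_moebius_le_one
        have h1 := cc_le N p.1
        have h2 : (p.1.divisors.card : ℝ) ≤ n.divisors.card := by
          exact_mod_cast Finset.card_le_card (Nat.divisors_subset_of_dvd hn0 hdiv)
        calc ‖cc N p.1‖ * 1 * (‖((ArithmeticFunction.moebius p.2 : ℤ) : ℂ)‖ * 1)
            ≤ (n.divisors.card : ℝ) * 1 * (1 * 1) := by
              apply mul_le_mul _ _ (by positivity) (by positivity)
              · linarith
              · linarith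
          _ = _ := by ring
    _ = _ := by
        rw [Finset.sum_const, nsmul_eq_mul, sq]
        congr 2
        rw [← Nat.map_div_right_divisors, Finset.card_map]

theorem co_small (δ : ℝ) (N n : ℕ) (hN : 1 ≤ N) (h1 : 1 ≤ n) (h2 : n ≤ N) :
    co δ N n = ((ArithmeticFunction.moebius n : ℤ) : ℂ) * (n : ℂ) ^ (-(hh δ)) := by
  rw [co_eq, Finset.sum_eq_single (1, n)]
  · simp [ff, gg, cc_one N hN]
  · intro p hp hne
    have ⟨hp1, hp2⟩ := Nat.ne_zero_of_mem_divisorsAntidiagonal hp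
    have hmul : p.1 * p.2 = n := (Nat.mem_divisorsAntidiagonal.mp hp).1
    have hp1' : p.1 ≠ 1 := by
      intro h
      apply hne
      rw [h, one_mul] at hmul
      exact Prod.ext h hmul
    have hle : p.1 ≤ n := Nat.le_of_dvd (by omega) ⟨p.2, hmul.symm⟩
    rw [ff, cc_zero' N p.1 (by omega) (by omega)]
    simp
  · intro h
    exact absurd (Nat.mem_divisorsAntidiagonal.mpr ⟨by simp, by omega⟩) h

theorem card_div_le (n : ℕ) : (n.divisors.card : ℝ) ≤ 2 * Real.sqrt n := by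
  have h1 : n.divisors ⊆ (Finset.Icc 1 (Nat.sqrt n)) ∪ (Finset.Icc 1 (Nat.sqrt n)).image (fun d => n / d) := by
    intro d hd
    rw [Nat.mem_divisors] at hd
    obtain ⟨⟨e, he⟩, hn⟩ := hd
    have hd0 : 0 < d := Nat.pos_of_ne_zero (by rintro rfl; simp at he; exact hn he)
    have he0 : 0 < e := Nat.pos_of_ne_zero (by rintro rfl; simp at he; exact hn he)
    rw [Finset.mem_union]
    by_cases h : d ≤ Nat.sqrt n
    · left; rw [Finset.mem_Icc]; exact ⟨hd0, h⟩
    · right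
      rw [Finset.mem_image]
      refine ⟨e, ?_, ?_⟩
      · rw [Finset.mem_Icc]
        refine ⟨he0, ?_⟩
        by_contra h2
        have h3 : Nat.sqrt n + 1 ≤ d := by omega
        have h4 : Nat.sqrt n + 1 ≤ e := by omega
        have h5 : (Nat.sqrt n + 1) * (Nat.sqrt n + 1) ≤ d * e := Nat.mul_le_mul h3 h4
        have h6 := Nat.lt_succ_sqrt n
        rw [← he] at h5
        simp only [Nat.succ_eq_add_one] at h6
        omega
      · rw [he]; exact Nat.mul_div_cancel d he0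
  have h2 : n.divisors.card ≤ Nat.sqrt n + Nat.sqrt n := by
    calc n.divisors.card ≤ _ := Finset.card_le_card h1
      _ ≤ _ := Finset.card_union_le _ _
      _ ≤ Nat.sqrt n + Nat.sqrt n := by
          apply Nat.add_le_add
          · simp
          · exact Finset.card_image_le.trans (by simp)
  have h3 : ((Nat.sqrt n : ℕ) : ℝ) ≤ Real.sqrt n := Real.nat_sqrt_le_real_sqrt
  have h4 : (n.divisors.card : ℝ) ≤ (Nat.sqrt n : ℝ) + (Nat.sqrt n : ℝ) := by exact_mod_cast h2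
  linarith

theorem card_div_sq (n : ℕ) : (n.divisors.card : ℝ) ^ 2 ≤ 4 * n := by
  have h := card_div_le n
  have h0 : (0 : ℝ) ≤ n.divisors.card := by positivity
  have h1 : (n.divisors.card : ℝ) ^ 2 ≤ (2 * Real.sqrt n) ^ 2 := by gcongr
  rw [mul_pow, Real.sq_sqrt (by positivity)] at h1
  linarith

theorem tail (δ : ℝ) (N : ℕ) (hN : 1 ≤ N) (M : ℕ) (hM : N ≤ M) (s : ℂ) (hs : 5 / 2 ≤ s.re) :
    ‖riemannZeta (s - hh δ) * AA N (s - hh δ) / riemannZeta (s + hh δ) - AA N (s + hh δ) -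
      ∑ n ∈ Finset.Ioc N M, co δ N n * (n : ℂ) ^ (-s)‖ ≤ 8 * ((M : ℝ) + 1) ^ (5 / 2 - s.re) := by
  have h1 := co_has δ N s (by linarith)
  rw [LSeriesHasSum] at h1
  have h2 := (hasSum_nat_add_iff' (M + 1)).mpr h1
  have h3 : ∑ i ∈ Finset.range (M + 1), LSeries.term (co δ N) s i =
      AA N (s + hh δ) + ∑ n ∈ Finset.Ioc N M, co δ N n * (n : ℂ) ^ (-s) := by
    have e0 : Finset.range (M + 1) = insert 0 (Finset.Icc 1 N ∪ Finset.Ioc N M) := by
      ext x; simp only [Finset.mem_range, Finset.mem_insert, Finset.mem_union, Finset.mem_Icc,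
        Finset.mem_Ioc]; omega
    have hd : Disjoint (Finset.Icc 1 N) (Finset.Ioc N M) := by
      rw [Finset.disjoint_left]; intro x hx hx2
      simp only [Finset.mem_Icc, Finset.mem_Ioc] at hx hx2; omega
    rw [e0, Finset.sum_insert (by simp), Finset.sum_union hd]
    rw [LSeries.term_zero, zero_add]
    congr 1
    · unfold AA
      apply Finset.sum_congr rfl
      intro n hn
      obtain ⟨h1, h2⟩ := Finset.mem_Icc.mp hn
      have hn' : (n : ℂ) ≠ 0 := by exact_mod_cast (by omega : n ≠ 0)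
      rw [LSeries.term_of_ne_zero (by omega), co_small δ N n hN h1 h2, neg_add,
        Complex.cpow_add _ _ hn', Complex.cpow_neg _ s, div_eq_mul_inv]
      ring
    · apply Finset.sum_congr rfl
      intro n hn
      obtain ⟨h1, h2⟩ := Finset.mem_Ioc.mp hn
      rw [LSeries.term_of_ne_zero (by omega), Complex.cpow_neg, div_eq_mul_inv]
  rw [h3] at h2
  have h4 : AA N (s - hh δ) * riemannZeta (s - hh δ) * (1 / riemannZeta (s + hh δ)) -
      (AA N (s + hh δ) + ∑ n ∈ Finset.Ioc N M, co δ N n * (n : ℂ) ^ (-s)) =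
      riemannZeta (s - hh δ) * AA N (s - hh δ) / riemannZeta (s + hh δ) - AA N (s + hh δ) -
      ∑ n ∈ Finset.Ioc N M, co δ N n * (n : ℂ) ^ (-s) := by ring
  rw [h4] at h2
  have hb : ∀ k : ℕ, ‖LSeries.term (co δ N) s (k + (M + 1))‖ ≤
      4 * (((k + M : ℕ) + 1 : ℝ) ^ (-(3 / 2) : ℝ) * ((M : ℝ) + 1) ^ (5 / 2 - s.re)) := by
    intro k
    rw [LSeries.norm_term_eq, if_neg (by omega)]
    have hpos : (0 : ℝ) < ((k + (M + 1) : ℕ) : ℝ) := by positivity
    have e : ((k + (M + 1) : ℕ) : ℝ) = ((k + M : ℕ) : ℝ) + 1 := by push_cast; ring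
    have hc : ‖co δ N (k + (M + 1))‖ ≤ 4 * ((k + (M + 1) : ℕ) : ℝ) :=
      (co_bound δ N (k + (M + 1))).trans (card_div_sq _)
    rw [div_le_iff₀ (Real.rpow_pos_of_pos hpos _)]
    refine hc.trans ?_
    rw [e]
    rw [e] at hpos
    set x : ℝ := ((k + M : ℕ) : ℝ) + 1 with hx
    have hx1 : (M : ℝ) + 1 ≤ x := by rw [hx]; push_cast; linarith [(Nat.cast_nonneg k : (0:ℝ) ≤ k)]
    have h5 : x ^ (5 / 2 - s.re) ≤ ((M : ℝ) + 1) ^ (5 / 2 - s.re) :=
      Real.rpow_le_rpow_of_nonpos (by positivity) hx1 (by linarith)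
    calc 4 * x = 4 * (x ^ (-(3 / 2) : ℝ) * x ^ (5 / 2 - s.re)) * x ^ s.re := by
          rw [mul_assoc, mul_assoc, ← Real.rpow_add hpos, ← Real.rpow_add hpos]
          ring_nf; rw [Real.rpow_one]
      _ ≤ 4 * (x ^ (-(3 / 2) : ℝ) * ((M : ℝ) + 1) ^ (5 / 2 - s.re)) * x ^ s.re := by gcongr
  have hpp : (0 : ℝ) ≤ ((M : ℝ) + 1) ^ (5 / 2 - s.re) := by positivity
  have hfin : ∀ K : ℕ, ‖∑ k ∈ Finset.range K, LSeries.term (co δ N) s (k + (M + 1))‖ ≤
      8 * ((M : ℝ) + 1) ^ (5 / 2 - s.re) := by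
    intro K
    calc _ ≤ ∑ k ∈ Finset.range K, 4 * (((k + M : ℕ) + 1 : ℝ) ^ (-(3 / 2) : ℝ) *
          ((M : ℝ) + 1) ^ (5 / 2 - s.re)) := norm_sum_le_of_le _ (fun k _ => hb k)
      _ = 4 * ((∑ k ∈ Finset.range K, ((k + M : ℕ) + 1 : ℝ) ^ (-(3 / 2) : ℝ)) *
          ((M : ℝ) + 1) ^ (5 / 2 - s.re)) := by rw [Finset.sum_mul, Finset.mul_sum]
      _ ≤ 4 * (2 * ((M : ℝ) + 1) ^ (5 / 2 - s.re)) := by
          have := mul_le_mul_of_nonneg_right (tel_sum M (hN.trans hM) K) hpp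
          linarith
      _ = _ := by ring
  have hlim := h2.tendsto_sum_nat.norm
  exact le_of_tendsto hlim (Eventually.of_forall hfin)

end TAIL

theorem p_TAIL : S_TAIL := by
  intro δ N hN
  refine ⟨TAIL.co δ N, TAIL.co_bound δ N, fun M hM s hs => ?_⟩
  have h := TAIL.tail δ N hN M hM s hs
  have hpp : (0 : ℝ) ≤ ((M : ℝ) + 1) ^ (5 / 2 - s.re) := by positivity
  linarith

end Pool.Agent.N806.HG
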