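import Mathlib
import Pool.Agent.N806.HG.Stm

/-!
Project HG: elementary bounds for `WW` (helper99, subtask HG/WWB).
-/

set_option autoImplicit false

open MeasureTheory Set intervalIntegral

namespace Pool.Agent.N806.HG

namespace WWBx

/-- the double integral -/
noncomputable def gg (T ξ : ℝ) : ℝ :=
  ∫ x in (0 : ℝ)..T / 4, ∫ y in (0 : ℝ)..T / 4, Real.cos (ξ * (5 / 4 * T + x + y))

theorem WW_eq (T D ξ : ℝ) : WW T D ξ = Real.exp (-(D ^ 2 * ξ ^ 2 / 2)) * gg T ξ := rfl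

theorem cont_inner (T ξ x : ℝ) : Continuous fun y : ℝ => Real.cos (ξ * (5 / 4 * T + x + y)) := by
  fun_prop

theorem cont_outer (T ξ : ℝ) :
    Continuous fun x : ℝ => ∫ y in (0 : ℝ)..T / 4, Real.cos (ξ * (5 / 4 * T + x + y)) := by
  apply intervalIntegral.continuous_parametric_intervalIntegral_of_continuous'
  fun_prop

theorem dbl_bound {T C : ℝ} (hT : 0 ≤ T) (f : ℝ → ℝ → ℝ)
    (h : ∀ x ∈ Set.Ioc 0 (T / 4), ∀ y ∈ Set.Ioc 0 (T / 4), |f x y| ≤ C) :
    |∫ x in (0 : ℝ)..T / 4, ∫ y in (0 : ℝ)..T / 4, f x y| ≤ C * (T ^ 2 / 16) := by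
  have h4 : 0 ≤ T / 4 := by linarith
  have h1 : ∀ x ∈ Set.uIoc 0 (T / 4), ‖∫ y in (0 : ℝ)..T / 4, f x y‖ ≤ C * (T / 4) := by
    intro x hx
    rw [Set.uIoc_of_le h4] at hx
    have h2 := norm_integral_le_of_norm_le_const (a := (0 : ℝ)) (b := T / 4) (C := C)
      (f := fun y => f x y) (fun y hy => by
        rw [Set.uIoc_of_le h4] at hy
        exact h x hx y hy)
    rw [sub_zero, abs_of_nonneg h4] at h2
    exact h2
  have h3 := norm_integral_le_of_norm_le_const h1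
  rw [sub_zero, abs_of_nonneg h4, Real.norm_eq_abs] at h3
  calc _ ≤ C * (T / 4) * (T / 4) := h3
    _ = C * (T ^ 2 / 16) := by ring

theorem gg_bound {T : ℝ} (hT : 0 ≤ T) (ξ : ℝ) : |gg T ξ| ≤ T ^ 2 / 16 := by
  have := dbl_bound (C := 1) hT (fun x y => Real.cos (ξ * (5 / 4 * T + x + y)))
    (fun x _ y _ => Real.abs_cos_le_one _)
  rw [one_mul] at this
  exact this

theorem gg_zero (T : ℝ) : gg T 0 = T ^ 2 / 16 := by
  unfold gg
  simp
  ring

theorem gg_decay (T : ℝ) {ξ : ℝ} (hξ : ξ ≠ 0) : |gg T ξ| ≤ 4 / ξ ^ 2 := by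
  have h1 : ∀ x : ℝ, ∫ y in (0 : ℝ)..T / 4, Real.cos (ξ * (5 / 4 * T + x + y)) =
      (Real.sin (ξ * (5 / 4 * T + x + T / 4)) - Real.sin (ξ * (5 / 4 * T + x))) / ξ := by
    intro x
    have h := integral_eq_sub_of_hasDerivAt (a := (0 : ℝ)) (b := T / 4)
      (f := fun y => Real.sin (ξ * (5 / 4 * T + x + y)) / ξ)
      (f' := fun y => Real.cos (ξ * (5 / 4 * T + x + y))) (fun y _ => by
        have h2 : HasDerivAt (fun y : ℝ => ξ * (5 / 4 * T + x + y)) ξ y := by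
          simpa using ((hasDerivAt_id y).const_add (5 / 4 * T + x)).const_mul ξ
        have h3 := (h2.sin).div_const ξ
        have e : Real.cos (ξ * (5 / 4 * T + x + y)) * ξ / ξ = Real.cos (ξ * (5 / 4 * T + x + y)) := by
          rw [mul_div_assoc, div_self hξ, mul_one]
        rw [e] at h3
        exact h3) ((cont_inner T ξ x).intervalIntegrable _ _)
    rw [h, add_zero]
    ring
  have h2 : gg T ξ = (-Real.cos (ξ * (5 / 4 * T + T / 4 + T / 4)) + Real.cos (ξ * (5 / 4 * T + T / 4)) +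
      Real.cos (ξ * (5 / 4 * T + T / 4)) - Real.cos (ξ * (5 / 4 * T))) / ξ ^ 2 := by
    unfold gg
    rw [integral_congr (g := fun x => (Real.sin (ξ * (5 / 4 * T + x + T / 4)) -
      Real.sin (ξ * (5 / 4 * T + x))) / ξ) (fun x _ => h1 x)]
    have h := integral_eq_sub_of_hasDerivAt (a := (0 : ℝ)) (b := T / 4)
      (f := fun x => (-Real.cos (ξ * (5 / 4 * T + x + T / 4)) + Real.cos (ξ * (5 / 4 * T + x))) / ξ ^ 2)
      (f' := fun x => (Real.sin (ξ * (5 / 4 * T + x + T / 4)) -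
      Real.sin (ξ * (5 / 4 * T + x))) / ξ) (fun x _ => by
        have h2 : HasDerivAt (fun x : ℝ => ξ * (5 / 4 * T + x + T / 4)) ξ x := by
          simpa using (((hasDerivAt_id x).const_add (5 / 4 * T)).add_const (T / 4)).const_mul ξ
        have h3 : HasDerivAt (fun x : ℝ => ξ * (5 / 4 * T + x)) ξ x := by
          simpa using ((hasDerivAt_id x).const_add (5 / 4 * T)).const_mul ξ
        have h4 := ((h2.cos.neg).add h3.cos).div_const (ξ ^ 2)
        have e : (-(-Real.sin (ξ * (5 / 4 * T + x + T / 4)) * ξ) +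
            -Real.sin (ξ * (5 / 4 * T + x)) * ξ) / ξ ^ 2 =
            (Real.sin (ξ * (5 / 4 * T + x + T / 4)) - Real.sin (ξ * (5 / 4 * T + x))) / ξ := by
          rw [sq, div_eq_div_iff (mul_ne_zero hξ hξ) hξ]
          ring
        rw [e] at h4
        exact h4) (by
        apply Continuous.intervalIntegrable
        fun_prop)
    rw [h]
    simp only [add_zero]
    ring
  rw [h2, abs_div, abs_of_nonneg (sq_nonneg ξ)]
  apply div_le_div_of_nonneg_right _ (sq_nonneg ξ)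
  have c1 := Real.abs_cos_le_one (ξ * (5 / 4 * T + T / 4 + T / 4))
  have c2 := Real.abs_cos_le_one (ξ * (5 / 4 * T + T / 4))
  have c3 := Real.abs_cos_le_one (ξ * (5 / 4 * T))
  rw [abs_le] at c1 c2 c3 ⊢
  constructor <;> linarith [c1.1, c1.2, c2.1, c2.2, c3.1, c3.2]

theorem gg_lip {T : ℝ} (hT : 0 ≤ T) (ξ ξ' : ℝ) :
    |gg T ξ - gg T ξ'| ≤ 7 / 64 * T ^ 3 * |ξ - ξ'| := by
  have h1 : gg T ξ - gg T ξ' = ∫ x in (0 : ℝ)..T / 4, ∫ y in (0 : ℝ)..T / 4,
      (Real.cos (ξ * (5 / 4 * T + x + y)) - Real.cos (ξ' * (5 / 4 * T + x + y))) := by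
    unfold gg
    rw [← integral_sub ((cont_outer T ξ).intervalIntegrable _ _)
      ((cont_outer T ξ').intervalIntegrable _ _)]
    refine integral_congr fun x _ => ?_
    rw [← integral_sub ((cont_inner T ξ x).intervalIntegrable _ _)
      ((cont_inner T ξ' x).intervalIntegrable _ _)]
  rw [h1]
  have h2 := dbl_bound (C := |ξ - ξ'| * (7 / 4 * T)) hT (fun x y =>
    (Real.cos (ξ * (5 / 4 * T + x + y)) - Real.cos (ξ' * (5 / 4 * T + x + y)))) (fun x hx y hy => by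
      refine (Real.abs_cos_sub_cos_le _ _).trans ?_
      rw [← sub_mul, abs_mul]
      refine mul_le_mul_of_nonneg_left ?_ (abs_nonneg _)
      rw [abs_of_nonneg (by linarith [hx.1, hy.1])]
      linarith [hx.2, hy.2])
  calc _ ≤ |ξ - ξ'| * (7 / 4 * T) * (T ^ 2 / 16) := h2
    _ = 7 / 64 * T ^ 3 * |ξ - ξ'| := by ring

theorem exp_lip {a b : ℝ} (ha : 0 ≤ a) (hb : 0 ≤ b) :
    |Real.exp (-a) - Real.exp (-b)| ≤ |a - b| := by
  have key : ∀ a b : ℝ, 0 ≤ a → a ≤ b → |Real.exp (-a) - Real.exp (-b)| ≤ |a - b| := by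
    intro a b ha hab
    have h1 : Real.exp (-b) ≤ Real.exp (-a) := Real.exp_le_exp.2 (by linarith)
    rw [abs_of_nonneg (by linarith), abs_of_nonpos (by linarith)]
    have h2 : Real.exp (-b) = Real.exp (-a) * Real.exp (-(b - a)) := by
      rw [← Real.exp_add]; congr 1; ring
    have h3 := Real.add_one_le_exp (-(b - a))
    have h4 : Real.exp (-a) ≤ 1 := Real.exp_le_one_iff.2 (by linarith)
    have h5 := Real.exp_pos (-a)
    rw [h2]
    nlinarith [mul_nonneg (sub_nonneg.2 h4) (sub_nonneg.2 hab), mul_le_mul_of_nonneg_left h3 h5.le]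
  rcases le_total a b with h | h
  · exact key a b ha h
  · rw [abs_sub_comm, abs_sub_comm a b]
    exact key b a hb h

end WWBx

open WWBx in
/-- bounds for `WW` -/
theorem p_WWB : S_WWB := by
  intro T D hT hD hDT
  have hT0 : 0 ≤ T := by linarith
  have hexp : ∀ ξ : ℝ, 0 ≤ Real.exp (-(D ^ 2 * ξ ^ 2 / 2)) ∧ Real.exp (-(D ^ 2 * ξ ^ 2 / 2)) ≤ 1 := by
    intro ξ
    refine ⟨(Real.exp_pos _).le, Real.exp_le_one_iff.2 ?_⟩
    have : 0 ≤ D ^ 2 * ξ ^ 2 / 2 := by positivity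
    linarith
  have hmul : ∀ ξ : ℝ, |WW T D ξ| ≤ |gg T ξ| := by
    intro ξ
    rw [WW_eq, abs_mul, abs_of_nonneg (hexp ξ).1]
    exact mul_le_of_le_one_left (abs_nonneg _) (hexp ξ).2
  refine ⟨fun ξ => (hmul ξ).trans (gg_bound hT0 ξ), fun ξ hξ => (hmul ξ).trans (gg_decay T hξ), ?_, ?_⟩
  · rw [WW_eq, gg_zero]; simp
  · intro H ξ ξ' hH h1 h2
    have e : WW T D ξ - WW T D ξ' = Real.exp (-(D ^ 2 * ξ ^ 2 / 2)) * (gg T ξ - gg T ξ') +
        (Real.exp (-(D ^ 2 * ξ ^ 2 / 2)) - Real.exp (-(D ^ 2 * ξ' ^ 2 / 2))) * gg T ξ' := by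
      rw [WW_eq, WW_eq]; ring
    have a1 : |Real.exp (-(D ^ 2 * ξ ^ 2 / 2)) * (gg T ξ - gg T ξ')| ≤
        7 / 64 * T ^ 3 * |ξ - ξ'| := by
      rw [abs_mul, abs_of_nonneg (hexp ξ).1]
      exact (mul_le_of_le_one_left (abs_nonneg _) (hexp ξ).2).trans (gg_lip hT0 ξ ξ')
    have a2 : |Real.exp (-(D ^ 2 * ξ ^ 2 / 2)) - Real.exp (-(D ^ 2 * ξ' ^ 2 / 2))| ≤
        T * H * |ξ - ξ'| := by
      refine (exp_lip (by positivity) (by positivity)).trans ?_
      have e2 : D ^ 2 * ξ ^ 2 / 2 - D ^ 2 * ξ' ^ 2 / 2 = D ^ 2 / 2 * (ξ + ξ') * (ξ - ξ') := by ring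
      rw [e2, abs_mul]
      refine mul_le_mul_of_nonneg_right ?_ (abs_nonneg _)
      rw [abs_mul, abs_of_nonneg (by positivity : 0 ≤ D ^ 2 / 2)]
      have h3 : |ξ + ξ'| ≤ 2 * (H / T) := (abs_add_le _ _).trans (by linarith)
      have h4 : D ^ 2 ≤ T ^ 2 := pow_le_pow_left₀ hD hDT 2
      calc D ^ 2 / 2 * |ξ + ξ'| ≤ T ^ 2 / 2 * (2 * (H / T)) := by
            refine mul_le_mul (by linarith) h3 (abs_nonneg _) (by positivity)
        _ = T * H := by field_simp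
    have a3 : |(Real.exp (-(D ^ 2 * ξ ^ 2 / 2)) - Real.exp (-(D ^ 2 * ξ' ^ 2 / 2))) * gg T ξ'| ≤
        T * H * |ξ - ξ'| * (T ^ 2 / 16) := by
      rw [abs_mul]
      exact mul_le_mul a2 (gg_bound hT0 ξ') (abs_nonneg _) (by positivity)
    rw [e]
    refine (abs_add_le _ _).trans ((add_le_add a1 a3).trans ?_)
    have h5 : 0 ≤ T ^ 3 * |ξ - ξ'| := by positivity
    have h6 : 0 ≤ H * (T ^ 3 * |ξ - ξ'|) := mul_nonneg hH h5
    nlinarith

end Pool.Agent.N806.HG
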