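import Pool.Agent.N806.HG.Stm
import Pool.Agent.Y958.U.Lam

/-!
Project HG (helper806), subtask CHOW (helper756): two point correlations of the Möbius function
vanish at all scales outside a set of logarithmic density zero, uniformly on `[T, e ^ K T]`.
-/

set_option autoImplicit false

namespace Pool.Agent.N806.HG.CH

open Finset Filter Topology
open Pool.Agent.Y958.U
open Pool.Agent.Y958.TC (Av)

lemma dil_lt (a b : ℕ) (hb : 1 ≤ b) (hab : b ≤ a) {S T : ℕ} (h : S < T) : a * S / b < a * T / b := by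
  have h1 : a * S + b ≤ a * T := by
    have : a * (S + 1) ≤ a * T := Nat.mul_le_mul_left _ h
    rw [mul_add, mul_one] at this
    omega
  have h2 : (a * S + b) / b ≤ a * T / b := Nat.div_le_div_right h1
  rw [Nat.add_div_right _ hb] at h2
  omega

lemma dil_inj (a b : ℕ) (hb : 1 ≤ b) (hab : b ≤ a) {S T : ℕ} (h : a * S / b = a * T / b) : S = T := by
  rcases lt_trichotomy S T with h1 | h1 | h1
  · exact absurd h (dil_lt a b hb hab h1).ne
  · exact h1
  · exact absurd h.symm (dil_lt a b hb hab h1).ne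

lemma dil_ge (a b : ℕ) (hb : 1 ≤ b) (hab : b ≤ a) (T : ℕ) : T ≤ a * T / b := by
  rw [Nat.le_div_iff_mul_le hb, mul_comm]
  exact Nat.mul_le_mul_right _ hab

lemma LZ_dil (E : Set ℕ) (a b : ℕ) (hb : 1 ≤ b) (hab : b ≤ a) (h : LZ E) : LZ {T | a * T / b ∈ E} := by
  classical
  rw [LZ_iff] at *
  intro ε hε
  have hA : 1 ≤ a := hb.trans hab
  have hA0 : (0 : ℝ) < a := by exact_mod_cast hA
  obtain ⟨X₀, hX₀⟩ := h (ε / (2 * a)) (by positivity)
  refine ⟨X₀ + a + 2, fun X hX => ?_⟩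
  have h1 : ls {T | a * T / b ∈ E} X ≤ a * ls E (a * X) := by
    unfold ls
    rw [mul_sum, ← sum_filter]
    have h2 : ∑ N ∈ (Icc 1 X).filter (fun N => N ∈ {T | a * T / b ∈ E}), (1 : ℝ) / N ≤
        ∑ N ∈ (Icc 1 X).filter (fun N => N ∈ {T | a * T / b ∈ E}),
          a * (if a * N / b ∈ E then (1 : ℝ) / ((a * N / b : ℕ) : ℝ) else 0) := by
      apply sum_le_sum
      intro N hN
      rw [mem_filter, mem_Icc] at hN
      have hN0 : (1 : ℝ) ≤ N := by exact_mod_cast hN.1.1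
      have h3 : a * N / b ∈ E := hN.2
      have h4 : 1 ≤ a * N / b := hN.1.1.trans (dil_ge a b hb hab N)
      have h4' : (0 : ℝ) < ((a * N / b : ℕ) : ℝ) := by exact_mod_cast h4
      have h5 : ((a * N / b : ℕ) : ℝ) ≤ a * N := by
        have : a * N / b ≤ a * N := Nat.div_le_self _ _
        exact_mod_cast this
      rw [if_pos h3, mul_one_div, div_le_div_iff₀ (by linarith) h4', one_mul]
      exact h5
    refine h2.trans ?_
    have h4 : ∑ N ∈ (Icc 1 X).filter (fun N => N ∈ {T | a * T / b ∈ E}),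
          a * (if a * N / b ∈ E then (1 : ℝ) / ((a * N / b : ℕ) : ℝ) else 0) =
        ∑ M ∈ ((Icc 1 X).filter (fun N => N ∈ {T | a * T / b ∈ E})).image (fun N => a * N / b),
          a * (if M ∈ E then (1 : ℝ) / (M : ℝ) else 0) := by
      rw [sum_image]
      intro S _ T _ hST
      exact dil_inj a b hb hab hST
    rw [h4]
    apply sum_le_sum_of_subset_of_nonneg
    · intro M hM
      rw [mem_image] at hM
      obtain ⟨N, hN, rfl⟩ := hM
      rw [mem_filter, mem_Icc] at hN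
      rw [mem_Icc]
      constructor
      · exact hN.1.1.trans (dil_ge a b hb hab N)
      · exact (Nat.div_le_self _ _).trans (Nat.mul_le_mul_left _ hN.1.2)
    · intro M _ _
      split_ifs <;> positivity
  have hle : X ≤ a * X := Nat.le_mul_of_pos_left _ hA
  have h5 := hX₀ (a * X) (by omega)
  have h6 : Real.log ((a * X : ℕ) : ℝ) ≤ 2 * Real.log X := by
    have h7 : ((a * X : ℕ) : ℝ) ≤ (X : ℝ) ^ 2 := by
      have : a * X ≤ X ^ 2 := by
        rw [pow_two]
        exact Nat.mul_le_mul_right _ (by omega)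
      exact_mod_cast this
    have h7' : 0 < a * X := Nat.mul_pos hA (by omega)
    have h8 := Real.log_le_log (by exact_mod_cast h7') h7
    rw [Real.log_pow] at h8
    push_cast at h8 ⊢
    exact h8
  calc ls {T | a * T / b ∈ E} X ≤ a * ls E (a * X) := h1
    _ ≤ a * (ε / (2 * a) * Real.log ((a * X : ℕ) : ℝ)) :=
        mul_le_mul_of_nonneg_left h5 (by positivity)
    _ ≤ a * (ε / (2 * a) * (2 * Real.log X)) := by gcongr
    _ = ε * Real.log X := by field_simp

/-- the exceptional scales -/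
def G (h j : ℕ) : Set ℕ := {N | 1 / ((j : ℝ) + 1) < |Av N (fun n => 1 * mu n * mu (n + (h + 1)))|}

/-- the union of finitely many dilates -/
def U (h j k : ℕ) : Set ℕ := {T | ∃ i ∈ range (k * (j + 1) + 1), T ∈ {T | (j + 1 + i) * T / (j + 1) ∈ G h j}}

lemma LZ_U (hG : ∀ h j, LZ (G h j)) (h j k : ℕ) : LZ (U h j k) :=
  LZ_fin _ (fun i => {T | (j + 1 + i) * T / (j + 1) ∈ G h j}) fun i _ =>
    LZ_dil _ _ _ (by omega) (by omega) (hG h j)

lemma mu_bd (n : ℕ) : |mu n| ≤ 1 := by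
  unfold mu
  exact_mod_cast ArithmeticFunction.abs_moebius_le_one

lemma mm_bd (m n : ℕ) : |mu m * mu n| ≤ 1 := by
  rw [abs_mul]
  exact mul_le_one₀ (mu_bd m) (abs_nonneg _) (mu_bd n)

theorem chow_of (hG : ∀ h j, LZ (G h j)) : ∃ E : Set ℕ, LZ E ∧ Chow E := by
  obtain ⟨E, hE, hE1⟩ := diag' (fun p : ℕ × ℕ × ℕ => U p.1 p.2.1 p.2.2) fun p => LZ_U hG _ _ _
  refine ⟨E, hE, ?_⟩
  intro h hh K ε hK hε
  obtain ⟨j, hj⟩ := exists_nat_one_div_lt (show (0 : ℝ) < ε / 3 by positivity)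
  set k : ℕ := ⌈Real.exp K⌉₊ with hk
  have hkK : Real.exp K ≤ k := Nat.le_ceil _
  obtain ⟨N₀, hN₀⟩ := hE1 (h - 1, j, k)
  refine ⟨N₀ + (j + 1), fun T hT hTE x hTx hx => ?_⟩
  have hT1 : 1 ≤ T := by omega
  have hT0 : (0 : ℝ) < T := by exact_mod_cast hT1
  have hxk : x ≤ k * T := by
    have : (x : ℝ) ≤ k * T := hx.trans (mul_le_mul_of_nonneg_right hkK hT0.le)
    exact_mod_cast this
  have hTU : T ∉ U (h - 1) j k := fun hc => hTE (hN₀ T hc (by omega))
  set i : ℕ := (x - T) * (j + 1) / T with hi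
  have hi1 : i * T ≤ (x - T) * (j + 1) := Nat.div_mul_le_self _ _
  have hi2 : (x - T) * (j + 1) < (i + 1) * T := by
    have := Nat.lt_div_mul_add hT1 (a := (x - T) * (j + 1))
    rw [← hi] at this
    linarith
  have hik : i < k * (j + 1) + 1 := by
    have h1 : i * T ≤ (k * T) * (j + 1) := hi1.trans (Nat.mul_le_mul_right _ (by omega))
    have h2 : i * T ≤ (k * (j + 1)) * T := by linarith
    have := Nat.le_of_mul_le_mul_right h2 hT1
    omega
  set x0 : ℕ := (j + 1 + i) * T / (j + 1) with hx0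
  have hx0G : x0 ∉ G (h - 1) j := fun hc => hTU ⟨i, mem_range.2 hik, hc⟩
  have hxT : (x - T) * (j + 1) + T * (j + 1) = x * (j + 1) := by
    rw [← add_mul]
    congr 1
    omega
  have hx0x : x0 ≤ x := by
    rw [hx0]
    apply Nat.div_le_of_le_mul
    nlinarith
  have hTx0 : T ≤ x0 := dil_ge (j + 1 + i) (j + 1) (Nat.le_add_left _ _) (Nat.le_add_right _ _) T
  have hd : x * (j + 1) < (x0 + 1) * (j + 1) + T := by
    have h1 : (j + 1 + i) * T < (x0 + 1) * (j + 1) := by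
      have := Nat.lt_div_mul_add (a := (j + 1 + i) * T) (b := j + 1) (by omega)
      rw [← hx0] at this
      linarith
    nlinarith
  have hj0 : (0 : ℝ) < (j : ℝ) + 1 := by positivity
  have hdr : (x : ℝ) - x0 ≤ T / ((j : ℝ) + 1) + 1 := by
    have h1 : (x : ℝ) * (j + 1) ≤ (x0 + 1) * (j + 1) + T := by exact_mod_cast hd.le
    have h2 : (x : ℝ) - x0 - 1 ≤ T / ((j : ℝ) + 1) := by
      rw [le_div_iff₀ hj0]
      nlinarith
    linarith
  -- the first part of the sum
  have hS0 : |∑ n ∈ Finset.range x0, mu n * mu (n + h)| ≤ x0 / ((j : ℝ) + 1) := by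
    have hx00 : (0 : ℝ) < x0 := by exact_mod_cast hT1.trans hTx0
    have h1 : |Av x0 (fun n => 1 * mu n * mu (n + (h - 1 + 1)))| ≤ 1 / ((j : ℝ) + 1) := by
      by_contra hc
      exact hx0G (not_le.1 hc)
    unfold Pool.Agent.Y958.TC.Av at h1
    rw [abs_div, abs_of_pos hx00, div_le_iff₀ hx00] at h1
    have e1 : h - 1 + 1 = h := by omega
    rw [e1] at h1
    simp only [one_mul] at h1
    calc |∑ n ∈ Finset.range x0, mu n * mu (n + h)| ≤ 1 / ((j : ℝ) + 1) * x0 := h1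
      _ = x0 / ((j : ℝ) + 1) := by ring
  have hS1 : |∑ n ∈ Finset.Ico x0 x, mu n * mu (n + h)| ≤ (x : ℝ) - x0 := by
    refine (abs_sum_le_sum_abs _ _).trans ((sum_le_sum fun n _ => mm_bd _ _).trans (le_of_eq ?_))
    rw [sum_const, Nat.card_Ico, nsmul_eq_mul, mul_one, Nat.cast_sub hx0x]
  have hsp : ∑ n ∈ Finset.range x, mu n * mu (n + h) =
      ∑ n ∈ Finset.range x0, mu n * mu (n + h) + ∑ n ∈ Finset.Ico x0 x, mu n * mu (n + h) :=
    (sum_range_add_sum_Ico _ hx0x).symm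
  rw [hsp]
  have hxr : (T : ℝ) ≤ x := by exact_mod_cast hTx
  have hx0r : (x0 : ℝ) ≤ x := by exact_mod_cast hx0x
  have h1T : (1 : ℝ) ≤ x / ((j : ℝ) + 1) := by
    rw [le_div_iff₀ hj0, one_mul]
    have : (j : ℝ) + 1 ≤ T := by exact_mod_cast (by omega : j + 1 ≤ T)
    linarith
  have h2T : T / ((j : ℝ) + 1) ≤ x / ((j : ℝ) + 1) := div_le_div_of_nonneg_right hxr hj0.le
  have h3T : x0 / ((j : ℝ) + 1) ≤ x / ((j : ℝ) + 1) := div_le_div_of_nonneg_right hx0r hj0.le
  have hfin : 3 * (x / ((j : ℝ) + 1)) ≤ ε * x := by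
    have hx00 : (0 : ℝ) ≤ x := Nat.cast_nonneg _
    have : 3 * (x / ((j : ℝ) + 1)) = 3 * (1 / ((j : ℝ) + 1)) * x := by ring
    rw [this]
    apply mul_le_mul_of_nonneg_right _ hx00
    linarith
  calc |∑ n ∈ Finset.range x0, mu n * mu (n + h) + ∑ n ∈ Finset.Ico x0 x, mu n * mu (n + h)| ≤
      |∑ n ∈ Finset.range x0, mu n * mu (n + h)| + |∑ n ∈ Finset.Ico x0 x, mu n * mu (n + h)| :=
        abs_add_le _ _
    _ ≤ ε * x := by linarith

lemma LZ_G (h j : ℕ) : LZ (G h j) :=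
  Pool.Agent.Y958.TC.two Pool.Agent.Y958.U.s_avc Pool.Agent.TH823.MRS.mob Pool.Agent.TH823.MRS.mob_bdd
    Pool.Agent.TH823.MRS.mob_flip (fun ε hε A hA => Pool.Agent.TH823.MRS.expo_mob ε hε A hA)
    (h + 1) (by omega) 1 le_rfl (fun _ => 1) (fun _ => by simp) (fun _ => rfl) (1 / ((j : ℝ) + 1))
    (by positivity)

end Pool.Agent.N806.HG.CH

namespace Pool.Agent.N806.HG

/-- (CHOW) the exceptional scales for the Möbius function -/
theorem p_CHOW : ∃ E : Set ℕ, Pool.Agent.Y958.U.LZ E ∧ Chow E := CH.chow_of CH.LZ_G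

end Pool.Agent.N806.HG
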