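import Pool.Agent.N806.HG.Ban2
import Pool.Agent.N806.HG.CHOW

/-!
Project HG (helper806): in every long window `[T, B T]` there are scales at which the two point
correlations of the Möbius function vanish.
-/

set_option autoImplicit false

namespace Pool.Agent.N806.HG.Ban

open Finset Filter Topology
open Pool.Agent.Y958.TC (Av)
open Pool.Agent.N806.HG.CH (dil_inj dil_ge dil_lt G U mm_bd)

open Classical in
/-- the indicator -/
noncomputable def id0 (E : Set ℕ) (n : ℕ) : ℝ := if n ∈ E then 1 else 0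

lemma lw_eq (E : Set ℕ) (T X : ℕ) : lw E T X = ∑ n ∈ Ioc T X, id0 E n / n := rfl

lemma id0_nonneg (E : Set ℕ) (n : ℕ) : 0 ≤ id0 E n := by
  unfold id0; split_ifs <;> norm_num

lemma id0_le (E : Set ℕ) (n : ℕ) : id0 E n ≤ 1 := by
  unfold id0; split_ifs <;> norm_num

lemma id0_mem {E : Set ℕ} {n : ℕ} (h : n ∈ E) : id0 E n = 1 := by
  unfold id0; exact if_pos h

lemma BLZ_dil (E : Set ℕ) (a b : ℕ) (hb : 1 ≤ b) (hab : b ≤ a) (h : BLZ E) :
    BLZ {T | a * T / b ∈ E} := by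
  classical
  intro ε hε
  have hA : 1 ≤ a := hb.trans hab
  have hA0 : (0 : ℝ) < a := by exact_mod_cast hA
  obtain ⟨B₀, hB₀⟩ := h (ε / (2 * a)) (by positivity)
  refine ⟨B₀ + a + 2, fun B hB => ?_⟩
  obtain ⟨T0, hT0⟩ := hB₀ (a * B) ((by omega : B₀ ≤ B).trans (Nat.le_mul_of_pos_left _ hA))
  refine ⟨T0 + 1, fun T hT => ?_⟩
  have h1 : lw {T | a * T / b ∈ E} T (B * T) ≤ a * lw E T (a * B * T) := by
    rw [lw_eq, lw_eq, mul_sum]
    have h3 : ∀ N ∈ Ioc T (B * T), id0 {T | a * T / b ∈ E} N / (N : ℝ) ≤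
        a * (id0 E (a * N / b) / ((a * N / b : ℕ) : ℝ)) := by
      intro N hN
      rw [mem_Ioc] at hN
      have hN0 : (0 : ℝ) < N := by exact_mod_cast (by omega : 0 < N)
      have h4 : 1 ≤ a * N / b := (by omega : 1 ≤ N).trans (dil_ge a b hb hab N)
      have h4' : (0 : ℝ) < ((a * N / b : ℕ) : ℝ) := by exact_mod_cast h4
      have h5 : ((a * N / b : ℕ) : ℝ) ≤ a * N := by
        have : a * N / b ≤ a * N := Nat.div_le_self _ _
        exact_mod_cast this
      have e1 : id0 {T | a * T / b ∈ E} N = id0 E (a * N / b) := rfl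
      rw [e1, ← mul_div_assoc, div_le_div_iff₀ hN0 h4']
      have := id0_nonneg E (a * N / b)
      nlinarith
    refine (sum_le_sum h3).trans ?_
    have h4 : ∑ N ∈ Ioc T (B * T), a * (id0 E (a * N / b) / ((a * N / b : ℕ) : ℝ)) =
        ∑ M ∈ (Ioc T (B * T)).image (fun N => a * N / b), a * (id0 E M / (M : ℝ)) := by
      rw [sum_image]
      intro S _ T _ hST
      exact dil_inj a b hb hab hST
    rw [h4]
    apply sum_le_sum_of_subset_of_nonneg
    · intro M hM
      rw [mem_image] at hM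
      obtain ⟨N, hN, rfl⟩ := hM
      rw [mem_Ioc] at hN
      rw [mem_Ioc]
      constructor
      · exact hN.1.trans_le (dil_ge a b hb hab N)
      · refine (Nat.div_le_self _ _).trans ?_
        rw [mul_assoc]
        exact Nat.mul_le_mul_left _ hN.2
    · intro M _ _
      exact mul_nonneg hA0.le (div_nonneg (id0_nonneg _ _) (Nat.cast_nonneg _))
  have h5 := hT0 T (by omega)
  have hB0 : (0 : ℝ) < B := by exact_mod_cast (by omega : 0 < B)
  have h6 : Real.log ((a * B : ℕ) : ℝ) ≤ 2 * Real.log B := by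
    have h7 : ((a * B : ℕ) : ℝ) ≤ (B : ℝ) ^ 2 := by
      have : a * B ≤ B ^ 2 := by
        rw [pow_two]
        exact Nat.mul_le_mul_right _ (by omega)
      exact_mod_cast this
    have h7' : 0 < a * B := Nat.mul_pos hA (by omega)
    have h8 := Real.log_le_log (by exact_mod_cast h7') h7
    rw [Real.log_pow] at h8
    push_cast at h8 ⊢
    exact h8
  calc lw {T | a * T / b ∈ E} T (B * T) ≤ a * lw E T (a * B * T) := h1
    _ ≤ a * (ε / (2 * a) * Real.log ((a * B : ℕ) : ℝ)) :=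
        mul_le_mul_of_nonneg_left h5 (by positivity)
    _ ≤ a * (ε / (2 * a) * (2 * Real.log B)) := by gcongr
    _ = ε * Real.log B := by field_simp

lemma lw_mono {E F : Set ℕ} (h : E ⊆ F) (T X : ℕ) : lw E T X ≤ lw F T X := by
  rw [lw_eq, lw_eq]
  refine sum_le_sum fun n _ => div_le_div_of_nonneg_right ?_ (Nat.cast_nonneg n)
  by_cases hn : n ∈ E
  · rw [id0_mem hn, id0_mem (h hn)]
  · have : id0 E n = 0 := by unfold id0; exact if_neg hn
    rw [this]
    exact id0_nonneg _ _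

lemma lw_union (E F : Set ℕ) (T X : ℕ) : lw (E ∪ F) T X ≤ lw E T X + lw F T X := by
  rw [lw_eq, lw_eq, lw_eq, ← sum_add_distrib]
  refine sum_le_sum fun n _ => ?_
  rw [← add_div]
  refine div_le_div_of_nonneg_right ?_ (Nat.cast_nonneg n)
  have h1 := id0_nonneg E n
  have h2 := id0_nonneg F n
  by_cases hE : n ∈ E
  · rw [id0_mem hE, id0_mem (Set.mem_union_left F hE)]
    linarith
  · by_cases hF : n ∈ F
    · rw [id0_mem hF, id0_mem (Set.mem_union_right E hF)]
      linarith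
    · have : id0 (E ∪ F) n = 0 := by
        unfold id0
        exact if_neg (by rintro (h | h) <;> contradiction)
      rw [this]
      linarith

lemma BLZ_union {E F : Set ℕ} (hE : BLZ E) (hF : BLZ F) : BLZ (E ∪ F) := by
  intro ε hε
  obtain ⟨B1, h1⟩ := hE (ε / 2) (by positivity)
  obtain ⟨B2, h2⟩ := hF (ε / 2) (by positivity)
  refine ⟨B1 + B2, fun B hB => ?_⟩
  obtain ⟨T1, h1⟩ := h1 B (by omega)
  obtain ⟨T2, h2⟩ := h2 B (by omega)
  refine ⟨T1 + T2, fun T hT => ?_⟩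
  have := h1 T (by omega)
  have := h2 T (by omega)
  have := lw_union E F T (B * T)
  linarith

lemma BLZ_empty : BLZ ∅ := by
  intro ε hε
  refine ⟨1, fun B hB => ⟨0, fun T _ => ?_⟩⟩
  have h1 : lw ∅ T (B * T) = 0 := by
    rw [lw_eq]
    refine sum_eq_zero fun n _ => ?_
    have : id0 ∅ n = 0 := by unfold id0; exact if_neg (by simp)
    rw [this, zero_div]
  rw [h1]
  have := Real.log_natCast_nonneg B
  positivity

lemma BLZ_fin {ι : Type*} (s : Finset ι) (F : ι → Set ℕ) (h : ∀ i ∈ s, BLZ (F i)) :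
    BLZ {T | ∃ i ∈ s, T ∈ F i} := by
  classical
  induction s using Finset.induction_on with
  | empty => simpa using BLZ_empty
  | insert a s ha ih =>
    have h1 : {T | ∃ i ∈ insert a s, T ∈ F i} = F a ∪ {T | ∃ i ∈ s, T ∈ F i} := by
      ext T
      simp [Finset.mem_insert]
    rw [h1]
    exact BLZ_union (h a (mem_insert_self _ _)) (ih fun i hi => h i (mem_insert_of_mem hi))

lemma BLZ_G (h j : ℕ) : BLZ (G h j) :=
  two Pool.Agent.TH823.MRS.mob Pool.Agent.TH823.MRS.mob_bdd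
    Pool.Agent.TH823.MRS.mob_flip (fun ε hε A hA => Pool.Agent.TH823.MRS.expo_mob ε hε A hA)
    (h + 1) (by omega) 1 le_rfl (fun _ => 1) (fun _ => by simp) (fun _ => rfl) (1 / ((j : ℝ) + 1))
    (by positivity)

lemma BLZ_U (h j k : ℕ) : BLZ (U h j k) :=
  BLZ_fin _ (fun i => {T | (j + 1 + i) * T / (j + 1) ∈ G h j}) fun i _ =>
    BLZ_dil _ _ _ (by omega) (by omega) (BLZ_G h j)

/-- the complement of a set of Banach density zero meets all long windows -/
lemma BLZ_exists {E : Set ℕ} (hE : BLZ E) : ∃ B T0 : ℕ, 1 ≤ B ∧ ∀ T : ℕ, T0 ≤ T →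
    ∃ T' : ℕ, T < T' ∧ T' ≤ B * T ∧ T' ∉ E := by
  obtain ⟨B0, hB0⟩ := hE (1 / 4) (by norm_num)
  obtain ⟨T0, hT0⟩ := hB0 (B0 + 3) (by omega)
  refine ⟨B0 + 3, T0 + 2, by omega, fun T hT => ?_⟩
  by_contra hcon
  push Not at hcon
  have h1 := hT0 T (by omega)
  set B := B0 + 3 with hB
  have hT1 : 1 ≤ T := by omega
  have hT2 : 2 ≤ T := by omega
  have hT0' : (0 : ℝ) < T := by exact_mod_cast hT1
  have hBr : (3 : ℝ) ≤ B := by exact_mod_cast (by omega : 3 ≤ B)
  have hlog : 1 < Real.log B := by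
    rw [Real.lt_log_iff_exp_lt (by linarith)]
    exact lt_of_lt_of_le (Real.exp_one_lt_d9.trans (by norm_num)) hBr
  have h2 : lw E T (B * T) = ∑ n ∈ Ioc T (B * T), (1 : ℝ) / n := by
    rw [lw_eq]
    refine sum_congr rfl fun n hn => ?_
    rw [mem_Ioc] at hn
    rw [id0_mem (hcon n hn.1 hn.2)]
  -- lower bound by the last terms
  have h3 : Real.log B ≤ (∑ n ∈ Ioc T (B * T), (1 : ℝ) / n) + 1 / 2 := by
    have h0 : ∀ Z : ℕ, Real.log (((T + Z : ℕ) : ℝ)) - Real.log T ≤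
        ∑ M ∈ Ico T (T + Z), (1 : ℝ) / M := by
      intro Z
      induction Z with
      | zero => simp
      | succ Z ih =>
        have e1 : Ico T (T + (Z + 1)) = insert (T + Z) (Ico T (T + Z)) := by
          ext n; simp only [mem_insert, mem_Ico]; omega
        rw [e1, sum_insert (by simp)]
        have hTZ : (0 : ℝ) < ((T + Z : ℕ) : ℝ) := by exact_mod_cast (by omega : 0 < T + Z)
        have h2 := Real.log_le_sub_one_of_pos
          (show 0 < ((T + Z + 1 : ℕ) : ℝ) / ((T + Z : ℕ) : ℝ) by positivity)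
        have hne : ((T + Z + 1 : ℕ) : ℝ) ≠ 0 := by positivity
        rw [Real.log_div hne hTZ.ne'] at h2
        have e3 : ((T + Z + 1 : ℕ) : ℝ) / ((T + Z : ℕ) : ℝ) - 1 = 1 / ((T + Z : ℕ) : ℝ) := by
          field_simp
          push_cast
          ring
        rw [e3] at h2
        rw [← add_assoc]
        linarith
    obtain ⟨Z, hZ⟩ := Nat.exists_eq_add_of_le (show T ≤ B * T from Nat.le_mul_of_pos_left _ (by omega))
    have h5 := h0 Z
    rw [← hZ] at h5
    have h6 : Real.log ((B * T : ℕ) : ℝ) = Real.log B + Real.log T := by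
      push_cast
      rw [Real.log_mul (by linarith) hT0'.ne']
    have h7 : ∑ M ∈ Ico T (B * T), (1 : ℝ) / M ≤ 1 / T + ∑ n ∈ Ioc T (B * T), (1 : ℝ) / n := by
      have h8 : Ico T (B * T) ⊆ insert T (Ioc T (B * T)) := by
        intro n hn
        rw [mem_Ico] at hn
        rw [mem_insert, mem_Ioc]
        omega
      refine (sum_le_sum_of_subset_of_nonneg h8 fun n _ _ => by positivity).trans ?_
      rw [sum_insert (by simp)]
    have h9 : (1 : ℝ) / T ≤ 1 / 2 := by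
      apply one_div_le_one_div_of_le (by norm_num)
      exact_mod_cast hT2
    linarith
  rw [h2] at h1
  linarith

/-- from the exceptional sets to the correlations -/
lemma det (h : ℕ) (hh : 1 ≤ h) (K ε : ℝ) (j : ℕ) (hj : 1 / ((j : ℝ) + 1) < ε / 3) (T : ℕ)
    (hT : j + 1 ≤ T) (hTU : T ∉ U (h - 1) j ⌈Real.exp K⌉₊) (x : ℕ) (hTx : T ≤ x)
    (hx : (x : ℝ) ≤ Real.exp K * T) :
    |∑ n ∈ Finset.range x, mu n * mu (n + h)| ≤ ε * x := by
  set k : ℕ := ⌈Real.exp K⌉₊ with hk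
  have hkK : Real.exp K ≤ k := Nat.le_ceil _
  have hT1 : 1 ≤ T := by omega
  have hT0 : (0 : ℝ) < T := by exact_mod_cast hT1
  have hxk : x ≤ k * T := by
    have : (x : ℝ) ≤ k * T := hx.trans (mul_le_mul_of_nonneg_right hkK hT0.le)
    exact_mod_cast this
  set i : ℕ := (x - T) * (j + 1) / T with hi
  have hi1 : i * T ≤ (x - T) * (j + 1) := Nat.div_mul_le_self _ _
  have hi2 : (x - T) * (j + 1) < (i + 1) * T := by
    have := Nat.lt_div_mul_add hT1 (a := (x - T) * (j + 1))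
    rw [← hi] at this
    linarith
  have hik : i < k * (j + 1) + 1 := by
    have h1 : i * T ≤ (k * T) * (j + 1) := hi1.trans (Nat.mul_le_mul_right _ (by omega))
    have h2 : i * T ≤ (k * (j + 1)) * T := by linarith
    have := Nat.le_of_mul_le_mul_right h2 hT1
    omega
  set x0 : ℕ := (j + 1 + i) * T / (j + 1) with hx0
  have hx0G : x0 ∉ G (h - 1) j := fun hc => hTU ⟨i, mem_range.2 hik, hc⟩
  have hxT : (x - T) * (j + 1) + T * (j + 1) = x * (j + 1) := by
    rw [← add_mul]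
    congr 1
    omega
  have hx0x : x0 ≤ x := by
    rw [hx0]
    apply Nat.div_le_of_le_mul
    nlinarith
  have hTx0 : T ≤ x0 := dil_ge (j + 1 + i) (j + 1) (Nat.le_add_left _ _) (Nat.le_add_right _ _) T
  have hd : x * (j + 1) < (x0 + 1) * (j + 1) + T := by
    have h1 : (j + 1 + i) * T < (x0 + 1) * (j + 1) := by
      have := Nat.lt_div_mul_add (a := (j + 1 + i) * T) (b := j + 1) (by omega)
      rw [← hx0] at this
      linarith
    nlinarith
  have hj0 : (0 : ℝ) < (j : ℝ) + 1 := by positivity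
  have hdr : (x : ℝ) - x0 ≤ T / ((j : ℝ) + 1) + 1 := by
    have h1 : (x : ℝ) * (j + 1) ≤ (x0 + 1) * (j + 1) + T := by exact_mod_cast hd.le
    have h2 : (x : ℝ) - x0 - 1 ≤ T / ((j : ℝ) + 1) := by
      rw [le_div_iff₀ hj0]
      nlinarith
    linarith
  -- the first part of the sum
  have hS0 : |∑ n ∈ Finset.range x0, mu n * mu (n + h)| ≤ x0 / ((j : ℝ) + 1) := by
    have hx00 : (0 : ℝ) < x0 := by exact_mod_cast hT1.trans hTx0
    have h1 : |Av x0 (fun n => 1 * mu n * mu (n + (h - 1 + 1)))| ≤ 1 / ((j : ℝ) + 1) := by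
      by_contra hc
      exact hx0G (not_le.1 hc)
    unfold Pool.Agent.Y958.TC.Av at h1
    rw [abs_div, abs_of_pos hx00, div_le_iff₀ hx00] at h1
    have e1 : h - 1 + 1 = h := by omega
    rw [e1] at h1
    simp only [one_mul] at h1
    calc |∑ n ∈ Finset.range x0, mu n * mu (n + h)| ≤ 1 / ((j : ℝ) + 1) * x0 := h1
      _ = x0 / ((j : ℝ) + 1) := by ring
  have hS1 : |∑ n ∈ Finset.Ico x0 x, mu n * mu (n + h)| ≤ (x : ℝ) - x0 := by
    refine (abs_sum_le_sum_abs _ _).trans ((sum_le_sum fun n _ => mm_bd _ _).trans (le_of_eq ?_))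
    rw [sum_const, Nat.card_Ico, nsmul_eq_mul, mul_one, Nat.cast_sub hx0x]
  have hsp : ∑ n ∈ Finset.range x, mu n * mu (n + h) =
      ∑ n ∈ Finset.range x0, mu n * mu (n + h) + ∑ n ∈ Finset.Ico x0 x, mu n * mu (n + h) :=
    (sum_range_add_sum_Ico _ hx0x).symm
  rw [hsp]
  have hxr : (T : ℝ) ≤ x := by exact_mod_cast hTx
  have hx0r : (x0 : ℝ) ≤ x := by exact_mod_cast hx0x
  have h1T : (1 : ℝ) ≤ x / ((j : ℝ) + 1) := by
    rw [le_div_iff₀ hj0, one_mul]
    have : (j : ℝ) + 1 ≤ T := by exact_mod_cast (by omega : j + 1 ≤ T)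
    linarith
  have h2T : T / ((j : ℝ) + 1) ≤ x / ((j : ℝ) + 1) := div_le_div_of_nonneg_right hxr hj0.le
  have h3T : x0 / ((j : ℝ) + 1) ≤ x / ((j : ℝ) + 1) := div_le_div_of_nonneg_right hx0r hj0.le
  have hfin : 3 * (x / ((j : ℝ) + 1)) ≤ ε * x := by
    have hx00 : (0 : ℝ) ≤ x := Nat.cast_nonneg _
    have : 3 * (x / ((j : ℝ) + 1)) = 3 * (1 / ((j : ℝ) + 1)) * x := by ring
    rw [this]
    apply mul_le_mul_of_nonneg_right _ hx00
    linarith
  calc |∑ n ∈ Finset.range x0, mu n * mu (n + h) + ∑ n ∈ Finset.Ico x0 x, mu n * mu (n + h)| ≤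
      |∑ n ∈ Finset.range x0, mu n * mu (n + h)| + |∑ n ∈ Finset.Ico x0 x, mu n * mu (n + h)| :=
        abs_add_le _ _
    _ ≤ ε * x := by linarith

/-- every long window contains a scale at which the correlations with small shifts vanish -/
theorem chow_ban (H : ℕ) (K ε : ℝ) (hε : 0 < ε) : ∃ B T0 : ℕ, 1 ≤ B ∧ ∀ T : ℕ, T0 ≤ T →
    ∃ T' : ℕ, T < T' ∧ T' ≤ B * T ∧ ∀ h : ℕ, 1 ≤ h → h ≤ H → ∀ x : ℕ, T' ≤ x →
      (x : ℝ) ≤ Real.exp K * T' → |∑ n ∈ Finset.range x, mu n * mu (n + h)| ≤ ε * x := by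
  obtain ⟨j, hj⟩ := exists_nat_one_div_lt (show (0 : ℝ) < ε / 3 by positivity)
  have h1 := BLZ_fin (Finset.Icc 1 H) (fun h => U (h - 1) j ⌈Real.exp K⌉₊) fun h _ => BLZ_U _ _ _
  obtain ⟨B, T0, hB, hT0⟩ := BLZ_exists h1
  refine ⟨B, T0 + j + 1, hB, fun T hT => ?_⟩
  obtain ⟨T', h2, h3, h4⟩ := hT0 T (by omega)
  refine ⟨T', h2, h3, fun h hh hhH x hx hx2 => ?_⟩
  refine det h hh K ε j hj T' (by omega) (fun hc => h4 ⟨h, Finset.mem_Icc.2 ⟨hh, hhH⟩, hc⟩) x hx hx2

end Pool.Agent.N806.HG.Ban
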