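import Pool.Agent.N806.HG.Main
import Pool.Agent.N806.HG.Ban3
import Pool.Agent.H382R2.Final0

/-!
Project HG (helper806): small gaps in every long window `[T, B T]`.
-/

set_option autoImplicit false

open Complex Filter Topology Set MeasureTheory

namespace Pool.Agent.N806.HG

open SG

/-- no separation at a scale at which the correlations of the Möbius function are small -/
theorem no_sep_core (hID : S_ID) (hNEAR : S_NEAR) (hLINE : S_LINE) (hAVJ : S_AVJ) (hCONT : S_CONT)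
    (hAVMS : S_AVMS) (hWWB : S_WWB) (hPAIR : S_PAIR) (hDIAG : S_DIAG) (hNEARD : S_NEARD)
    (C : ℝ) (hC : 0 ≤ C) :
    ∃ (K ε : ℝ) (H T0 : ℕ), 0 < ε ∧ ∀ T : ℕ, T0 ≤ T →
      (∀ h : ℕ, 1 ≤ h → h ≤ H → ∀ x : ℕ, T ≤ x → (x : ℝ) ≤ Real.exp K * T →
        |∑ n ∈ Finset.range x, mu n * mu (n + h)| ≤ ε * x) → ¬ Sep (dc C T) T := by
  obtain ⟨B, hB, hA⟩ := averaged hID hNEAR hLINE hAVJ hCONT hAVMS
  obtain ⟨B3, hB3, -, hP⟩ := hPAIR
  obtain ⟨c, B4, hc, hB4, hDi⟩ := hDIAG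
  set K : ℝ := (16 * (B + 8 * B3 + 2) + B4 * (1 + C)) / c with hK
  have hK0 : 0 ≤ K := by positivity
  have hcK : c * K = 16 * (B + 8 * B3 + 2) + B4 * (1 + C) := by
    rw [hK]; field_simp
  obtain ⟨H, hH⟩ := exists_nat_ge (Real.exp (2 * K))
  have hH1 : 1 ≤ H := by
    have : (1 : ℝ) ≤ H := (Real.one_le_exp (by positivity)).trans hH
    exact_mod_cast this
  have hHpos : (0 : ℝ) < H := by exact_mod_cast hH1
  obtain ⟨T1, hT1, h1⟩ := hA K hK0
  obtain ⟨T2, hT2, h2⟩ := hP K hK0 H hH1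
  obtain ⟨T3, hT3, h3⟩ := hDi C K hC hK0
  obtain ⟨ε, hε, T4, h4⟩ := hNEARD K hK0 H hH1 1 one_pos
  have ev : ∀ᶠ T : ℝ in atTop, 4 * C + 4 ≤ Real.log T :=
    Real.tendsto_log_atTop.eventually_ge_atTop _
  obtain ⟨T6, hT6⟩ := eventually_atTop.mp ev
  obtain ⟨T8, hT8⟩ := exists_nat_ge (max (max T1 T2) (max T3 T6))
  refine ⟨K, ε, H, T4 + T8, hε, ?_⟩
  intro T hT hcor hS
  have hT8r : (T8 : ℝ) ≤ T := by exact_mod_cast (by omega : T8 ≤ T)
  have g1 : T1 ≤ T := ((le_max_left _ _).trans (le_max_left _ _)).trans (hT8.trans hT8r)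
  have g2 : T2 ≤ T := ((le_max_right _ _).trans (le_max_left _ _)).trans (hT8.trans hT8r)
  have g3 : T3 ≤ T := ((le_max_left _ _).trans (le_max_right _ _)).trans (hT8.trans hT8r)
  have g6 : T6 ≤ T := ((le_max_right _ _).trans (le_max_right _ _)).trans (hT8.trans hT8r)
  have hT100 : (100 : ℝ) ≤ T := hT1.trans g1
  have hlogC := hT6 T g6
  have hlog : 0 < Real.log T := by linarith
  have hpi := Real.pi_gt_three
  have hpi4 := Real.pi_lt_four
  -- the size of the distance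
  have hδL : dc C T * Real.log T = Real.pi * (1 - C / Real.log T) := by
    unfold dc
    field_simp
  have hCL : C / Real.log T ≤ 1 / 4 := by
    rw [div_le_iff₀ hlog]
    linarith
  have hCL0 : 0 ≤ C / Real.log T := by positivity
  have hδ2 : 2 ≤ dc C T * Real.log T := by
    rw [hδL]; nlinarith
  have hδ4 : dc C T * Real.log T ≤ 4 := by
    rw [hδL]; nlinarith
  have hδ0 : 0 < dc C T := by
    by_contra h
    push Not at h
    nlinarith
  -- the length
  set N := NK K T with hN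
  have hNle : (N : ℝ) ≤ Real.exp K * T := Nat.floor_le (by positivity)
  have hN1 : 1 ≤ N := by
    apply Nat.le_floor
    rw [Nat.cast_one]
    have := Real.one_le_exp hK0
    nlinarith
  have k1 := h1 T g1 (dc C T) hδ2 hδ4 hS N hN1 hNle
  have k2 := h2 T g2 N hNle
  have k3 := h3 T g3
  rw [← hN] at k3
  have k4 := h4 T (by omega) hcor (dc C T) N hδ0 hδ4 hNle
  have hD0 := DD_pos (T := (T : ℝ)) (by linarith)
  have k5 := decomp hWWB T (DD T) (dc C T) (by linarith) hD0.le (DD_le (by linarith)) N H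
  set S := ∑ m ∈ Finset.Icc 1 N, ∑ n ∈ Finset.Icc 1 N, TT T (DD T) (dc C T) m n
  set S1 := ∑ n ∈ Finset.Icc 1 N, mu n ^ 2 / n *
        Real.sin (dc C T * Real.log T / 2 + dc C T * Real.log n)
  set S2 := ∑ m ∈ Finset.Icc 1 N, ∑ n ∈ Finset.Icc 1 N,
        (if m ≠ n ∧ (T : ℝ) < m ∧ (T : ℝ) < n ∧ m ≤ n + H ∧ n ≤ m + H then
          TT T (DD T) (dc C T) m n else 0)
  set S3 := ∑ m ∈ Finset.Icc 1 N, ∑ n ∈ Finset.Icc 1 N,
        (if m = n ∨ ((T : ℝ) < m ∧ (T : ℝ) < n ∧ m ≤ n + H ∧ n ≤ m + H) then 0 else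
        1 / (Real.sqrt (m * n) * (Real.log n - Real.log m) ^ 2))
  have hT2 : (0 : ℝ) < (T : ℝ) ^ 2 := by positivity
  have hS3 : S3 ≤ 2 * B3 * (T : ℝ) ^ 2 := by
    refine k2.trans ?_
    have : Real.exp (2 * K) / H ≤ 1 := by
      rw [div_le_one hHpos]
      exact hH
    have h6 : B3 * (1 + Real.exp (2 * K) / H) ≤ 2 * B3 := by nlinarith
    exact mul_le_mul_of_nonneg_right h6 hT2.le
  have hS2 := (abs_le.mp k4).2
  have hS1 : (T : ℝ) ^ 2 / 16 * S1 ≤ (T : ℝ) ^ 2 / 16 * (-(c * K) + B4 * (1 + C)) :=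
    mul_le_mul_of_nonneg_left k3 (by positivity)
  have hS1' : (T : ℝ) ^ 2 / 16 * (-(c * K) + B4 * (1 + C)) = -(B + 8 * B3 + 2) * (T : ℝ) ^ 2 := by
    rw [hcK]; ring
  nlinarith

/-- every long window contains a scale without separation -/
theorem no_sep_win (hID : S_ID) (hNEAR : S_NEAR) (hLINE : S_LINE) (hAVJ : S_AVJ) (hCONT : S_CONT)
    (hAVMS : S_AVMS) (hWWB : S_WWB) (hPAIR : S_PAIR) (hDIAG : S_DIAG) (hNEARD : S_NEARD)
    (C : ℝ) (hC : 0 ≤ C) :
    ∃ B T0 : ℕ, 1 ≤ B ∧ ∀ T : ℕ, T0 ≤ T → ∃ T' : ℕ, T < T' ∧ T' ≤ B * T ∧ ¬ Sep (dc C T') T' := by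
  obtain ⟨K, ε, H, T1, hε, h1⟩ := no_sep_core hID hNEAR hLINE hAVJ hCONT hAVMS hWWB hPAIR hDIAG
    hNEARD C hC
  obtain ⟨B, T2, hB, h2⟩ := Ban.chow_ban H K ε hε
  refine ⟨B, T1 + T2, hB, fun T hT => ?_⟩
  obtain ⟨T', h3, h4, h5⟩ := h2 T (by omega)
  exact ⟨T', h3, h4, h1 T' (by omega) h5⟩

/-- from the gap at the scale `T` to the normalised gap -/
lemma norm_gap (C β : ℝ) : ∃ C' T0 : ℝ, 0 < C' ∧ 100 ≤ T0 ∧ ∀ T : ℝ, T0 ≤ T → ∀ n : ℕ,
    T ≤ ord n → ord n ≤ ord (n + 1) → ord (n + 1) ≤ 2 * T → ord (n + 1) - ord n ≤ dc C' T →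
    (ord (n + 1) * Real.log (ord (n + 1)) - ord n * Real.log (ord n)) / (2 * Real.pi) +
      β * (ord (n + 1) - ord n) < 1 / 2 - C / Real.log (ord n) := by
  set C1 : ℝ := max C 0 with hC1
  have hC10 : 0 ≤ C1 := le_max_right _ _
  have hCC1 : C ≤ C1 := le_max_left _ _
  obtain ⟨b, hb0⟩ : ∃ b : ℝ, b = 2 + 7 * |β| := ⟨_, rfl⟩
  have hβ0 : 0 ≤ |β| := abs_nonneg β
  have hb1 : 0 ≤ b := by rw [hb0]; positivity
  set C2 : ℝ := 2 * C1 + b + 1 with hC2
  refine ⟨C2, max 100 (Real.exp (C2 + 1)), by positivity, le_max_left _ _, ?_⟩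
  intro T hT n h3 h4 h5 h6
  have h8 : Real.exp (C2 + 1) ≤ T := (le_max_right _ _).trans hT
  have hTpos : (0 : ℝ) < T := (Real.exp_pos _).trans_le h8
  have hlogT : C2 + 1 ≤ Real.log T := by rwa [Real.le_log_iff_exp_le hTpos]
  have hL : 0 < Real.log T := by linarith
  have hord : 0 < ord n := by linarith
  have hord1 : 0 < ord (n + 1) := by linarith
  have hpi := Real.pi_pos
  have hlog2 := Real.log_two_lt_d9
  have hgap : 0 ≤ ord (n + 1) - ord n := by linarith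
  have e1 : ord (n + 1) * Real.log (ord (n + 1)) - ord n * Real.log (ord n) ≤
      (ord (n + 1) - ord n) * (Real.log T + 2) := by
    have h7 : Real.log (ord (n + 1)) ≤ Real.log T + 1 := by
      have := Real.log_le_log hord1 h5
      rw [Real.log_mul (by norm_num) hTpos.ne'] at this
      linarith
    have h9 := Real.log_le_sub_one_of_pos (show 0 < ord (n + 1) / ord n by positivity)
    rw [Real.log_div hord1.ne' hord.ne'] at h9
    have h10 : ord n * (Real.log (ord (n + 1)) - Real.log (ord n)) ≤ ord (n + 1) - ord n := by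
      calc ord n * (Real.log (ord (n + 1)) - Real.log (ord n)) ≤
            ord n * (ord (n + 1) / ord n - 1) := mul_le_mul_of_nonneg_left h9 hord.le
        _ = ord (n + 1) - ord n := by field_simp
    have h11 : (ord (n + 1) - ord n) * Real.log (ord (n + 1)) ≤
        (ord (n + 1) - ord n) * (Real.log T + 1) :=
      mul_le_mul_of_nonneg_left h7 (by linarith)
    nlinarith
  have e2 : (ord (n + 1) * Real.log (ord (n + 1)) - ord n * Real.log (ord n)) / (2 * Real.pi) +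
      β * (ord (n + 1) - ord n) ≤ (ord (n + 1) - ord n) * (Real.log T + b) / (2 * Real.pi) := by
    have h12 : β * (ord (n + 1) - ord n) ≤ 7 * |β| * (ord (n + 1) - ord n) / (2 * Real.pi) := by
      rw [le_div_iff₀ (by positivity)]
      have h13 : β * (ord (n + 1) - ord n) ≤ |β| * (ord (n + 1) - ord n) :=
        mul_le_mul_of_nonneg_right (le_abs_self β) hgap
      have h14 : 2 * Real.pi ≤ 7 := by linarith [Real.pi_lt_d2]
      have h15 : 0 ≤ |β| * (ord (n + 1) - ord n) := by positivity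
      nlinarith
    have h16 := div_le_div_of_nonneg_right e1 (by positivity : 0 ≤ 2 * Real.pi)
    have h17 : (ord (n + 1) - ord n) * (Real.log T + b) / (2 * Real.pi) =
        (ord (n + 1) - ord n) * (Real.log T + 2) / (2 * Real.pi) +
          7 * |β| * (ord (n + 1) - ord n) / (2 * Real.pi) := by
      rw [hb0]; ring
    linarith
  refine lt_of_le_of_lt e2 ?_
  set L := Real.log T with hLdef
  have hb : L ≤ Real.log (ord n) := Real.log_le_log hTpos h3
  have hCL : 0 ≤ 1 - C2 / L := by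
    have : C2 / L ≤ 1 := by rw [div_le_one hL]; linarith
    linarith
  have k1 : (ord (n + 1) - ord n) * (L + b) / (2 * Real.pi) ≤
      1 / 2 * (1 - C2 / L) * ((L + b) / L) := by
    rw [div_le_iff₀ (by positivity)]
    calc (ord (n + 1) - ord n) * (L + b) ≤ Real.pi / L * (1 - C2 / L) * (L + b) :=
          mul_le_mul_of_nonneg_right h6 (by linarith)
      _ = 1 / 2 * (1 - C2 / L) * ((L + b) / L) * (2 * Real.pi) := by ring
  have k2 : 1 / 2 * (1 - C2 / L) * ((L + b) / L) < 1 / 2 - C1 / L := by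
    have e1 : (L + b) / L = 1 + b * (1 / L) := by field_simp
    rw [e1]
    have hL1 : 0 < 1 / L := by positivity
    have e2 : C2 / L = C2 * (1 / L) := by ring
    have e3 : C1 / L = C1 * (1 / L) := by ring
    rw [e2, e3, hC2]
    set u := 1 / L
    nlinarith [mul_nonneg (mul_nonneg hb1 (by positivity : (0:ℝ) ≤ 2 * C1 + b + 1)) (sq_nonneg u)]
  have k3 : C / Real.log (ord n) ≤ C1 / L := by
    calc C / Real.log (ord n) ≤ C1 / Real.log (ord n) :=
          div_le_div_of_nonneg_right hCC1 (by linarith)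
      _ ≤ C1 / L := div_le_div_of_nonneg_left hC10 hL hb
  linarith

/-- small gaps in every long window -/
theorem gaps_win_of (h : ∀ C : ℝ, 0 ≤ C → ∃ B T0 : ℕ, 1 ≤ B ∧ ∀ T : ℕ, T0 ≤ T →
    ∃ T' : ℕ, T < T' ∧ T' ≤ B * T ∧ ¬ Sep (dc C T') T') (C β : ℝ) :
    ∃ B T0 : ℝ, ∀ T : ℝ, T0 ≤ T →
      ∃ n : ℕ, 1 ≤ n ∧ T ≤ ord n ∧ ord n ≤ ord (n + 1) ∧ ord (n + 1) ≤ B * T ∧
        (ord (n + 1) * Real.log (ord (n + 1)) - ord n * Real.log (ord n)) / (2 * Real.pi) +
          β * (ord (n + 1) - ord n) < 1 / 2 - C / Real.log (ord n) := by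
  obtain ⟨C', T2, hC', hT2, h2⟩ := norm_gap C β
  obtain ⟨B, T1, hB, h1⟩ := h C' hC'.le
  have hBr : (1 : ℝ) ≤ B := by exact_mod_cast hB
  have ev : ∀ᶠ T : ℝ in atTop, C' + 1 ≤ Real.log T :=
    Real.tendsto_log_atTop.eventually_ge_atTop _
  obtain ⟨T3, hT3⟩ := eventually_atTop.mp ev
  refine ⟨4 * B, max (max T2 T3) (T1 + 3), fun T hT => ?_⟩
  have g1 : T2 ≤ T := ((le_max_left _ _).trans (le_max_left _ _)).trans hT
  have g2 : T3 ≤ T := ((le_max_right _ _).trans (le_max_left _ _)).trans hT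
  have g3 : (T1 : ℝ) + 3 ≤ T := (le_max_right _ _).trans hT
  have hT0 : 0 < T := by linarith
  obtain ⟨T', h3, h4, h5⟩ := h1 ⌈T⌉₊ (by
    have h6 : (T1 : ℝ) ≤ ⌈T⌉₊ := (by linarith : (T1 : ℝ) ≤ T).trans (Nat.le_ceil T)
    exact_mod_cast h6)
  have h3r : T ≤ T' := (Nat.le_ceil T).trans (by exact_mod_cast h3.le)
  have h4r : (T' : ℝ) ≤ 2 * B * T := by
    have h6 : (T' : ℝ) ≤ B * ⌈T⌉₊ := by exact_mod_cast h4
    have h7 := (Nat.ceil_lt_add_one hT0.le).le
    have h8 : (⌈T⌉₊ : ℝ) ≤ 2 * T := by linarith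
    calc (T' : ℝ) ≤ B * ⌈T⌉₊ := h6
      _ ≤ B * (2 * T) := mul_le_mul_of_nonneg_left h8 (by linarith)
      _ = 2 * B * T := by ring
  have hlog' := hT3 T' (g2.trans h3r)
  have hlogT' : 0 < Real.log T' := by linarith
  have hpi := Real.pi_pos
  have hδ : 0 ≤ dc C' T' := by
    unfold dc
    have : C' / Real.log T' ≤ 1 := by
      rw [div_le_one hlogT']; linarith
    have h9 : 0 ≤ 1 - C' / Real.log T' := by linarith
    positivity
  obtain ⟨n, hn, h6, h7, h8⟩ := gap_of_not_sep (by linarith) hδ h5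
  have hm := ord_mono hn (by omega : n ≤ n + 1)
  exact ⟨n, hn, h3r.trans h6, hm, h7.trans (by linarith), h2 T' (g1.trans h3r) n h6 hm h7 h8⟩

end Pool.Agent.N806.HG
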