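import Pool.Agent.N806.HG.NOD
import Pool.Agent.N806.HG.Main
import Pool.Agent.N806.HG.Fin
import Pool.Agent.N806.HG.RR
import Pool.Agent.N806.HG.DEEP
import Pool.Agent.N806.HG.TAIL
import Pool.Agent.N806.HG.NEAR
import Pool.Agent.N806.HG.HOR
import Pool.Agent.N806.HG.ID
import Pool.Agent.N806.HG.LINE
import Pool.Agent.N806.HG.AVJ
import Pool.Agent.N806.HG.AVMS
import Pool.Agent.N806.HG.WWB
import Pool.Agent.N806.HG.PAIR
import Pool.Agent.N806.HG.DIAG
import Pool.Agent.N806.HG.CHOW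
import Pool.Agent.N806.HG.NEARD
import Pool.Agent.N806.HG.All2
import Pool.Agent.N806.HG.Win

/-!
Project HG (helper806): all the parts put together. Proofs of the parts: helper489 (RR), helper322
(DEEP), helper196 (TAIL), helper138 (NEAR), helper817 (HOR), helper160 (ID), helper222 (LINE),
helper152 (AVJ), helper441 (AVMS), helper99 (WWB, PAIR), helper46 (DIAG), helper756 (CHOW),
helper690 (NEARD).
-/

set_option autoImplicit false

open Filter Topology Set

namespace Pool.Agent.N806.HG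

open SG (ord Sep)
open Pool.Agent.Y958.U (LZ)

/-- there is an exceptional set of logarithmic density zero such that at all other large scales the
zeros are not separated by `(π / log T) (1 - C / log T)` -/
theorem exists_exc : ∃ E : Set ℕ, LZ E ∧
    ∀ C : ℝ, 0 ≤ C → ∃ T0 : ℕ, ∀ T : ℕ, T0 ≤ T → T ∉ E → ¬ Sep (dc C T) T := by
  obtain ⟨E, hLZ, hE⟩ := p_CHOW
  have hRRB := p_RRB
  have hDEEP := p_DEEP hRRB
  have hNEAR := p_NEAR hRRB hDEEP p_TAIL
  have hID := p_ID p_GU p_NOD (p_HOR hRRB)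
  have hLINE := p_LINE p_RRP
  exact ⟨E, hLZ, fun C hC => no_sep_half hID hNEAR hLINE p_AVJ p_CONT (p_AVMS p_PAIR) p_WWB p_PAIR
    p_DIAG (p_NEARD p_WWB) E hE C hC⟩

/-- at all large scales the zeros are not separated by `(π / log T) (1 + C / log T)` -/
theorem exists_all : ∃ C T0 : ℝ, 0 < C ∧ ∀ T : ℝ, T0 ≤ T → ¬ Sep (dc (-C) T) T := by
  have hRRB := p_RRB
  have hDEEP := p_DEEP hRRB
  have hNEAR := p_NEAR hRRB hDEEP p_TAIL
  have hID := p_ID p_GU p_NOD (p_HOR hRRB)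
  have hLINE := p_LINE p_RRP
  exact no_sep_all hID hNEAR hLINE p_AVJ p_CONT (p_AVMS p_PAIR) p_WWB p_PAIR

/-- small gaps at all large scales -/
theorem gaps_all : ∃ C T0 : ℝ, ∀ T : ℝ, T0 ≤ T →
    ∃ n : ℕ, 1 ≤ n ∧ T ≤ ord n ∧ ord n ≤ ord (n + 1) ∧ ord (n + 1) ≤ 2 * T ∧
      ord (n + 1) - ord n ≤ Real.pi / Real.log T * (1 + C / Real.log T) := by
  obtain ⟨C, T0, hC, h⟩ := exists_all
  refine ⟨C, max T0 2, fun T hT => ?_⟩
  have h1 : T0 ≤ T := (le_max_left _ _).trans hT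
  have h2 : 2 ≤ T := (le_max_right _ _).trans hT
  have hlog : 0 < Real.log T := Real.log_pos (by linarith)
  have hδ : 0 ≤ dc (-C) T := by
    unfold dc
    have : (0 : ℝ) ≤ 1 - -C / Real.log T := by
      rw [neg_div, sub_neg_eq_add]
      positivity
    have hpi := Real.pi_pos
    positivity
  obtain ⟨n, hn, h4, h5, h6⟩ := SG.gap_of_not_sep (by linarith) hδ (h T h1)
  refine ⟨n, hn, h4, SG.ord_mono hn (by omega), h5, h6.trans (le_of_eq ?_)⟩
  unfold dc
  rw [neg_div, sub_neg_eq_add]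

/-- every long window contains a scale at which the zeros are not separated by
`(π / log T) (1 - C / log T)` -/
theorem exists_win (C : ℝ) (hC : 0 ≤ C) : ∃ B T0 : ℕ, 1 ≤ B ∧ ∀ T : ℕ, T0 ≤ T →
    ∃ T' : ℕ, T < T' ∧ T' ≤ B * T ∧ ¬ Sep (dc C T') T' := by
  have hRRB := p_RRB
  have hDEEP := p_DEEP hRRB
  have hNEAR := p_NEAR hRRB hDEEP p_TAIL
  have hID := p_ID p_GU p_NOD (p_HOR hRRB)
  have hLINE := p_LINE p_RRP
  exact no_sep_win hID hNEAR hLINE p_AVJ p_CONT (p_AVMS p_PAIR) p_WWB p_PAIR p_DIAG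
    (p_NEARD p_WWB) C hC

/-- small normalised gaps in every long window -/
theorem gaps_win (C β : ℝ) : ∃ B T0 : ℝ, ∀ T : ℝ, T0 ≤ T →
    ∃ n : ℕ, 1 ≤ n ∧ T ≤ ord n ∧ ord n ≤ ord (n + 1) ∧ ord (n + 1) ≤ B * T ∧
      (ord (n + 1) * Real.log (ord (n + 1)) - ord n * Real.log (ord n)) / (2 * Real.pi) +
        β * (ord (n + 1) - ord n) < 1 / 2 - C / Real.log (ord n) :=
  gaps_win_of exists_win C β

end Pool.Agent.N806.HG
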