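import Pool.Agent.N806.HG.Stm

/-!
Project HG (helper806): elementary facts on the double average `AV`.
-/

set_option autoImplicit false

open Complex Filter Topology Set MeasureTheory

namespace Pool.Agent.N806.HG

open SG

lemma inner_cont (T : ℝ) {f : ℝ → ℝ} (hf : Continuous f) :
    Continuous (fun x : ℝ => ∫ y in (0 : ℝ)..T / 4, f (5 / 4 * T + x + y)) := by
  apply intervalIntegral.continuous_parametric_intervalIntegral_of_continuous'
  exact hf.comp (by fun_prop)

lemma AV_mono {T : ℝ} (hT : 0 ≤ T) {f g : ℝ → ℝ} (hf : Continuous f) (hg : Continuous g)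
    (h : ∀ t0, Cen T t0 → f t0 ≤ g t0) : AV T f ≤ AV T g := by
  unfold AV
  apply intervalIntegral.integral_mono_on (by linarith)
  · exact (inner_cont T hf).intervalIntegrable _ _
  · exact (inner_cont T hg).intervalIntegrable _ _
  intro x hx
  apply intervalIntegral.integral_mono_on (by linarith)
  · exact (hf.comp (by fun_prop : Continuous fun y : ℝ => 5 / 4 * T + x + y)).intervalIntegrable _ _
  · exact (hg.comp (by fun_prop : Continuous fun y : ℝ => 5 / 4 * T + x + y)).intervalIntegrable _ _
  intro y hy
  apply h
  constructor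
  · linarith [hx.1, hy.1]
  · linarith [hx.2, hy.2]

lemma AV_add (T : ℝ) {f g : ℝ → ℝ} (hf : Continuous f) (hg : Continuous g) :
    AV T (fun t => f t + g t) = AV T f + AV T g := by
  unfold AV
  rw [← intervalIntegral.integral_add ((inner_cont T hf).intervalIntegrable _ _)
    ((inner_cont T hg).intervalIntegrable _ _)]
  apply intervalIntegral.integral_congr
  intro x _
  simp only
  rw [← intervalIntegral.integral_add]
  · exact (hf.comp (by fun_prop : Continuous fun y : ℝ => 5 / 4 * T + x + y)).intervalIntegrable _ _
  · exact (hg.comp (by fun_prop : Continuous fun y : ℝ => 5 / 4 * T + x + y)).intervalIntegrable _ _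

lemma AV_smul (T c : ℝ) (f : ℝ → ℝ) : AV T (fun t => c * f t) = c * AV T f := by
  unfold AV
  simp_rw [intervalIntegral.integral_const_mul]

lemma AV_const (T c : ℝ) : AV T (fun _ => c) = T ^ 2 / 16 * c := by
  unfold AV
  simp only [intervalIntegral.integral_const, sub_zero, smul_eq_mul]
  ring

end Pool.Agent.N806.HG
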