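import Pool.Agent.Y304.U.Avc
import Pool.Agent.Y304.U.Pw

/-!
Project HG (helper806): the averaging lemma for windows `(T, B T]` (Banach version of the averaging
lemma of Y304.U.Avc).
-/

set_option autoImplicit false

namespace Pool.Agent.N806.HG.Ban

open Finset Filter Topology
open Pool.Agent.Y958.U (QQ)
open Pool.Agent.Y304.U (ind ind_nonneg ind_le block low upp FF FF_nonneg)

/-- the logarithmic measure of `E` in the window `(T, X]` -/
noncomputable def lw (E : Set ℕ) (T X : ℕ) : ℝ := ∑ n ∈ Ioc T X, ind E n / n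

/-- upper logarithmic Banach density zero -/
def BLZ (E : Set ℕ) : Prop := ∀ ε : ℝ, 0 < ε → ∃ B0 : ℕ, ∀ B : ℕ, B0 ≤ B → ∃ T0 : ℕ,
  ∀ T : ℕ, T0 ≤ T → lw E T (B * T) ≤ ε * Real.log B

lemma lw_nonneg (E : Set ℕ) (T X : ℕ) : 0 ≤ lw E T X :=
  sum_nonneg fun n _ => div_nonneg (ind_nonneg E n) (Nat.cast_nonneg n)

lemma blocks' (E : Set ℕ) {p : ℕ} (hp : 1 ≤ p) (T : ℕ) (Y : ℕ) :
    ∑ K ∈ Ioc T (T + Y), ind E K / (K + 1) ≤
      ∑ M ∈ Ico (p * (T + 1)) (p * (T + Y + 1)), ind E (M / p) / M := by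
  induction Y with
  | zero => simp
  | succ Y ih =>
    have e1 : Ioc T (T + (Y + 1)) = insert (T + Y + 1) (Ioc T (T + Y)) := by
      ext n; simp only [mem_insert, mem_Ioc]; omega
    rw [e1, sum_insert (by simp), add_comm]
    have h1 := block E hp (K := T + Y + 1) (by omega)
    have h2 : ∑ M ∈ Ico (p * (T + 1)) (p * (T + (Y + 1) + 1)), ind E (M / p) / (M : ℝ) =
        ∑ M ∈ Ico (p * (T + 1)) (p * (T + Y + 1)), ind E (M / p) / (M : ℝ) +
          ∑ M ∈ Ico (p * (T + Y + 1)) (p * (T + Y + 1 + 1)), ind E (M / p) / (M : ℝ) := by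
      rw [show T + (Y + 1) + 1 = T + Y + 1 + 1 by ring, Finset.sum_Ico_consecutive]
      · exact Nat.mul_le_mul_left _ (by omega)
      · exact Nat.mul_le_mul_left _ (by omega)
    rw [h2]
    exact add_le_add ih h1

lemma tele' (T : ℕ) (hT : 1 ≤ T) (Y : ℕ) :
    ∑ K ∈ Ioc T (T + Y), ((1 : ℝ) / K - 1 / (K + 1)) ≤ 1 := by
  have h : ∑ K ∈ Ioc T (T + Y), ((1 : ℝ) / K - 1 / (K + 1)) = 1 / (T + 1) - 1 / (T + Y + 1) := by
    induction Y with
    | zero => simp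
    | succ Y ih =>
      have e1 : Ioc T (T + (Y + 1)) = insert (T + Y + 1) (Ioc T (T + Y)) := by
        ext n; simp only [mem_insert, mem_Ioc]; omega
      rw [e1, sum_insert (by simp), ih]
      push_cast
      ring
  rw [h]
  have h1 : (0 : ℝ) ≤ 1 / (T + Y + 1) := by positivity
  have h2 : (1 : ℝ) / (T + 1) ≤ 1 := by
    rw [div_le_one (by positivity)]
    linarith [(Nat.cast_nonneg T : (0 : ℝ) ≤ T)]
  linarith

lemma lower' (E : Set ℕ) (T : ℕ) (hT : 1 ≤ T) (Y : ℕ) :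
    lw E T (T + Y) - 1 ≤ ∑ K ∈ Ioc T (T + Y), ind E K / ((K : ℝ) + 1) := by
  have h1 := tele' T hT Y
  have h2 : lw E T (T + Y) - ∑ K ∈ Ioc T (T + Y), ind E K / ((K : ℝ) + 1) ≤
      ∑ K ∈ Ioc T (T + Y), ((1 : ℝ) / K - 1 / (K + 1)) := by
    unfold lw
    rw [← sum_sub_distrib]
    refine sum_le_sum fun K hK => ?_
    have hK0 : (0 : ℝ) < K := by exact_mod_cast (by have := (mem_Ioc.1 hK).1; omega : 0 < K)
    have h3 : (0 : ℝ) ≤ 1 / K - 1 / (K + 1) := by
      rw [sub_nonneg]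
      exact one_div_le_one_div_of_le hK0 (by linarith)
    have h4 : ind E K / (K : ℝ) - ind E K / ((K : ℝ) + 1) = ind E K * (1 / K - 1 / (K + 1)) := by
      ring
    rw [h4]
    exact mul_le_of_le_one_left h3 (ind_le E K)
  linarith

lemma sum_inv_Ioc (T Y : ℕ) (hT : 1 ≤ T) (hTY : T ≤ Y) :
    ∑ M ∈ Ioc T Y, (1 : ℝ) / M ≤ Real.log (Y / T) := by
  have h0 : ∀ Z : ℕ, ∑ M ∈ Ioc T (T + Z), (1 : ℝ) / M ≤ Real.log (((T + Z : ℕ) : ℝ)) - Real.log T := by
    intro Z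
    induction Z with
    | zero => simp
    | succ Z ih =>
      have e1 : Ioc T (T + (Z + 1)) = insert (T + Z + 1) (Ioc T (T + Z)) := by
        ext n; simp only [mem_insert, mem_Ioc]; omega
      rw [e1, sum_insert (by simp)]
      have hT0 : (0 : ℝ) < ((T + Z : ℕ) : ℝ) := by exact_mod_cast (by omega : 0 < T + Z)
      have h1 : (1 : ℝ) / ((T + Z + 1 : ℕ) : ℝ) ≤ Real.log (((T + (Z + 1) : ℕ) : ℝ)) -
          Real.log (((T + Z : ℕ) : ℝ)) := by
        have h2 := Real.one_sub_inv_le_log_of_pos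
          (show 0 < ((T + Z + 1 : ℕ) : ℝ) / ((T + Z : ℕ) : ℝ) by positivity)
        have hne : ((T + Z + 1 : ℕ) : ℝ) ≠ 0 := by positivity
        rw [Real.log_div hne hT0.ne', inv_div] at h2
        have e3 : (1 : ℝ) - ((T + Z : ℕ) : ℝ) / ((T + Z + 1 : ℕ) : ℝ) =
            1 / ((T + Z + 1 : ℕ) : ℝ) := by
          field_simp
          push_cast
          ring
        rw [e3] at h2
        rw [← add_assoc]
        exact h2
      linarith
  obtain ⟨Z, rfl⟩ := Nat.exists_eq_add_of_le hTY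
  have hT0 : (0 : ℝ) < T := by exact_mod_cast hT
  rw [Real.log_div (by positivity) hT0.ne']
  exact h0 Z

/-- **averaging lemma** for windows -/
theorem avc {E : Set ℕ} (hE : ¬ BLZ E) : ∃ ε : ℝ, 0 < ε ∧ ∃ I₀ : ℕ, ∀ i₀ i₁ : ℕ,
    I₀ ≤ i₀ → i₀ < i₁ → ∀ M₀ : ℕ, ∃ M : ℕ, M₀ ≤ M ∧
      ε * ∑ i ∈ Ico i₀ i₁, (1 : ℝ) / i ≤ FF E i₀ i₁ M := by
  classical
  unfold BLZ at hE
  push Not at hE
  obtain ⟨ε, hε, hE⟩ := hE
  obtain ⟨I₀, hI1, hI⟩ := low Pool.Agent.Y304.U.pw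
  refine ⟨ε / 32, by positivity, I₀, fun i₀ i₁ h0 h01 M₀ => ?_⟩
  set S : ℝ := ∑ i ∈ Ico i₀ i₁, (1 : ℝ) / i with hS
  have hS0 : 0 < S := by
    refine sum_pos (fun i hi => ?_) ⟨i₀, by rw [mem_Ico]; omega⟩
    rw [mem_Ico] at hi
    have : (0 : ℝ) < i := by exact_mod_cast (by omega : 0 < i)
    positivity
  obtain ⟨B0, hB0⟩ := exists_nat_ge (Real.exp (2 / ε + i₁ + 1))
  obtain ⟨B, hB, hE2⟩ := hE (B0 + 2)
  obtain ⟨T, hT, hlw⟩ := hE2 (M₀ + 1)
  have hT1 : 1 ≤ T := by omega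
  have hT0 : (0 : ℝ) < T := by exact_mod_cast hT1
  have hBr : Real.exp (2 / ε + i₁ + 1) ≤ B := hB0.trans (by exact_mod_cast (by omega : B0 ≤ B))
  have hBpos : (0 : ℝ) < B := (Real.exp_pos _).trans_le hBr
  have hlogB : 2 / ε + i₁ + 1 ≤ Real.log B := by rwa [Real.le_log_iff_exp_le hBpos]
  have hBT : T ≤ B * T := Nat.le_mul_of_pos_left _ (by omega)
  obtain ⟨Z, hZ⟩ := Nat.exists_eq_add_of_le hBT
  set Y : ℕ := 2 ^ i₁ * (B * T + 1) with hY
  have hTY : T ≤ Y := by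
    have h1 : 1 ≤ 2 ^ i₁ := Nat.one_le_two_pow
    calc T ≤ 1 * (B * T + 1) := by omega
      _ ≤ Y := Nat.mul_le_mul_right _ h1
  by_contra hcon
  push Not at hcon
  -- upper bound
  have hup : ∑ M ∈ Ioc T Y, FF E i₀ i₁ M / M ≤ ε / 32 * S * Real.log (Y / T) := by
    have h1 : ∀ M ∈ Ioc T Y, FF E i₀ i₁ M / M ≤ ε / 32 * S * (1 / M) := by
      intro M hM
      have h2 := (hcon M (by have := (mem_Ioc.1 hM).1; omega)).le
      rw [mul_one_div]
      exact div_le_div_of_nonneg_right h2 (Nat.cast_nonneg M)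
    refine (sum_le_sum h1).trans ?_
    rw [← mul_sum]
    exact mul_le_mul_of_nonneg_left (sum_inv_Ioc T Y hT1 hTY) (by positivity)
  -- lower bound
  have hlow : 1 / 8 * S * (lw E T (B * T) - 1) ≤ ∑ M ∈ Ioc T Y, FF E i₀ i₁ M / M := by
    by_cases hneg : lw E T (B * T) - 1 < 0
    · have h1 : 1 / 8 * S * (lw E T (B * T) - 1) ≤ 0 :=
        mul_nonpos_of_nonneg_of_nonpos (by positivity) hneg.le
      exact h1.trans (sum_nonneg fun M _ => div_nonneg (FF_nonneg _ _ _ _) (Nat.cast_nonneg M))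
    push Not at hneg
    have e : ∑ M ∈ Ioc T Y, FF E i₀ i₁ M / M = ∑ i ∈ Ico i₀ i₁, (1 : ℝ) / i *
        ∑ p ∈ QQ i, Real.log p / 2 ^ i * ∑ M ∈ Ioc T Y, ind E (M / p) / M := by
      unfold FF
      simp only [sum_div, mul_sum]
      rw [sum_comm]
      refine sum_congr rfl fun i _ => ?_
      rw [sum_comm]
      refine sum_congr rfl fun p _ => sum_congr rfl fun M _ => by ring
    rw [e, mul_right_comm, mul_comm, hS, sum_mul]
    refine sum_le_sum fun i hi => mul_le_mul_of_nonneg_left ?_ (by positivity)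
    rw [mem_Ico] at hi
    have h1 : ∀ p ∈ QQ i, lw E T (B * T) - 1 ≤ ∑ M ∈ Ioc T Y, ind E (M / p) / (M : ℝ) := by
      intro p hp
      unfold QQ at hp
      rw [mem_filter, mem_Ioc] at hp
      have hp1 : 1 ≤ p := hp.2.one_lt.le
      have hp2 : p ≤ 2 ^ i₁ := hp.1.2.trans (Nat.pow_le_pow_right (by norm_num) (by omega))
      have h3 := lower' E T hT1 Z
      have h4 := blocks' E hp1 T Z
      rw [← hZ] at h3 h4
      have h5 : ∑ M ∈ Ico (p * (T + 1)) (p * (B * T + 1)), ind E (M / p) / (M : ℝ) ≤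
          ∑ M ∈ Ioc T Y, ind E (M / p) / (M : ℝ) := by
        refine sum_le_sum_of_subset_of_nonneg ?_ fun M _ _ =>
          div_nonneg (ind_nonneg _ _) (Nat.cast_nonneg M)
        intro M hM
        rw [mem_Ico] at hM
        rw [mem_Ioc]
        have h6 : T + 1 ≤ p * (T + 1) := Nat.le_mul_of_pos_left _ hp1
        have h7 : p * (B * T + 1) ≤ Y := Nat.mul_le_mul_right _ hp2
        omega
      linarith
    calc 1 / 8 * (lw E T (B * T) - 1) ≤
          (∑ p ∈ QQ i, Real.log p / 2 ^ i) * (lw E T (B * T) - 1) :=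
          mul_le_mul_of_nonneg_right (hI i (by omega)) hneg
      _ = ∑ p ∈ QQ i, Real.log p / 2 ^ i * (lw E T (B * T) - 1) := by rw [sum_mul]
      _ ≤ _ := sum_le_sum fun p hp => mul_le_mul_of_nonneg_left (h1 p hp)
          (div_nonneg (Real.log_natCast_nonneg p) (by positivity))
  have hYT : Real.log (Y / T) ≤ i₁ + 1 + Real.log B := by
    have h1 : (Y : ℝ) / T ≤ 2 ^ i₁ * (2 * B) := by
      rw [hY]
      push_cast
      rw [div_le_iff₀ hT0]
      have hT1r : (1 : ℝ) ≤ T := by exact_mod_cast hT1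
      have hB1r : (1 : ℝ) ≤ B := by exact_mod_cast (by omega : 1 ≤ B)
      have : (B : ℝ) * T + 1 ≤ 2 * B * T := by nlinarith
      calc (2 : ℝ) ^ i₁ * (B * T + 1) ≤ 2 ^ i₁ * (2 * B * T) :=
            mul_le_mul_of_nonneg_left this (by positivity)
        _ = _ := by ring
    have hYT0 : (0 : ℝ) < (Y : ℝ) / T := by
      have : (0 : ℝ) < Y := by exact_mod_cast (by omega : 0 < Y)
      positivity
    have h2 := Real.log_le_log hYT0 h1
    rw [Real.log_mul (by positivity) (by positivity), Real.log_mul (by norm_num) hBpos.ne',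
      Real.log_pow] at h2
    have h3 := Real.log_two_lt_d9
    have h4 : (i₁ : ℝ) * Real.log 2 ≤ i₁ * 1 :=
      mul_le_mul_of_nonneg_left (by linarith) (Nat.cast_nonneg _)
    linarith
  have h1 := hlow.trans (hup.trans (mul_le_mul_of_nonneg_left hYT (by positivity)))
  have h2 : 1 / 8 * (lw E T (B * T) - 1) ≤ ε / 32 * (i₁ + 1 + Real.log B) := by
    have e1 : 1 / 8 * S * (lw E T (B * T) - 1) = S * (1 / 8 * (lw E T (B * T) - 1)) := by ring
    have e2 : ε / 32 * S * (i₁ + 1 + Real.log B) = S * (ε / 32 * (i₁ + 1 + Real.log B)) := by ring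
    rw [e1, e2] at h1
    exact le_of_mul_le_mul_left h1 hS0
  have h3 : ε * (2 / ε + i₁ + 1) ≤ ε * Real.log B := mul_le_mul_of_nonneg_left hlogB hε.le
  have h4 : ε * (2 / ε + i₁ + 1) = 2 + ε * (i₁ + 1) := by
    field_simp
    ring
  have h5 : 0 ≤ ε * ((i₁ : ℝ) + 1) := by positivity
  nlinarith

end Pool.Agent.N806.HG.Ban
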